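import Pool.Agent.Lib.MP_df1788_co.Num
import Pool.Agent.Lib.MP_ca56d1_nt.Split

/-! The real quadratic base field. -/

namespace Pool.Agent.Lib.MP_df1788_co

open NumberField Pool.Agent.Stark

namespace BaseAux

/-- the ramified primes -/
def pn (i : Fin 98) : ℕ := rl.getD i 0

/-- the radicands -/
def xn (i : Fin 98) : ℕ := if pn i % 4 = 1 then pn i else 3 * pn i

theorem pn_mem : ∀ i, pn i ∈ rl := by decide +kernel

theorem xn_spec : ∀ i, xn i % 4 = 1 ∧ xn i * (mm / xn i) = mm ∧ (xn i).Coprime (mm / xn i) ∧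
    Nat.Coprime 5 (xn i) ∧ pn i ∣ xn i ∧ ¬ pn i * pn i ∣ xn i := by decide +kernel

theorem xn_cop : ∀ i j, j ≠ i → (pn i).Coprime (xn j) := by decide +kernel

theorem mm_five : 5 ∣ mm ∧ ¬ 5 * 5 ∣ mm := by decide +kernel

theorem mm_pos : 0 < mm := by have := mm_mod; omega

theorem xn_pos (i : Fin 98) : 0 < xn i := by have := (xn_spec i).1; omega

theorem not_sq {p a b : ℕ} (hp : p.Prime) (h1 : p ∣ a) (h2 : ¬ p * p ∣ a) (h3 : p.Coprime b) :
    ¬ IsSquare (a * b) := by
  rintro ⟨r, hr⟩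
  have h4 : p ∣ r := by
    have : p ∣ r * r := hr ▸ h1.mul_right b
    exact (hp.dvd_mul.1 this).elim id id
  exact h2 ((h3.mul_left h3).dvd_of_dvd_mul_right (hr ▸ Nat.mul_dvd_mul h4 h4))

theorem mm_ns : ¬ IsSquare (mm : ℚ) := by
  rw [Rat.isSquare_natCast_iff, ← mul_one mm]
  exact not_sq Nat.prime_five mm_five.1 mm_five.2 (Nat.coprime_one_right 5)

variable {K : Type} [Field K] [NumberField K]

theorem val_nat (q : Pr K) (n : ℕ) : q.valuation K (n : K) ≤ 1 ∧
    (q.valuation K (n : K) < 1 ↔ (n : 𝓞 K) ∈ q.asIdeal) := by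
  rw [← map_natCast (algebraMap (𝓞 K) K) n]
  exact ⟨q.valuation_le_one _, q.valuation_lt_one_iff_mem _⟩

theorem val_cop (q : Pr K) {a b : ℕ} (h : a.Coprime b) :
    q.valuation K (a : K) = 1 ∨ q.valuation K (b : K) = 1 := by
  by_contra hc
  rw [not_or] at hc
  have ha := (val_nat q a).2.1 (lt_of_le_of_ne (val_nat q a).1 hc.1)
  have hb := (val_nat q b).2.1 (lt_of_le_of_ne (val_nat q b).1 hc.2)
  obtain ⟨u, v, huv⟩ := h.cast (R := 𝓞 K)
  exact q.isPrime.ne_top ((Ideal.eq_top_iff_one _).2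
    (huv ▸ q.asIdeal.add_mem (q.asIdeal.mul_mem_left u ha) (q.asIdeal.mul_mem_left v hb)))

theorem og_of_val {q : Pr K} {x : K} (h : q.valuation K x = 1) : og q x = 0 := by
  simp [og, ord, h]

theorem even_og (q : Pr K) {a b : ℕ} (h : a.Coprime b) (ha : a ≠ 0) (hb : b ≠ 0) {r : K}
    (hr : r ^ 2 = (a * b : ℕ)) : Even (og q (a : K)) := by
  rcases val_cop q h with c | c
  · rw [og_of_val c]; exact Even.zero
  · have h1 : og q (r ^ 2) = og q (a : K) + og q (b : K) := by
      rw [hr, Nat.cast_mul]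
      exact ord_mul (Nat.cast_ne_zero.2 ha) (Nat.cast_ne_zero.2 hb)
    have h2 : og q (r ^ 2) = (2 : ℕ) * og q r := ord_pow r 2
    rw [og_of_val c, add_zero, h2] at h1
    exact ⟨og q r, by rw [← h1]; push_cast; ring⟩

theorem lsq_of (q : Pr K) {x t : K} (ht : t ≠ 0)
    (h : q.valuation K (x * t ^ 2 - 1) < q.valuation K 4) : LSq q x := by
  have h1 := (isLoc_wv q).hens (emb q (x * t ^ 2)) (by
    rw [← map_one (emb q), ← map_sub, ← map_ofNat (emb q) 4, ComplAux.wv_emb, ComplAux.wv_emb]; exact h)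
  obtain ⟨r, hr⟩ := h1
  have h2 : emb q t ≠ 0 := (map_ne_zero _).2 ht
  refine ⟨r / emb q t, ?_⟩
  rw [map_mul, map_pow] at hr
  field_simp
  linear_combination hr

theorem lsq_two (q : Pr K) (hq : og q (2 : K) ≠ 0) {x t : K} (ht : t ≠ 0) {k : ℕ}
    (h : x * t ^ 2 = (8 * k + 1 : ℕ)) : LSq q x := by
  refine lsq_of q ht ?_
  have h1 : x * t ^ 2 - 1 = 4 * ((2 : ℕ) * (k : K)) := by rw [h]; push_cast; ring
  have h2 : q.valuation K ((2 : ℕ) : K) < 1 :=
    lt_of_le_of_ne (val_nat q 2).1 fun c => hq (og_of_val (by simpa using c))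
  have h3 : q.valuation K (4 : K) ≠ 0 := by simp
  rw [h1, map_mul, map_mul]
  refine mul_lt_of_lt_one_right (zero_lt_iff.2 h3) ?_
  exact (mul_le_of_le_one_right' (val_nat q k).1).trans_lt h2

theorem lsq_odd (q : Pr K) {l : ℕ} (hl : l.Coprime 4) (hq : (l : 𝓞 K) ∈ q.asIdeal) {x t : K}
    (ht : t ≠ 0) {k : ℕ} (h : x * t ^ 2 = (l * k + 1 : ℕ)) : LSq q x := by
  refine lsq_of q ht ?_
  have h1 : x * t ^ 2 - 1 = (l : K) * (k : K) := by rw [h]; push_cast; ring
  have h2 := (val_nat q l).2.2 hq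
  have h3 : q.valuation K (4 : K) = 1 := by simpa using (val_cop q hl).resolve_left h2.ne
  rw [h1, map_mul, h3]
  exact (mul_le_of_le_one_right' (val_nat q k).1).trans_lt h2

theorem exists_sq {l z : ℕ} [Fact l.Prime] (h : (z : ZMod l) ^ (l / 2) = 1) (h0 : (z : ZMod l) ≠ 0) :
    ∃ w k : ℕ, w ≠ 0 ∧ z * w ^ 2 = l * k + 1 := by
  obtain ⟨y, hy⟩ := (ZMod.euler_criterion l h0).2 h
  have hy0 : y ≠ 0 := by rintro rfl; exact h0 (by simpa using hy)
  have h1 : ((z * y⁻¹.val ^ 2 : ℕ) : ZMod l) = (1 : ℕ) := by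
    push_cast
    rw [ZMod.natCast_zmod_val, hy]
    field_simp
  have h2 := (ZMod.natCast_eq_natCast_iff' _ _ _).1 h1
  rw [Nat.mod_eq_of_lt (Fact.out : l.Prime).one_lt] at h2
  refine ⟨y⁻¹.val, z * y⁻¹.val ^ 2 / l, ?_, ?_⟩
  · rw [Ne, ZMod.val_eq_zero]; exact inv_ne_zero hy0
  · rw [← h2]; exact (Nat.div_add_mod _ _).symm

theorem exists_sq' {l : ℕ} (hl : l ∈ pl) (i : Fin 98) : ∃ w k : ℕ, w ≠ 0 ∧
    (xn i * w ^ 2 = l * k + 1 ∨ xn i * mm * w ^ 2 = l * k + 1) := by
  obtain ⟨h1, h2, h3⟩ := pl_prime hl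
  have : Fact l.Prime := ⟨h1⟩
  have h4 : l % 2 = 1 := h1.eq_two_or_odd.resolve_left h2
  have h5 : (mm : ZMod l) ^ (l / 2) = -1 := by
    have := (ZMod.natCast_eq_natCast_iff _ _ _).2 h3
    rw [show (l - 1) / 2 = l / 2 by omega, Nat.cast_sub h1.one_le] at this
    simpa using this
  have h6 : (mm : ZMod l) ≠ 0 := by
    intro c
    have := h1.two_le
    rw [c, zero_pow (by omega)] at h5
    simp at h5
  have h7 : (xn i : ZMod l) ≠ 0 := by
    intro c
    apply h6
    rw [← (xn_spec i).2.1, Nat.cast_mul, c, zero_mul]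
  rcases ZMod.pow_div_two_eq_neg_one_or_one l h7 with c | c
  · obtain ⟨w, k, a, b⟩ := exists_sq c h7
    exact ⟨w, k, a, Or.inl b⟩
  · obtain ⟨w, k, a, b⟩ := exists_sq (l := l) (z := xn i * mm)
      (by rw [Nat.cast_mul, mul_pow, c, h5]; ring) (by rw [Nat.cast_mul]; exact mul_ne_zero h7 h6)
    exact ⟨w, k, a, Or.inr b⟩

theorem exists_above (hK : Module.finrank ℚ K = 2) {l : ℕ} (hl : 2 ≤ l) :
    ∃ q : Pr K, (l : 𝓞 K) ∈ q.asIdeal := by
  have h1 : Ideal.span {(l : 𝓞 K)} ≠ ⊤ := by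
    intro c
    have := Ideal.absNorm_span_natCast (S := 𝓞 K) l
    rw [c, Ideal.absNorm_top, RingOfIntegers.rank, hK] at this
    nlinarith
  obtain ⟨m, hm, h2⟩ := Ideal.exists_le_maximal _ h1
  have h3 : (l : 𝓞 K) ∈ m := h2 (Ideal.mem_span_singleton_self _)
  refine ⟨⟨m, hm.isPrime, fun c => ?_⟩, h3⟩
  rw [c, Ideal.mem_bot, Nat.cast_eq_zero] at h3
  omega

theorem card_two (hK : Module.finrank ℚ K = 2) : (dv (2 : K)).support.card ≤ 2 := by
  have h1 := prod_absNorm_two (dv (2 : K)).support fun q hq => Finsupp.notMem_support_iff.1 hq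
  have h2 : 2 ^ (dv (2 : K)).support.card ≤
      ∏ q ∈ (dv (2 : K)).support, Ideal.absNorm q.asIdeal ^ (og q (2 : K)).toNat := by
    refine Finset.pow_card_le_prod _ _ _ fun q hq => ?_
    have h0 : Ideal.absNorm q.asIdeal ≠ 0 := by
      rw [Ne, Ideal.absNorm_eq_zero_iff]
      exact q.ne_bot
    have h1 : Ideal.absNorm q.asIdeal ≠ 1 := by
      rw [Ne, Ideal.absNorm_eq_one_iff]
      exact q.isPrime.ne_top
    have h3 : og q (2 : K) ≠ 0 := Finsupp.mem_support_iff.1 hq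
    have h4 := og_nonneg q (2 : 𝓞 K)
    rw [show ((2 : 𝓞 K) : K) = 2 from map_ofNat (algebraMap (𝓞 K) K) 2] at h4
    exact (show 2 ≤ Ideal.absNorm q.asIdeal by omega).trans (Nat.le_self_pow (by omega) _)
  rw [h1, hK] at h2
  exact (Nat.pow_le_pow_iff_right one_lt_two).1 h2

variable (E : Quad ℚ K (mm : ℚ))

theorem rt_sq : E.rt ^ 2 = (mm : K) := by rw [E.sq, map_natCast]

include E in
theorem real : IsTotallyReal K := by
  refine ⟨fun v => InfinitePlace.isReal_iff.2 (ComplexEmbedding.isReal_iff.2 ?_)⟩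
  generalize v.embedding = φ
  have h1 : φ E.rt ^ 2 = (mm : ℂ) := by rw [← map_pow, rt_sq, map_natCast]
  have h2 : (φ E.rt).im = 0 := by
    have a := congrArg Complex.re h1
    have b := congrArg Complex.im h1
    have c : (0 : ℝ) < mm := by exact_mod_cast mm_pos
    simp only [sq, Complex.mul_re, Complex.mul_im, Complex.natCast_re, Complex.natCast_im] at a b
    by_contra d
    have e : (φ E.rt).re = 0 := by
      have : (φ E.rt).re * (φ E.rt).im = 0 := by linarith
      exact (mul_eq_zero.1 this).resolve_right d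
    rw [e] at a
    nlinarith [mul_self_nonneg (φ E.rt).im]
  ext1 z
  obtain ⟨g, h, rfl⟩ := E.span z
  rw [ComplexEmbedding.conjugate_coe_eq]
  simp [Complex.conj_eq_iff_im.2 h2]

include E in
theorem discr_le : (discr K).natAbs ≤ 4 * mm := by
  have hi : IsIntegral ℤ E.rt := IsIntegral.of_pow two_pos (by
    rw [rt_sq, ← map_natCast (algebraMap ℤ K)]; exact isIntegral_algebraMap)
  let r : 𝓞 K := ⟨E.rt, hi⟩
  let b := Module.finBasisOfFinrankEq ℤ (𝓞 K) ((RingOfIntegers.rank K).trans E.finrank_eq)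
  have h1 := Algebra.discr_of_matrix_vecMul b (b.toMatrix ![1, r])
  rw [Module.Basis.toMatrix_map_vecMul, discr_eq_discr] at h1
  have t0 : Algebra.trace ℚ K E.rt = 0 := by
    have := Algebra.trace_eq_of_algEquiv E.tau E.rt
    rw [E.tau_rt, map_neg] at this
    linarith
  have t1 : ∀ n : ℕ, Algebra.trace ℚ K (n : K) = 2 * n := by
    intro n
    rw [← map_natCast (algebraMap ℚ K), Algebra.trace_algebraMap, E.finrank_eq]
    simp
  have h2 : Algebra.discr ℤ ![1, r] = 4 * mm := by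
    have e1 : Algebra.trace ℤ (𝓞 K) 1 = 2 := by
      have := Algebra.coe_trace_int (1 : 𝓞 K)
      have h := t1 1
      rw [Nat.cast_one] at h
      rw [show ((1 : 𝓞 K) : K) = 1 from rfl, h] at this
      exact_mod_cast this
    have e2 : Algebra.trace ℤ (𝓞 K) r = 0 := by
      have := Algebra.coe_trace_int r
      rw [show (r : K) = E.rt from rfl, t0] at this
      exact_mod_cast this
    have e3 : Algebra.trace ℤ (𝓞 K) (r * r) = 2 * mm := by
      have := Algebra.coe_trace_int (r * r)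
      rw [show ((r * r : 𝓞 K) : K) = E.rt * E.rt from rfl, ← sq E.rt, rt_sq, t1] at this
      exact_mod_cast this
    rw [Algebra.discr_def, Matrix.det_fin_two]
    simp only [Algebra.traceMatrix_apply, Algebra.traceForm_apply, Matrix.cons_val_zero,
      Matrix.cons_val_one, mul_one, one_mul, e1, e2, e3]
    ring
  have h3 : discr K ∣ ((4 * mm : ℕ) : ℤ) := ⟨_, by push_cast; rw [← h2, h1, mul_comm]⟩
  exact Nat.le_of_dvd (by have := mm_pos; omega) (Int.natAbs_dvd_natAbs.2 h3)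

include E in
theorem sq_cases {y : ℕ} (h : IsSquare (y : K)) : IsSquare y ∨ IsSquare (mm * y) := by
  obtain ⟨z, hz⟩ := h
  obtain ⟨g, h, rfl⟩ := E.span z
  have h1 : algebraMap ℚ K (g ^ 2 + mm * h ^ 2 - y) + algebraMap ℚ K (2 * g * h) * E.rt = 0 := by
    simp only [map_sub, map_add, map_mul, map_pow, map_natCast, map_ofNat]
    rw [hz, ← rt_sq E]
    ring
  obtain ⟨h2, h3⟩ := E.indep h1
  rw [← Rat.isSquare_natCast_iff, ← Rat.isSquare_natCast_iff]
  rcases mul_eq_zero.1 h3 with c | c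
  · have c' : g = 0 := by simpa using c
    exact Or.inr ⟨mm * h, by push_cast; rw [c'] at h2; linear_combination (-(mm : ℚ)) * h2⟩
  · exact Or.inl ⟨g, by rw [c] at h2; linear_combination -h2⟩

theorem cl_prod (s : Finset (Fin 98)) :
    cl ((∏ i ∈ s, xn i : ℕ) : K) = ∑ i ∈ s, cl (xn i : K) := by
  induction s using Finset.induction_on with
  | empty => simpa using (cl_eq_zero (one_ne_zero : (1 : K) ≠ 0)).2 ⟨1, by simp⟩
  | insert i s hi ih =>
    rw [Finset.prod_insert hi, Finset.sum_insert hi, Nat.cast_mul, cl_mul, ih]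
    · exact Nat.cast_ne_zero.2 (xn_pos i).ne'
    · exact Nat.cast_ne_zero.2 (Finset.prod_pos fun j _ => xn_pos j).ne'

include E in
theorem indep : LinearIndependent (ZMod 2) fun i => cl (xn i : K) := by
  rw [Fintype.linearIndependent_iff]
  intro g hg i
  by_contra hi
  have h1 : ∑ j ∈ Finset.univ.filter (fun j => g j ≠ 0), cl (xn j : K) = 0 := by
    rw [← hg, Finset.sum_filter]
    refine Finset.sum_congr rfl fun j _ => ?_
    rcases zmod2_cases (g j) with c | c <;> simp [c]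
  rw [← cl_prod, cl_eq_zero (Nat.cast_ne_zero.2 (Finset.prod_pos fun j _ => xn_pos j).ne')] at h1
  rcases sq_cases E h1 with c | c
  · rw [← Finset.mul_prod_erase _ _ (a := i) (by simpa using hi)] at c
    exact not_sq (rl_prime (pn_mem i)).1 (xn_spec i).2.2.2.2.1 (xn_spec i).2.2.2.2.2
      (Nat.Coprime.prod_right fun j hj => xn_cop i j (Finset.ne_of_mem_erase hj)) c
  · exact not_sq Nat.prime_five mm_five.1 mm_five.2
      (Nat.Coprime.prod_right fun j _ => (xn_spec j).2.2.2.1) c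

end BaseAux

open BaseAux in
theorem base : ∃ (K : Type) (_ : Field K) (_ : NumberField K) (_ : IsTotallyReal K)
    (T : Finset (Pr K)) (x : Fin 98 → K),
    Module.finrank ℚ K = 2 ∧ (discr K).natAbs ≤ 2 ^ 740 ∧ T.card ≤ 2125 ∧
    (∀ q ∉ T, og q (2 : K) = 0) ∧ (∀ i, x i ≠ 0) ∧ (∀ i q, Even (og q (x i))) ∧
    (∀ i (φ : K →+* ℝ), 0 < φ (x i)) ∧ (∀ i, ∀ q ∈ T, LSq q (x i)) ∧
    LinearIndependent (ZMod 2) (fun i => cl (x i)) ∧
    ∀ l ∈ pl, ∃ q ∈ T, (l : 𝓞 K) ∈ q.asIdeal := by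
  classical
  obtain ⟨K, _, _, alg, ⟨E⟩⟩ := exists_quad mm_ns
  obtain rfl : alg = DivisionRing.toRatAlgebra := Subsingleton.elim _ _
  have hK := E.finrank_eq
  have h1 : ∀ l : ℕ, ∃ q : Pr K, 2 ≤ l → (l : 𝓞 K) ∈ q.asIdeal := by
    intro l
    by_cases h : 2 ≤ l
    · exact (exists_above hK h).imp fun q hq _ => hq
    · exact (exists_above hK le_rfl).imp fun q _ c => absurd c h
  choose ql hql using h1
  refine ⟨K, inferInstance, inferInstance, real E, (dv (2 : K)).support ∪ pl.toFinset.image ql,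
    fun i => xn i, hK, (discr_le E).trans mm_le, ?_, fun q hq => ?_,
    fun i => Nat.cast_ne_zero.2 (xn_pos i).ne', fun i q => ?_, fun i φ => ?_, fun i q hq => ?_,
    indep E, fun l hl => ⟨ql l, Finset.mem_union_right _ (Finset.mem_image_of_mem _
      (List.mem_toFinset.2 hl)), hql l (pl_prime hl).1.two_le⟩⟩
  · have a := card_two hK
    have b := (Finset.card_image_le (s := pl.toFinset) (f := ql)).trans (List.toFinset_card_le pl)
    have c := Finset.card_union_le (dv (2 : K)).support (pl.toFinset.image ql)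
    rw [pl_length] at b
    omega
  · exact Finsupp.notMem_support_iff.1 fun c => hq (Finset.mem_union_left _ c)
  · obtain ⟨-, a, b, -⟩ := xn_spec i
    refine even_og q b (xn_pos i).ne' (fun c => ?_) (r := E.rt) (by rw [a, rt_sq])
    rw [c, mul_zero] at a
    exact mm_pos.ne a
  · rw [map_natCast]; exact_mod_cast xn_pos i
  · rcases Finset.mem_union.1 hq with c | c
    · have c' : og q (2 : K) ≠ 0 := Finsupp.mem_support_iff.1 c
      have a := (xn_spec i).1
      by_cases b : xn i % 8 = 1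
      · refine lsq_two q c' one_ne_zero (k := xn i / 8) ?_
        rw [one_pow, mul_one, ← b, Nat.div_add_mod]
      · refine lsq_two q c' E.rt_ne (k := xn i * mm / 8) ?_
        have : xn i * mm % 8 = 1 := by
          rw [Nat.mul_mod, mm_mod, show xn i % 8 = 5 by omega]
        rw [rt_sq, ← Nat.cast_mul, ← this, Nat.div_add_mod]
    · obtain ⟨l, hl, rfl⟩ := Finset.mem_image.1 c
      have hl' := List.mem_toFinset.1 hl
      obtain ⟨p1, p2, -⟩ := pl_prime hl'
      have h4 : l.Coprime 4 :=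
        Nat.Coprime.pow_right 2 ((Nat.coprime_primes p1 Nat.prime_two).2 p2)
      obtain ⟨w, k, hw, c | c⟩ := exists_sq' hl' i
      · refine lsq_odd _ h4 (hql l p1.two_le) (Nat.cast_ne_zero.2 hw) (k := k) ?_
        rw [← c]; push_cast; rfl
      · refine lsq_odd _ h4 (hql l p1.two_le) (mul_ne_zero E.rt_ne (Nat.cast_ne_zero.2 hw))
          (k := k) ?_
        rw [← c, mul_pow, rt_sq]; push_cast; ring

end Pool.Agent.Lib.MP_df1788_co
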