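import Pool.Agent.Lib.MP_df1788_co.Defs

/-! The discriminant of an unramified extension. -/

namespace Pool.Agent.Lib.MP_df1788_co

open NumberField Pool.Agent.Stark

theorem discr_unr {K L : Type} [Field K] [NumberField K] [Field L] [NumberField L] [Algebra K L]
    (h : ∀ Q : Pr L, eI K Q = 1) :
    (discr L).natAbs = (discr K).natAbs ^ Module.finrank K L := by
  have hd : differentIdeal (𝓞 K) (𝓞 L) = ⊤ := by
    by_contra hne
    obtain ⟨P, hP, hle⟩ := Ideal.exists_le_maximal _ hne
    have hb : P ≠ ⊥ := by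
      rintro rfl
      exact differentIdeal_ne_bot (le_bot_iff.1 hle)
    refine not_dvd_differentIdeal_iff.2 ?_ (Ideal.dvd_iff_le.2 hle)
    exact Ideal.ramificationIdx_eq_one_iff.1 (h ⟨P, hP.isPrime, hb⟩)
  rw [natAbs_discr_eq_absNorm_differentIdeal_mul_natAbs_discr_pow K (𝓞 K) L (𝓞 L), hd,
    Ideal.absNorm_top, one_mul]

end Pool.Agent.Lib.MP_df1788_co
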