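import Pool.Agent.Lib.MP_df1788_co.Defs

/-! Adjoining the square root of an invariant class. -/

namespace Pool.Agent.Lib.MP_df1788_co

open NumberField Pool.Agent.Stark

namespace ExtAux

section Lift

variable {L M : Type*} [Field L] [Field M] [Algebra L M] {μ : L} (E : Quad L M μ)

theorem coef : ∃ a b : M → L, ∀ g h : L, a (algebraMap L M g + algebraMap L M h * E.rt) = g ∧
    b (algebraMap L M g + algebraMap L M h * E.rt) = h := by
  choose a b hab using E.span
  refine ⟨a, b, fun g h => ?_⟩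
  have h1 := hab (algebraMap L M g + algebraMap L M h * E.rt)
  generalize a (algebraMap L M g + algebraMap L M h * E.rt) = g' at h1 ⊢
  generalize b (algebraMap L M g + algebraMap L M h * E.rt) = h' at h1 ⊢
  have h2 := E.indep (g := g' - g) (h := h' - h) (by
    rw [map_sub, map_sub]
    linear_combination -h1)
  exact ⟨sub_eq_zero.1 h2.1, sub_eq_zero.1 h2.2⟩

include E in
theorem lift {Ω : Type*} [Field Ω] (ι : L →+* Ω) (hs : IsSquare (ι μ)) :
    ∃ f : M →+* Ω, ∀ x, f (algebraMap L M x) = ι x := by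
  obtain ⟨s, hs⟩ := hs
  obtain ⟨a, b, hab⟩ := coef E
  have key : ∀ (g h : L) (z : M), z = algebraMap L M g + algebraMap L M h * E.rt →
      ι (a z) + ι (b z) * s = ι g + ι h * s := by
    rintro g h _ rfl
    rw [(hab g h).1, (hab g h).2]
  refine ⟨{ toFun := fun z => ι (a z) + ι (b z) * s
            map_one' := ?_
            map_mul' := ?_
            map_zero' := ?_
            map_add' := ?_ }, fun x => ?_⟩
  · rw [key 1 0 1 (by simp)]
    simp
  · intro z w
    obtain ⟨g, h, hz⟩ := E.span z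
    obtain ⟨g', h', hw⟩ := E.span w
    rw [key g h z hz, key g' h' w hw, key (g * g' + μ * (h * h')) (g * h' + h * g') (z * w) (by
      simp only [hz, hw, map_add, map_mul, ← E.sq]
      ring)]
    simp only [map_add, map_mul, hs]
    ring
  · rw [key 0 0 0 (by simp)]
    simp
  · intro z w
    obtain ⟨g, h, hz⟩ := E.span z
    obtain ⟨g', h', hw⟩ := E.span w
    rw [key g h z hz, key g' h' w hw, key (g + g') (h + h') (z + w) (by
      simp only [hz, hw, map_add]
      ring)]
    simp only [map_add]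
    ring
  · change ι (a (algebraMap L M x)) + ι (b (algebraMap L M x)) * s = ι x
    rw [key x 0 _ (by simp)]
    simp

variable {K : Type*} [Field K] [Algebra K L] [Algebra K M] [IsScalarTower K L M]

include E in
theorem liftAlg {Ω : Type*} [Field Ω] [Algebra K Ω] (ι : L →ₐ[K] Ω) (hs : IsSquare (ι μ)) :
    ∃ f : M →ₐ[K] Ω, ∀ x, f (algebraMap L M x) = ι x := by
  obtain ⟨f, hf⟩ := lift E ι.toRingHom hs
  exact ⟨{ f with
    commutes' := fun x => by
      rw [IsScalarTower.algebraMap_apply K L M]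
      exact (hf _).trans (ι.commutes x) }, hf⟩

include E in
theorem galois [CharZero L] [FiniteDimensional K M] [IsGalois K L]
    (hinv : ∀ g : L ≃ₐ[K] L, IsSquare (g μ * μ)) : IsGalois K M := by
  have : FiniteDimensional K L := Module.Finite.left K L M
  refine IsGalois.of_fixedField_eq_bot K M (eq_bot_iff.2 fun z hz => ?_)
  have hz' : ∀ σ : M ≃ₐ[K] M, σ z = z := fun σ =>
    (IntermediateField.mem_fixedField_iff _ _).1 hz σ (Subgroup.mem_top σ)
  obtain ⟨t, rfl⟩ := E.fixed (hz' (E.tau.restrictScalars K))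
  have ht : ∀ g : L ≃ₐ[K] L, g t = t := fun g => by
    obtain ⟨r, hr⟩ := hinv g
    have h0 : algebraMap L M μ ≠ 0 := (map_ne_zero _).2 E.a_ne
    obtain ⟨f, hf⟩ := liftAlg E ((IsScalarTower.toAlgHom K L M).comp g.toAlgHom)
      ⟨algebraMap L M r / algebraMap L M μ * E.rt, by
        have h1 := congrArg (algebraMap L M) hr
        rw [map_mul, map_mul] at h1
        have h2 := E.sq
        change algebraMap L M (g μ) = _
        field_simp
        rw [h2]
        linear_combination algebraMap L M μ * h1⟩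
    have h3 := hz' (AlgEquiv.ofBijective f (Algebra.IsAlgebraic.algHom_bijective f))
    exact (algebraMap L M).injective ((hf t).symm.trans h3)
  obtain ⟨u, rfl⟩ := (IsGalois.mem_range_algebraMap_iff_fixed t).2 ht
  exact ⟨u, IsScalarTower.algebraMap_apply K L M u⟩

end Lift

variable {L M : Type*} [Field L] [NumberField L] [Field M] [NumberField M] [Algebra L M] {μ : L}
  (E : Quad L M μ)

include E in
theorem real [IsTotallyReal L] (hr : ∀ ψ : L →+* ℝ, 0 < ψ μ) : IsTotallyReal M := by
  refine ⟨fun w => InfinitePlace.isReal_iff.2 (ComplexEmbedding.isReal_iff.2 ?_)⟩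
  generalize w.embedding = φ
  have h1 := IsTotallyReal.complexEmbedding_isReal (φ.comp (algebraMap L M))
  have h2 : ∀ t, φ (algebraMap L M t) = (h1.embedding t : ℂ) := fun t =>
    (h1.coe_embedding_apply t).symm
  have h3 : φ E.rt ^ 2 = ((√(h1.embedding μ) : ℝ) : ℂ) ^ 2 := by
    rw [← map_pow, E.sq, h2, ← Complex.ofReal_pow, Real.sq_sqrt (hr _).le]
  have h4 : starRingEnd ℂ (φ E.rt) = φ E.rt := by
    rcases sq_eq_sq_iff_eq_or_eq_neg.1 h3 with h | h
    · rw [h, Complex.conj_ofReal]
    · rw [h, map_neg, Complex.conj_ofReal]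
  refine RingHom.ext fun z => ?_
  obtain ⟨g, h, rfl⟩ := E.span z
  rw [ComplexEmbedding.conjugate_coe_eq]
  simp only [map_add, map_mul, h2, h4, Complex.conj_ofReal]

include E in
theorem unram (Q : Pr M) (h2 : og (below L Q) (2 : L) = 0) (he : Even (og (below L Q) μ)) :
    eI L Q = 1 := by
  rcases E.efg Q with h | h | ⟨hQ, h, -⟩
  · exact h.2.1
  · exact h.2.1
  exfalso
  obtain ⟨p, p0, hp⟩ := exists_unif Q
  have p1 : (p : M) ≠ 0 := by simpa using p0
  have hp' : og Q (E.tau p) = 1 := by rw [← E.og_act, hQ, hp]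
  have ha : ∀ t : L, og Q (algebraMap L M t) = 2 * og (below L Q) t := fun t => by
    rw [og_algebraMap, h]
    rfl
  have a1 : (p : M) ∈ pw (Q.valuation M) 1 := mem_pw_iff.2 (Or.inr hp.ge)
  have a2 : E.tau (p : M) ∈ pw (Q.valuation M) 1 := mem_pw_iff.2 (Or.inr hp'.ge)
  obtain ⟨g, k, e⟩ := E.span (p : M)
  have b1 : (p : M) + E.tau p ∈ pw (Q.valuation M) 2 := by
    have c := mem_pw_iff.1 (add_mem a1 a2)
    refine mem_pw_iff.2 (c.imp id fun c => ?_)
    have d := ha (2 * g)
    rw [← E.add_tau_mk, ← e, og] at d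
    omega
  have b2 : (p : M) - E.tau p ∈ pw (Q.valuation M) 2 := by
    have c := mem_pw_iff.1 (sub_mem a1 a2)
    by_cases c0 : (p : M) - E.tau p = 0
    · exact mem_pw_iff.2 (Or.inl c0)
    refine mem_pw_iff.2 (c.imp id fun c => ?_)
    have d : (p : M) - E.tau p = algebraMap L M (2 * k) * E.rt := by
      rw [e, E.tau_mk, map_mul, map_ofNat]
      ring
    rw [d] at c c0 ⊢
    rw [ord_mul (left_ne_zero_of_mul c0) E.rt_ne] at c ⊢
    have d1 := ha (2 * k)
    have d2 := ha μ
    rw [← E.sq, og, ord_pow] at d2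
    rw [og] at d1
    obtain ⟨n, hn⟩ := he
    push_cast at d2
    omega
  have b3 := mem_pw_iff.1 (add_mem b1 b2)
  have d : (p : M) + E.tau p + (p - E.tau p) = algebraMap L M 2 * p := by
    rw [map_ofNat]
    ring
  have t0 : algebraMap L M 2 ≠ 0 := (map_ne_zero _).2 two_ne_zero
  have d1 := ha 2
  rw [d] at b3
  have b4 := b3.resolve_left (mul_ne_zero t0 p1)
  rw [ord_mul t0 p1] at b4
  rw [og] at d1 hp
  omega

end ExtAux

open ExtAux in
theorem ext_step {K L : Type} [Field K] [NumberField K] [Field L] [NumberField L] [Algebra K L]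
    {T : Finset (Pr K)} {j : ℕ} (h : Tow K L T j) (h2 : ∀ q ∉ T, og q (2 : K) = 0) {μ : L}
    (h0 : μ ≠ 0) (hinv : ∀ g : L ≃ₐ[K] L, IsSquare (g μ * μ)) (hns : ¬ IsSquare μ)
    (he : ∀ Q : Pr L, below K Q ∉ T → Even (og Q μ))
    (hT : ∀ q ∈ T, ∃ ι : L →ₐ[K] Kc q, IsSquare (ι μ)) (hr : ∀ ψ : L →+* ℝ, 0 < ψ μ) :
    ∃ (L' : Type) (_ : Field L') (_ : NumberField L') (_ : Algebra K L'), Tow K L' T (j + 1) := by
  have _ := h0
  obtain ⟨M, _, _, _, ⟨E⟩⟩ := exists_quad hns
  let _ : Algebra K M := ((algebraMap L M).comp (algebraMap K L)).toAlgebra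
  have : IsScalarTower K L M := IsScalarTower.of_algebraMap_eq fun _ => rfl
  have := h.gal
  have := h.real
  have hg : IsGalois K M := galois E hinv
  have hs : ∀ q ∈ T, Nonempty (M →ₐ[K] Kc q) := fun q hq => by
    obtain ⟨ι, hι⟩ := hT q hq
    obtain ⟨f, -⟩ := liftAlg E ι hι
    exact ⟨f⟩
  refine ⟨M, inferInstance, inferInstance, inferInstance, hg, ?_, real E hr, fun Q => ?_, hs⟩
  · rw [← Module.finrank_mul_finrank K L M, h.deg, E.finrank_eq, pow_succ]
  · by_cases hq : below K Q ∈ T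
    · obtain ⟨ι⟩ := hs _ hq
      exact eI_split ι rfl
    · obtain ⟨e1, e2⟩ := eI_tower (K := K) (M := L) Q
      rw [e2, h.unr, mul_one]
      refine unram E Q ?_ (he _ (e1 ▸ hq))
      have e3 := og_algebraMap (F := K) (below L Q) 2
      rw [map_ofNat, e1, h2 _ hq, mul_zero] at e3
      exact e3

end Pool.Agent.Lib.MP_df1788_co
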