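import Pool.Agent.Lib.MP_df1788_co.Defs

/-! The size of the obstruction group. -/

namespace Pool.Agent.Lib.MP_df1788_co

open NumberField Pool.Agent.Stark

namespace ObsAux

theorem index_prod {A L : Type*} [AddCommGroup A] [AddCommGroup L] (H : AddSubgroup (A × L)) :
    H.index = (H.comap (AddMonoidHom.inr A L)).index * (H.map (AddMonoidHom.fst A L)).index := by
  have h1 : (AddMonoidHom.inr A L).range = (AddMonoidHom.fst A L).ker := by
    ext ⟨a, l⟩
    simp [eq_comm, AddSubgroup.mem_prod]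
  have h2 : (AddMonoidHom.fst A L).range = ⊤ :=
    AddMonoidHom.range_eq_top.2 fun a => ⟨(a, 0), rfl⟩
  rw [AddSubgroup.index_comap, AddSubgroup.index_map, h1, h2, AddSubgroup.index_top, mul_one,
    ← AddSubgroup.relIndex_sup_left, sup_comm (a := H),
    AddSubgroup.relIndex_mul_index le_sup_right]

variable {K : Type} [Field K] [NumberField K] (T : Finset (Pr K))

/-- The local square classes at the real places and at the primes of `T`. -/
abbrev Lc : Type := ((K →+* ℝ) → ZMod 2) × ∀ q : T, SqCl (Kc q.1)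

/-- The local square classes of an element. -/
noncomputable def loc (x : K) : Lc T :=
  (fun φ => DualAux.sg (φ x), fun q => cl (emb q.1 x))

theorem loc_mul {x y : K} (hx : x ≠ 0) (hy : y ≠ 0) : loc T (x * y) = loc T x + loc T y := by
  refine Prod.ext (funext fun φ => ?_) (funext fun q => ?_)
  · change DualAux.sg (φ (x * y)) = DualAux.sg _ + DualAux.sg _
    rw [map_mul, DualAux.sg_mul ((map_ne_zero _).2 hx) ((map_ne_zero _).2 hy)]
  · change cl (emb q.1 (x * y)) = cl _ + cl _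
    rw [map_mul, cl_mul (DualAux.emb_ne _ hx) (DualAux.emb_ne _ hy)]

theorem add_self (l : Lc T) : l + l = 0 :=
  Prod.ext (funext fun _ => CharTwo.add_self_eq_zero _) (funext fun _ => SqCl.add_self _)

theorem neg_self (l : Lc T) : -l = l := neg_eq_of_add_eq_zero_left (add_self T l)

theorem loc_sq {x t : K} (hx : x ≠ 0) (ht : t ≠ 0) : loc T (x * t ^ 2) = loc T x := by
  rw [loc_mul T hx (pow_ne_zero 2 ht), sq, loc_mul T ht ht, add_self, add_zero]

theorem loc_one : loc T (1 : K) = 0 := by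
  have := loc_mul T (one_ne_zero (α := K)) one_ne_zero
  rwa [mul_one, add_self] at this

/-- The localisation map on square classes. -/
noncomputable def locC : SqCl K →+ Lc T :=
  AddMonoidHom.mk' (fun c => loc T (rep c)) fun c c' => by
    obtain ⟨t, ht, h⟩ := rep_add c c'
    rw [h, loc_sq T (mul_ne_zero (rep_ne _) (rep_ne _)) ht, loc_mul T (rep_ne _) (rep_ne _)]

theorem locC_cl {x : K} (hx : x ≠ 0) : locC T (cl x) = loc T x := by
  obtain ⟨t, ht, h⟩ := rep_cl hx
  change loc T (rep (cl x)) = _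
  rw [h, loc_sq T hx ht]

/-- The pairs coming from global elements. -/
def HH : AddSubgroup (Dv K × Lc T) where
  carrier := {p | ∃ x : K, x ≠ 0 ∧ (∀ q ∉ T, Even (p.1 q + og q x)) ∧ p.2 = loc T x}
  add_mem' := by
    rintro p p' ⟨x, hx, h1, h2⟩ ⟨y, hy, h3, h4⟩
    refine ⟨x * y, mul_ne_zero hx hy, fun q hq => ?_, ?_⟩
    · have := (h1 q hq).add (h3 q hq)
      rw [SUnitAux.og_mul q hx hy, Prod.fst_add, Finsupp.add_apply]
      rwa [add_add_add_comm] at this
    · rw [Prod.snd_add, h2, h4, loc_mul T hx hy]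
  zero_mem' := ⟨1, one_ne_zero, fun q _ => by simp [og], (loc_one T).symm⟩
  neg_mem' := by
    rintro p ⟨x, hx, h1, h2⟩
    refine ⟨x, hx, fun q hq => ?_, ?_⟩
    · obtain ⟨r, hr⟩ := h1 q hq
      rw [Prod.fst_neg, Finsupp.neg_apply]
      exact ⟨r - p.1 q, by omega⟩
    · rw [Prod.snd_neg, neg_self, h2]

theorem index_fst : ((HH T).map (AddMonoidHom.fst _ _)).index = Nat.card (Chr T) := by
  have h : (HH T).map (AddMonoidHom.fst _ _) =
      (nsmulAddMonoidHom 2 : SUnitAux.ClS T →+ SUnitAux.ClS T).range.comap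
        (QuotientAddGroup.mk' (prin K ⊔ SUnitAux.onS T)) := by
    ext D
    constructor
    · rintro ⟨p, ⟨x, hx, h1, -⟩, rfl⟩
      refine ⟨QuotientAddGroup.mk (Finsupp.mapRange (· / 2) (by simp) (p.1 - dv x)), ?_⟩
      change QuotientAddGroup.mk (2 • Finsupp.mapRange (· / 2) (by simp) (p.1 - dv x)) =
        QuotientAddGroup.mk p.1
      refine QuotientAddGroup.eq.2 (SUnitAux.mem_PS.2 ⟨x, hx, fun q hq => ?_⟩)
      obtain ⟨r, hr⟩ := h1 q hq
      simp only [Finsupp.add_apply, Finsupp.neg_apply, Finsupp.smul_apply,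
        Finsupp.mapRange_apply, Finsupp.sub_apply, dv_apply, nsmul_eq_mul, Nat.cast_ofNat]
      omega
    · rintro ⟨c, hc⟩
      obtain ⟨E, rfl⟩ := QuotientAddGroup.mk_surjective c
      change QuotientAddGroup.mk (2 • E) = QuotientAddGroup.mk D at hc
      obtain ⟨x, hx, h⟩ := SUnitAux.mem_PS.1 (QuotientAddGroup.eq.1 hc)
      refine ⟨(D, loc T x), ⟨x, hx, fun q hq => ⟨D q - E q, ?_⟩, rfl⟩, rfl⟩
      have := h q hq
      simp only [Finsupp.add_apply, Finsupp.neg_apply, Finsupp.smul_apply, nsmul_eq_mul,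
        Nat.cast_ofNat] at this
      change D q + og q x = _
      omega
  rw [h, AddSubgroup.index_comap_of_surjective _ (QuotientAddGroup.mk'_surjective _),
    AddSubgroup.index_range, SUnitAux.card_Chr]

/-- The localisation map on the Selmer group. -/
noncomputable def locS : Sel T →+ Lc T := (locC T).comp (Sel T).toAddSubgroup.subtype

theorem comap_inr : (HH T).comap (AddMonoidHom.inr _ _) = (locS T).range := by
  ext l
  constructor
  · rintro ⟨x, hx, h1, h2⟩
    refine ⟨⟨cl x, x, ⟨hx, fun q hq => by simpa using h1 q hq⟩, rfl⟩, ?_⟩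
    exact (locC_cl T hx).trans h2.symm
  · rintro ⟨⟨_, x, hx, rfl⟩, rfl⟩
    exact ⟨x, hx.1, fun q hq => by simpa using hx.2 q hq, locC_cl T hx.1⟩

theorem card_ker : Nat.card (locS T).ker = Nat.card (Vs T) := by
  refine Nat.card_congr (Equiv.ofBijective (fun c => ⟨c.1.1, ?_⟩) ⟨fun c c' e => ?_, ?_⟩)
  · obtain ⟨⟨_, x, hx, rfl⟩, h⟩ := c
    have h' : loc T x = 0 := (locC_cl T hx.1).symm.trans h
    exact ⟨x, ⟨hx.1, hx.2, fun q hq => (cl_eq_zero (DualAux.emb_ne q hx.1)).1
      (congrFun (congrArg Prod.snd h') ⟨q, hq⟩), fun φ => DualAux.pos_of_sg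
      ((map_ne_zero _).2 hx.1) (congrFun (congrArg Prod.fst h') φ)⟩, rfl⟩
  · exact Subtype.ext (Subtype.ext (congrArg (Subtype.val : Vs T → SqCl K) e))
  · rintro ⟨_, x, ⟨h0, h1, h2, h3⟩, rfl⟩
    refine ⟨⟨⟨cl x, x, ⟨h0, h1⟩, rfl⟩, (locC_cl T h0).trans ?_⟩, rfl⟩
    refine Prod.ext (funext fun φ => ?_) (funext fun q => ?_)
    · exact if_neg (h3 φ).not_gt
    · exact (cl_eq_zero (DualAux.emb_ne q.1 h0)).2 (h2 q.1 q.2)

theorem index_HH (h2 : ∀ q ∉ T, og q (2 : K) = 0) : Nat.card (Vs T) ≠ 0 ∧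
    (HH T).index = Nat.card (Vs T) * 2 ^ (Fintype.card (InfinitePlace K) + T.card) := by
  have a1 := (locS T).range.index_mul_card
  rw [DualAux.card_loc T h2] at a1
  have a2 := (locS T).ker.index_mul_card
  rw [AddSubgroup.index_ker, card_ker, SUnitAux.card_Sel] at a2
  have a3 := SUnitAux.card_Chr_ne T
  rw [index_prod, index_fst, comap_inr]
  generalize 2 ^ (Fintype.card (InfinitePlace K) + T.card) = t at *
  have t0 : t ≠ 0 := by
    rintro rfl
    have : Nat.card (Sel T) = 0 := by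
      rw [← (locS T).ker.index_mul_card, AddSubgroup.index_ker, card_ker, a2, zero_mul]
    rw [SUnitAux.card_Sel] at this
    exact mul_ne_zero (pow_ne_zero _ two_ne_zero) a3 this
  refine ⟨fun h => mul_ne_zero t0 a3 (by rw [← a2, h, mul_zero]), mul_left_cancel₀ t0 ?_⟩
  calc t * ((locS T).range.index * Nat.card (Chr T))
      = (locS T).range.index * (t * Nat.card (Chr T)) := by ring
    _ = (locS T).range.index * Nat.card (locS T).range * Nat.card (Vs T) := by
      rw [← a2, mul_assoc]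
    _ = _ := by rw [a1]; ring

end ObsAux

open ObsAux in
theorem obs {K : Type} [Field K] [NumberField K] (T : Finset (Pr K))
    (h2 : ∀ q ∉ T, og q (2 : K) = 0) :
    Finite (Vs T) ∧ ∃ (X : Type) (_ : Finite X)
      (κ : Dv K → ((K →+* ℝ) → ZMod 2) → (∀ q : T, SqCl (Kc q.1)) → X),
      Nat.card X ≤ Nat.card (Vs T) * 2 ^ (Fintype.card (InfinitePlace K) + T.card) ∧
      ∀ D D' s s' l l', κ D s l = κ D' s' l' → ∃ x : K, x ≠ 0 ∧
        (∀ q ∉ T, Even (D q + D' q + og q x)) ∧ (∀ φ, s φ + s' φ = DualAux.sg (φ x)) ∧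
        ∀ q : T, l q + l' q = cl (emb q.1 x) := by
  obtain ⟨h0, h1⟩ := index_HH T h2
  refine ⟨Nat.finite_of_card_ne_zero h0, (Dv K × Lc T) ⧸ HH T,
    Nat.finite_of_card_ne_zero (h1.trans_ne (mul_ne_zero h0 (pow_ne_zero _ two_ne_zero))),
    fun D s l => QuotientAddGroup.mk (D, (s, l)), h1.le, fun D D' s s' l l' h => ?_⟩
  obtain ⟨x, hx, h3, h4⟩ := QuotientAddGroup.eq.1 h
  rw [Prod.snd_add, Prod.snd_neg, neg_self] at h4
  refine ⟨x, hx, fun q hq => ?_, fun φ => congrFun (congrArg Prod.fst h4) φ,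
    fun q => congrFun (congrArg Prod.snd h4) q⟩
  obtain ⟨r, hr⟩ := h3 q hq
  simp only [Prod.fst_add, Prod.fst_neg, Finsupp.add_apply, Finsupp.neg_apply] at hr
  exact ⟨r + D q, by omega⟩

end Pool.Agent.Lib.MP_df1788_co
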