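import Pool.Agent.Lib.MP_df1788_co.Coc
import Pool.Agent.Lib.MP_df1788_co.Obs
import Pool.Agent.Lib.MP_df1788_co.Ext
import Pool.Agent.Lib.MP_df1788_co.Disc
import Pool.Agent.Lib.MP_df1788_co.Base

/-! The infinite tower. -/

set_option linter.unusedSectionVars false

namespace Pool.Agent.Lib.MP_df1788_co

open NumberField IsDedekindDomain Pool.Agent.Stark

variable {K L : Type} [Field K] [NumberField K] [Field L] [NumberField L] [Algebra K L]
  {T : Finset (Pr K)}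

theorem card_Vs_le [IsGalois K L] (h : ∀ x, Tst T x → IsSquare (algebraMap K L x)) :
    Nat.card (Vs T) ≤ Nat.card ((L ≃ₐ[K] L) →* Multiplicative (ZMod 2)) := by
  choose x hx hc using fun c : Vs T => c.2
  have : Finite ((L ≃ₐ[K] L) →* Multiplicative (ZMod 2)) :=
    Finite.of_injective _ DFunLike.coe_injective
  refine Nat.card_le_card_of_injective (fun c => MonoidHom.mk'
    (fun σ => Multiplicative.ofAdd (xs σ (x c))) fun σ τ => congrArg Multiplicative.ofAdd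
      (xs_comp σ τ (hx c).1 (h _ (hx c)))) fun c c' e => Subtype.ext ?_
  have h0 := mul_ne_zero (hx c).1 (hx c').1
  obtain ⟨r, -, hr⟩ := exists_rt (Ω := L) h0 (by rw [map_mul]; exact (h _ (hx c)).mul (h _ (hx c')))
  obtain ⟨t, rfl⟩ := (IsGalois.mem_range_algebraMap_iff_fixed (F := K) r).2 fun σ => by
    have e1 : xs σ (x c) = xs σ (x c') := DFunLike.congr_fun e σ
    rw [xs_spec σ hr, xs_mul σ (hx c).1 (hx c').1 (h _ (hx c)) (h _ (hx c')), e1,
      CharTwo.add_self_eq_zero, Gam.sg_zero, one_mul]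
  rw [← hc c, ← hc c', cl_eq_cl (hx c).1 (hx c').1]
  exact ⟨t, (algebraMap K L).injective (by rw [← hr, map_mul, sq])⟩

theorem exists_dv [IsGalois K L] {μ : L} (h0 : μ ≠ 0) {β : (L ≃ₐ[K] L) → L}
    (h : ∀ g, β g ^ 2 * g μ = μ) : ∃ D : Dv K, ∀ Q : Pr L, Even (og Q μ + D (below K Q)) := by
  choose P hP using below_surj (F := K) (K := L)
  refine ⟨Finsupp.ofSupportFinite (fun q => og (P q) μ) ((og_finite μ).preimage (f := P)
    (Function.LeftInverse.injective hP).injOn), fun Q => ?_⟩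
  obtain ⟨σ, hσ⟩ := exists_act (hP (below K Q))
  change Even (og Q μ + og (P (below K Q)) μ)
  have h1 := congrArg (og Q) (h σ)
  have h2 := mul_ne_zero_iff.1 ((h σ).trans_ne h0)
  rw [DualAux.og_mul Q h2.1 h2.2, SUnitAux.og_sq] at h1
  have h3 : og (P (below K Q)) μ = og Q (σ μ) := by rw [hσ]; exact og_act _ _ _
  exact ⟨og Q (β σ) + og Q (σ μ), by omega⟩

theorem exists_gal [IsGalois K L] (ψ ψ' : L →+* ℝ)
    (h : ∀ x, ψ (algebraMap K L x) = ψ' (algebraMap K L x)) :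
    ∃ g : L ≃ₐ[K] L, ∀ z, ψ' z = ψ (g z) := by
  obtain ⟨σ, hσ⟩ := ComplexEmbedding.exists_comp_symm_eq_of_comp_eq (k := K)
    (Complex.ofRealHom.comp ψ) (Complex.ofRealHom.comp ψ')
    (RingHom.ext fun x => congrArg Complex.ofReal (h x))
  exact ⟨σ.symm, fun z => Complex.ofReal_injective (RingHom.congr_fun hσ z).symm⟩

theorem cobdry {ε : (L ≃ₐ[K] L) → (L ≃ₐ[K] L) → ZMod 2} {B : (L ≃ₐ[K] L) → L}
    (hB : ∀ g h, B g * g (B h) = sg L (ε g h) * B (g * h)) {c : L} (h0 : c ≠ 0)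
    (hc : ∀ g, B g ^ 2 * g (c * c) = c * c) :
    ∃ η : (L ≃ₐ[K] L) → ZMod 2, ∀ g h, ε g h = η g + η h + η (g * h) := by
  have h1 : ∀ g : L ≃ₐ[K] L, ∃ e, B g * g c = sg L e * c := fun g => by
    rcases sq_eq_sq_iff_eq_or_eq_neg.1 (show (B g * g c) ^ 2 = c ^ 2 by
      have := hc g
      rw [map_mul] at this
      linear_combination this) with h | h
    · exact ⟨0, by rw [h, Gam.sg_zero, one_mul]⟩
    · exact ⟨1, by rw [h, sg, if_neg one_ne_zero, neg_one_mul]⟩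
  choose η hη using h1
  refine ⟨η, fun g h => sg_inj (R := L) (mul_right_cancel₀ h0 ?_)⟩
  have e1 := congrArg g (hη h)
  rw [map_mul, map_mul, map_sg] at e1
  have e2 := hη (g * h)
  rw [AlgEquiv.mul_apply] at e2
  rw [sg_add, sg_add]
  linear_combination sg L (η (g * h)) * (sg L (η h) * hη g + B g * e1 - g (h c) * hB g h -
    sg L (ε g h) * e2) - sg L (ε g h) * c * sg_mul_self (R := L) (η (g * h))

theorem step {j : ℕ} (h : Tow K L T j) (h2 : ∀ q ∉ T, og q (2 : K) = 0) {d : ℕ} (hd : 2 ≤ d)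
    (hV : 2 ^ d ≤ Nat.card (Vs T))
    (ht : 4 * (d + (Fintype.card (InfinitePlace K) + T.card)) ≤ d ^ 2) :
    ∃ (L' : Type) (_ : Field L') (_ : NumberField L') (_ : Algebra K L'), Tow K L' T (j + 1) := by
  by_contra hne
  have := h.gal
  have := h.real
  have hog : ∀ (Q : Pr L) (x : K), og Q (algebraMap K L x) = og (below K Q) x := fun Q x => by
    rw [og_algebraMap, h.unr, Nat.cast_one, one_mul]
  have ι : ∀ q : T, L →ₐ[K] Kc q.1 := fun q => (h.spl q.1 q.2).some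
  have h1 := card_Vs_le (L := L) (T := T) fun x hx => by
    by_contra hns
    refine hne (ext_step h h2 ((map_ne_zero _).2 hx.1) (fun g => ⟨_, by rw [g.commutes]⟩) hns
      (fun Q hQ => by rw [hog]; exact hx.2.1 _ hQ) (fun q hq => ⟨ι ⟨q, hq⟩, ?_⟩)
      fun ψ => hx.2.2.2 (ψ.comp (algebraMap K L)))
    rw [AlgHom.commutes]
    exact hx.2.2.1 q hq
  obtain ⟨-, X, _, κ, hX, hκ⟩ := obs T h2
  choose ψ hψ using exists_real_ext (K := K) (L := L)
  have key : ∀ ε : (L ≃ₐ[K] L) → (L ≃ₐ[K] L) → ZMod 2, ∃ (μ : L) (β : (L ≃ₐ[K] L) → L)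
      (D : Dv K), IsCoc ε → μ ≠ 0 ∧ (∀ g h, β g * g (β h) = sg L (ε g h) * β (g * h)) ∧
        (∀ g, β g ^ 2 * g μ = μ) ∧ ∀ Q : Pr L, Even (og Q μ + D (below K Q)) := by
    intro ε
    by_cases hε : IsCoc ε
    swap
    · exact ⟨0, 0, 0, fun h => absurd h hε⟩
    obtain ⟨β, b0, hβ⟩ := coc h.deg h.unr (fun Q hQ σ hσ => by
      rw [← map_ofNat (algebraMap K L), hog] at hQ
      exact stab_split (ι ⟨_, by_contra fun h => hQ (h2 _ h)⟩) rfl σ hσ) hε
    obtain ⟨μ, m0, hμ⟩ := h90 ⊤ (fun g => β g ^ 2) (pow_ne_zero 2 (b0 1)) fun g _ h _ => by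
      rw [map_pow, ← mul_pow, hβ]
      linear_combination -β (g * h) ^ 2 * sg_mul_self (R := L) (ε g h)
    obtain ⟨D, hD⟩ := exists_dv m0 fun g => hμ g trivial
    exact ⟨μ, β, D, fun _ => ⟨m0, hβ, fun g => hμ g trivial, hD⟩⟩
  choose μ β D key using key
  refine gs (IsPGroup.of_card ((IsGalois.card_aut_eq_finrank K L).trans h.deg))
    (fun ε => κ (D ε) (fun φ => DualAux.sg (ψ φ (μ ε))) fun q => cl (ι q (μ ε)))
    (fun ε ε' hε hε' e => ?_) hd (hV.trans h1) (hX.trans (Nat.mul_le_mul_right _ h1)) ht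
  obtain ⟨x, x0, e1, e2, e3⟩ := hκ _ _ _ _ _ _ e
  obtain ⟨m0, b1, b2, b3⟩ := key ε hε
  obtain ⟨m0', b1', b2', b3'⟩ := key ε' hε'
  have x1 : algebraMap K L x ≠ 0 := (map_ne_zero _).2 x0
  obtain ⟨ν, hν⟩ : ∃ ν, ν = μ ε * μ ε' * algebraMap K L x := ⟨_, rfl⟩
  have n0 : ν ≠ 0 := hν ▸ mul_ne_zero (mul_ne_zero m0 m0') x1
  have n1 : ∀ g : L ≃ₐ[K] L, (β ε g * β ε' g) ^ 2 * g ν = ν := fun g => by
    rw [hν, map_mul, map_mul, g.commutes]
    linear_combination algebraMap K L x * (β ε' g ^ 2 * g (μ ε') * b2 g + μ ε * b2' g)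
  obtain ⟨c, hc⟩ : IsSquare ν := by
    by_contra hns
    refine hne (ext_step h h2 n0 (fun g => ⟨β ε g * β ε' g * g ν, ?_⟩) hns (fun Q hQ => ?_)
      (fun q hq => ⟨ι ⟨q, hq⟩, ?_⟩) fun χ => ?_)
    · linear_combination -g ν * n1 g
    · rw [hν, DualAux.og_mul Q (mul_ne_zero m0 m0') x1, DualAux.og_mul Q m0 m0', hog]
      obtain ⟨a, ha⟩ := e1 _ hQ
      obtain ⟨b, hb⟩ := b3 Q
      obtain ⟨b', hb'⟩ := b3' Q
      exact ⟨a + b + b' - D ε (below K Q) - D ε' (below K Q), by omega⟩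
    · rw [← cl_eq_zero (emb_ne _ n0), hν, map_mul, map_mul,
        cl_mul (mul_ne_zero (emb_ne _ m0) (emb_ne _ m0')) (emb_ne _ x1),
        cl_mul (emb_ne _ m0) (emb_ne _ m0'), AlgHom.commutes]
      exact (congrArg (· + _) (e3 ⟨q, hq⟩)).trans (SqCl.add_self _)
    · obtain ⟨g, hg⟩ := exists_gal (ψ (χ.comp (algebraMap K L))) χ (hψ _)
      have e4 := e2 (χ.comp (algebraMap K L))
      rw [← hψ] at e4
      generalize ψ (χ.comp (algebraMap K L)) = ω at hg e4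
      have e5 : 0 < ω ν := DualAux.pos_of_sg ((map_ne_zero ω).2 n0) (by
        rw [hν, map_mul, map_mul, DualAux.sg_mul (mul_ne_zero ((map_ne_zero ω).2 m0)
          ((map_ne_zero ω).2 m0')) ((map_ne_zero ω).2 x1),
          DualAux.sg_mul ((map_ne_zero ω).2 m0) ((map_ne_zero ω).2 m0'), e4,
          CharTwo.add_self_eq_zero])
      rw [← n1 g, map_mul, map_pow, ← hg] at e5
      exact lt_of_not_ge fun h => (mul_nonpos_of_nonneg_of_nonpos (sq_nonneg _) h).not_gt e5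
  refine cobdry (ε := fun g h => ε g h + ε' g h) (B := fun g => β ε g * β ε' g)
    (fun g h => ?_) (c := c) (fun h => n0 (by rw [hc, h, mul_zero])) fun g => hc ▸ n1 g
  rw [map_mul, sg_add]
  linear_combination β ε' g * g (β ε' h) * b1 g h + sg L (ε g h) * β ε (g * h) * b1' g h

theorem le_card_Vs [Finite (Vs T)] {d : ℕ} (x : Fin d → K) (hx : ∀ i, Tst T (x i))
    (hli : LinearIndependent (ZMod 2) fun i => cl (x i)) : 2 ^ d ≤ Nat.card (Vs T) := by
  have h0 : (0 : SqCl K) ∈ Vs T := ⟨1, ⟨one_ne_zero, fun q _ => by simp [og],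
    fun q _ => ⟨1, by simp⟩, fun φ => by simp⟩, cl_one⟩
  have h1 : ∀ a : Fin d → ZMod 2, ∑ i, a i • cl (x i) ∈ Vs T := fun a => by
    refine Finset.sum_induction _ (· ∈ Vs T) ?_ h0 fun i _ => ?_
    · rintro _ _ ⟨y, hy, rfl⟩ ⟨z, hz, rfl⟩
      refine ⟨y * z, ⟨mul_ne_zero hy.1 hz.1, fun q hq => ?_, fun q hq => ?_, fun φ => ?_⟩,
        cl_mul hy.1 hz.1⟩
      · rw [DualAux.og_mul q hy.1 hz.1]
        exact (hy.2.1 q hq).add (hz.2.1 q hq)
      · rw [LSq, map_mul]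
        exact (hy.2.2.1 q hq).mul (hz.2.2.1 q hq)
      · rw [map_mul]
        exact mul_pos (hy.2.2.2 φ) (hz.2.2.2 φ)
    · rcases zmod2_cases (a i) with h | h <;> rw [h]
      · rwa [zero_smul]
      · exact ⟨x i, hx i, (one_smul _ _).symm⟩
  have h2 := Nat.card_le_card_of_injective (fun a => (⟨_, h1 a⟩ : Vs T)) fun a b e =>
    funext (Fintype.linearIndependent_iffₛ.1 hli a b (congrArg Subtype.val e))
  simpa using h2

theorem tower (j : ℕ) : ∃ (L : Type) (_ : Field L) (_ : NumberField L) (_ : IsTotallyReal L),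
    Module.finrank ℚ L = 2 ^ (j + 1) ∧ (discr L).natAbs ≤ 2 ^ (740 * 2 ^ j) ∧
    ∀ l ∈ pl, ∃ S : Finset (Ideal (𝓞 L)), S.card = 2 ^ j ∧
      ∀ Q ∈ S, Q.IsMaximal ∧ (l : 𝓞 L) ∈ Q := by
  obtain ⟨K, _, _, hK, T, x, h1, h2, h3, h4, h5, h6, h7, h8, h9, h10⟩ := base
  have := (obs T h4).1
  have hV := le_card_Vs x (fun i => ⟨h5 i, fun q _ => h6 i q, h8 i, h7 i⟩) h9
  have ht : Fintype.card (InfinitePlace K) ≤ 2 := by
    have := InfinitePlace.card_add_two_mul_card_eq_rank K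
    rw [InfinitePlace.card_eq_nrRealPlaces_add_nrComplexPlaces]
    omega
  obtain ⟨L, _, _, _, h⟩ : ∃ (L : Type) (_ : Field L) (_ : NumberField L) (_ : Algebra K L),
      Tow K L T j := by
    induction j with
    | zero =>
      exact ⟨K, _, _, _, inferInstance, Module.finrank_self K, hK,
        fun Q => eI_split (Algebra.ofId K _) rfl, fun q _ => ⟨Algebra.ofId K _⟩⟩
    | succ j ih =>
      obtain ⟨L, _, _, _, h⟩ := ih
      exact step h h4 (by norm_num) hV (by omega)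
  have := h.gal
  refine ⟨L, inferInstance, inferInstance, h.real, ?_, ?_, fun l hl => ?_⟩
  · rw [← Module.finrank_mul_finrank ℚ K L, h1, h.deg, pow_succ']
  · rw [discr_unr h.unr, h.deg, pow_mul]
    exact Nat.pow_le_pow_left h2 _
  · obtain ⟨q, hq, hl'⟩ := h10 l hl
    obtain ⟨S, hS, hS'⟩ := exists_primes (h.spl q hq).some
    refine ⟨S.map ⟨_, fun _ _ => HeightOneSpectrum.ext⟩, by rw [Finset.card_map, hS, h.deg],
      fun Q hQ => ?_⟩
    obtain ⟨P, hP, rfl⟩ := Finset.mem_map.1 hQ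
    refine ⟨P.isMaximal, ?_⟩
    rw [← hS' P hP] at hl'
    simpa using (show algebraMap (𝓞 K) (𝓞 L) l ∈ P.asIdeal from hl')

end Pool.Agent.Lib.MP_df1788_co
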