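import Mathlib

/-! The Golod-Shafarevich inequality for finite 2-groups, in cocycle form. -/

namespace Pool.Agent.Lib.MP_df1788_co

/-- Normalised 2-cocycles with values in the field with two elements. -/
def IsCoc {G : Type*} [Group G] (ε : G → G → ZMod 2) : Prop :=
  (∀ g, ε 1 g = 0) ∧ (∀ g, ε g 1 = 0) ∧
    ∀ g h k, ε g h + ε (g * h) k = ε h k + ε g (h * k)

namespace GSAux

open Module

abbrev F : Type := ZMod 2

variable {G : Type} [Group G]

section general

variable {V W : Type} [AddCommGroup V] [Module F V] [AddCommGroup W] [Module F W]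

/-- the product of the augmentation ideal with a subspace -/
def J (ρ : Representation F G V) (M : Submodule F V) : Submodule F V :=
  Submodule.span F {x | ∃ g, ∃ m ∈ M, x = ρ g m - m}

lemma mem_J (ρ : Representation F G V) {M : Submodule F V} (g : G) {m : V} (hm : m ∈ M) :
    ρ g m - m ∈ J ρ M := Submodule.subset_span ⟨g, m, hm, rfl⟩

lemma J_mono (ρ : Representation F G V) {M N : Submodule F V} (h : M ≤ N) : J ρ M ≤ J ρ N :=
  Submodule.span_mono fun _ ⟨g, m, hm, e⟩ => ⟨g, m, h hm, e⟩

lemma Jn_mono (ρ : Representation F G V) (n : ℕ) {M N : Submodule F V} (h : M ≤ N) :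
    (J ρ)^[n] M ≤ (J ρ)^[n] N := by
  induction n with
  | zero => exact h
  | succ n ih =>
    rw [Function.iterate_succ_apply', Function.iterate_succ_apply']
    exact J_mono ρ ih

lemma map_J {ρ : Representation F G V} {σ : Representation F G W} {θ : V →ₗ[F] W}
    (h : ∀ g v, θ (ρ g v) = σ g (θ v)) (M : Submodule F V) :
    (J ρ M).map θ = J σ (M.map θ) := by
  unfold J
  rw [Submodule.map_span]
  congr 1
  ext y
  constructor
  · rintro ⟨_, ⟨g, m, hm, rfl⟩, rfl⟩
    exact ⟨g, θ m, ⟨m, hm, rfl⟩, by rw [map_sub, h]⟩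
  · rintro ⟨g, _, ⟨m, hm, rfl⟩, rfl⟩
    exact ⟨_, ⟨g, m, hm, rfl⟩, by rw [map_sub, h]⟩

lemma map_Jn {ρ : Representation F G V} {σ : Representation F G W} {θ : V →ₗ[F] W}
    (h : ∀ g v, θ (ρ g v) = σ g (θ v)) (n : ℕ) (M : Submodule F V) :
    ((J ρ)^[n] M).map θ = (J σ)^[n] (M.map θ) := by
  induction n with
  | zero => rfl
  | succ n ih => rw [Function.iterate_succ_apply', Function.iterate_succ_apply', map_J h, ih]

lemma mem_ann (ρ : Representation F G V) (f : Dual F V) :
    f ∈ (J ρ ⊤).dualAnnihilator ↔ ∀ g v, f (ρ g v) = f v := by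
  rw [Submodule.mem_dualAnnihilator]
  constructor
  · intro h g v
    have := h _ (mem_J ρ g (Submodule.mem_top (x := v)))
    rwa [map_sub, sub_eq_zero] at this
  · intro h w hw
    have : J ρ ⊤ ≤ LinearMap.ker f := by
      refine Submodule.span_le.mpr ?_
      rintro _ ⟨g, m, -, rfl⟩
      simp [h]
    exact this hw

lemma card_ann [Finite V] (N : Submodule F V) :
    Nat.card N.dualAnnihilator = 2 ^ finrank F (V ⧸ N) := by
  have : Finite (V ⧸ N) := Finite.of_surjective _ N.mkQ_surjective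
  rw [← Nat.card_congr (Submodule.dualQuotEquivDualAnnihilator N).toEquiv,
    Module.natCard_eq_pow_finrank (K := F), Subspace.dual_finrank_eq, Nat.card_zmod]

/-- Nakayama's lemma -/
lemma nakayama [Finite V] (hG : IsPGroup 2 G) (ρ : Representation F G V) {N : Submodule F V}
    (hN : ∀ g, ∀ v ∈ N, ρ g v ∈ N) (hne : N ≠ ⊤) :
    ∃ f : Dual F V, f ≠ 0 ∧ (∀ v ∈ N, f v = 0) ∧ ∀ g v, f (ρ g v) = f v := by
  let act : MulAction G N.dualAnnihilator :=
    { smul := fun g f => ⟨f.1 ∘ₗ ρ g⁻¹, by
        rw [Submodule.mem_dualAnnihilator]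
        intro w hw
        exact (Submodule.mem_dualAnnihilator _).mp f.2 _ (hN _ _ hw)⟩
      one_smul := fun f => by
        apply Subtype.ext
        change f.1 ∘ₗ ρ 1⁻¹ = f.1
        ext v
        simp
      mul_smul := fun g h f => by
        apply Subtype.ext
        change f.1 ∘ₗ ρ (g * h)⁻¹ = (f.1 ∘ₗ ρ h⁻¹) ∘ₗ ρ g⁻¹
        ext v
        simp }
  have hsm : ∀ (g : G) (f : N.dualAnnihilator), (g • f).1 = f.1 ∘ₗ ρ g⁻¹ := fun _ _ => rfl
  have hfin : Finite (V ⧸ N) := Finite.of_surjective _ N.mkQ_surjective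
  have hpos : 0 < finrank F (V ⧸ N) := by
    have : Nontrivial (V ⧸ N) := Submodule.Quotient.nontrivial_iff.mpr hne
    exact finrank_pos
  have hdvd : 2 ∣ Nat.card N.dualAnnihilator := by
    rw [card_ann]
    exact dvd_pow_self 2 hpos.ne'
  have h0 : (0 : N.dualAnnihilator) ∈ MulAction.fixedPoints G N.dualAnnihilator := by
    intro g
    apply Subtype.ext
    rw [hsm]
    simp
  have : Finite N.dualAnnihilator := Nat.finite_of_card_ne_zero (by rw [card_ann]; positivity)
  obtain ⟨b, hb, hb0⟩ := hG.exists_fixed_point_of_prime_dvd_card_of_fixed_point _ hdvd h0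
  refine ⟨b.1, fun h => hb0 (Subtype.ext h.symm), (Submodule.mem_dualAnnihilator _).mp b.2,
    fun g v => ?_⟩
  have := congrArg Subtype.val (hb g⁻¹)
  rw [hsm, inv_inv] at this
  exact LinearMap.congr_fun this v

end general

/-- the regular representation -/
def rg (G : Type) [Group G] : Representation F G (G → F) where
  toFun g := LinearMap.funLeft F F fun x => g⁻¹ * x
  map_one' := by
    ext a x
    simp [LinearMap.funLeft_apply]
  map_mul' g h := by
    ext a x
    simp [LinearMap.funLeft_apply, mul_assoc]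

lemma rg_apply (g : G) (a : G → F) (x : G) : rg G g a x = a (g⁻¹ * x) := rfl

/-- free representations -/
def fr (G : Type) [Group G] (k : ℕ) : Representation F G (Fin k → G → F) where
  toFun g := (rg G g).compLeft (Fin k)
  map_one' := by
    apply LinearMap.ext
    intro a
    funext i x
    simp
  map_mul' g h := by
    apply LinearMap.ext
    intro a
    funext i x
    simp [rg_apply]

lemma fr_apply (k : ℕ) (g : G) (a : Fin k → G → F) (i : Fin k) : fr G k g a i = rg G g (a i) := rfl

lemma Jn_fr (k n : ℕ) :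
    (J (fr G k))^[n] ⊤ = Submodule.pi Set.univ fun _ : Fin k => (J (rg G))^[n] ⊤ := by
  apply le_antisymm
  · intro a ha i _
    have h1 := map_Jn (ρ := fr G k) (σ := rg G) (θ := LinearMap.proj i) (fun g v => rfl) n ⊤
    have h2 : a i ∈ ((J (fr G k))^[n] ⊤).map (LinearMap.proj i) := ⟨a, ha, rfl⟩
    rw [h1] at h2
    exact Jn_mono _ n le_top h2
  · intro a ha
    rw [← Finset.univ_sum_single a]
    refine Submodule.sum_mem _ fun i _ => ?_
    have h1 := map_Jn (ρ := rg G) (σ := fr G k)
      (θ := LinearMap.single F (fun _ : Fin k => G → F) i) (fun g v => by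
        funext j
        by_cases hj : j = i
        · subst hj
          simp [fr_apply]
        · simp [fr_apply, Pi.single_eq_of_ne hj]) n ⊤
    have h2 : Pi.single i (a i) ∈ ((J (rg G))^[n] ⊤).map
      (LinearMap.single F (fun _ : Fin k => G → F) i) := ⟨a i, ha i trivial, rfl⟩
    rw [h1] at h2
    exact Jn_mono _ n le_top h2

lemma finrank_pi' {V : Type} [AddCommGroup V] [Module F V] [Finite V] (k : ℕ)
    (M : Submodule F V) :
    finrank F (Submodule.pi Set.univ fun _ : Fin k => M) = k * finrank F M := by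
  let e : (Submodule.pi Set.univ fun _ : Fin k => M) ≃ₗ[F] (Fin k → M) :=
    { toFun := fun a i => ⟨a.1 i, a.2 i trivial⟩
      invFun := fun b => ⟨fun i => (b i).1, fun i _ => (b i).2⟩
      map_add' := fun _ _ => rfl
      map_smul' := fun _ _ => rfl
      left_inv := fun _ => rfl
      right_inv := fun _ => rfl }
  rw [e.finrank_eq, Module.finrank_pi_fintype]
  simp

variable [Fintype G] [DecidableEq G]

/-- the augmentation -/
def aug (G : Type) [Fintype G] : (G → F) →ₗ[F] F := Fintype.linearCombination F fun _ => 1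

omit [Group G] [DecidableEq G] in
lemma aug_apply (a : G → F) : aug G a = ∑ x, a x := by
  simp [aug, Fintype.linearCombination_apply]

omit [Fintype G] in
lemma rg_single (g h : G) : rg G g (Pi.single h 1) = Pi.single (g * h) 1 := by
  funext x
  rw [rg_apply]
  by_cases hx : x = g * h
  · subst hx
    simp
  · rw [Pi.single_eq_of_ne hx, Pi.single_eq_of_ne]
    intro h2
    exact hx (by rw [← h2]; simp)

omit [DecidableEq G] in
lemma sum_rg {V : Type} [AddCommGroup V] [Module F V] (g : G) (a : G → F) (v : G → V) :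
    ∑ x, rg G g a x • v x = ∑ x, a x • v (g * x) := by
  rw [← Equiv.sum_comp (Equiv.mulLeft g)]
  simp [rg_apply]

lemma J_rg : J (rg G) ⊤ = LinearMap.ker (aug G) := by
  apply le_antisymm
  · refine Submodule.span_le.mpr ?_
    rintro _ ⟨g, m, -, rfl⟩
    have := sum_rg g m fun _ => (1 : F)
    simp only [smul_eq_mul, mul_one] at this
    simp [aug_apply, this]
  · intro a ha
    have h1 : a = ∑ x, a x • (rg G x (Pi.single 1 1) - Pi.single 1 1) := by
      simp only [rg_single, mul_one, smul_sub, Finset.sum_sub_distrib, ← Finset.sum_smul]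
      rw [← aug_apply, LinearMap.mem_ker.mp ha, zero_smul, sub_zero]
      exact pi_eq_sum_univ' a
    rw [h1]
    exact Submodule.sum_mem _ fun x _ => Submodule.smul_mem _ _ (mem_J _ _ trivial)

/-- minimal free covers -/
lemma gen {W : Type} [AddCommGroup W] [Module F W] [Finite W] (hG : IsPGroup 2 G)
    (ρ : Representation F G W) : ∃ (k : ℕ) (θ : (Fin k → G → F) →ₗ[F] W),
    Nat.card (J ρ ⊤).dualAnnihilator = 2 ^ k ∧ (∀ g a, θ (fr G k g a) = ρ g (θ a)) ∧
      Function.Surjective θ ∧ LinearMap.ker θ ≤ J (fr G k) ⊤ := by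
  have hfin : Finite (W ⧸ J ρ ⊤) := Finite.of_surjective _ (J ρ ⊤).mkQ_surjective
  let b := Module.finBasis F (W ⧸ J ρ ⊤)
  choose u hu using fun j => (J ρ ⊤).mkQ_surjective (b j)
  let θ : (Fin (finrank F (W ⧸ J ρ ⊤)) → G → F) →ₗ[F] W :=
    ∑ j, Fintype.linearCombination F (fun x => ρ x (u j)) ∘ₗ LinearMap.proj j
  have hθ : ∀ a, θ a = ∑ j, ∑ x, a j x • ρ x (u j) := by
    intro a
    simp [θ, Fintype.linearCombination_apply]
  have heq : ∀ g a, θ (fr G _ g a) = ρ g (θ a) := by
    intro g a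
    simp only [hθ, fr_apply, sum_rg, map_sum, map_smul, map_mul, Module.End.mul_apply]
  have hq : ∀ g w, (J ρ ⊤).mkQ (ρ g w) = (J ρ ⊤).mkQ w := fun g w =>
    (Submodule.Quotient.eq _).mpr (mem_J ρ g trivial)
  refine ⟨_, θ, card_ann _, heq, ?_, ?_⟩
  · rw [← LinearMap.range_eq_top]
    by_contra hne
    obtain ⟨f, hf0, hf1, hf2⟩ := nakayama hG ρ (N := LinearMap.range θ) (by
      rintro g _ ⟨a, rfl⟩
      exact ⟨_, heq g a⟩) hne
    have hfu : ∀ j, f (u j) = 0 := by
      intro j
      apply hf1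
      refine ⟨Pi.single j (Pi.single 1 1), ?_⟩
      rw [hθ, Finset.sum_eq_single j, Finset.sum_eq_single 1] <;> simp +contextual [Pi.single_apply]
    apply hf0
    ext w
    have h1 : w - ∑ j, b.repr ((J ρ ⊤).mkQ w) j • u j ∈ J ρ ⊤ := by
      rw [← Submodule.Quotient.eq]
      change (J ρ ⊤).mkQ w = (J ρ ⊤).mkQ _
      simp only [map_sum, map_smul, hu]
      exact (b.sum_repr _).symm
    have h2 := (Submodule.mem_dualAnnihilator _).mp ((mem_ann ρ f).mpr hf2) _ h1
    simpa [hfu] using h2
  · intro a ha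
    have h1 : ∑ j, aug G (a j) • b j = 0 := by
      have := congrArg (J ρ ⊤).mkQ (LinearMap.mem_ker.mp ha)
      simp only [hθ, map_sum, map_smul, hq, hu, map_zero, ← Finset.sum_smul] at this
      simpa only [aug_apply] using this
    have h2 := Fintype.linearIndependent_iff.mp b.linearIndependent _ h1
    have h3 := Jn_fr (G := G) (finrank F (W ⧸ J ρ ⊤)) 1
    simp only [Function.iterate_one] at h3
    rw [h3, J_rg]
    exact fun i _ => h2 i

/-- homomorphisms give invariant functionals on the augmentation ideal -/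
lemma card_hom (hI : ∀ g, LinearMap.ker (aug G) ≤ (LinearMap.ker (aug G)).comap (rg G g)) :
    Nat.card (G →* Multiplicative F) ≤
      Nat.card (J ((rg G).subrepresentation _ hI) ⊤).dualAnnihilator := by
  have : Finite (J ((rg G).subrepresentation _ hI) ⊤).dualAnnihilator :=
    Nat.finite_of_card_ne_zero (by rw [card_ann]; positivity)
  let Ψ : (G →* Multiplicative F) → (J ((rg G).subrepresentation _ hI) ⊤).dualAnnihilator :=
    fun χ => ⟨Fintype.linearCombination F (fun x => (χ x).toAdd) ∘ₗ Submodule.subtype _, by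
      rw [mem_ann]
      intro g v
      change Fintype.linearCombination F (fun x => (χ x).toAdd) (rg G g v.1) =
        Fintype.linearCombination F (fun x => (χ x).toAdd) v.1
      have h0 : ∑ x, v.1 x = 0 := by
        rw [← aug_apply]
        exact v.2
      simp only [Fintype.linearCombination_apply, sum_rg, map_mul, toAdd_mul, smul_add,
        Finset.sum_add_distrib, ← Finset.sum_smul, h0, zero_smul, zero_add]⟩
  refine Nat.card_le_card_of_injective Ψ fun χ χ' h => ?_
  ext g
  have hm : (Pi.single g 1 - Pi.single 1 1 : G → F) ∈ LinearMap.ker (aug G) := by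
    simp [aug]
  have h1 := LinearMap.congr_fun (congrArg Subtype.val h) ⟨_, hm⟩
  simpa [Ψ] using h1

/-- invariant functionals on the relation module give cohomology classes -/
lemma card_rel {V : Type} [AddCommGroup V] [Module F V] (ρ : Representation F G V)
    (φ : V →ₗ[F] G → F) (hφ : ∀ g v, φ (ρ g v) = rg G g (φ v))
    (hr : LinearMap.range φ = LinearMap.ker (aug G)) (hk : LinearMap.ker φ ≤ J ρ ⊤)
    (hR : ∀ g, LinearMap.ker φ ≤ (LinearMap.ker φ).comap (ρ g))
    {X : Type} [Finite X] (κ : (G → G → ZMod 2) → X)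
    (hκ : ∀ ε ε', IsCoc ε → IsCoc ε' → κ ε = κ ε' →
      ∃ η : G → ZMod 2, ∀ g h, ε g h + ε' g h = η g + η h + η (g * h)) :
    Nat.card (J (ρ.subrepresentation _ hR) ⊤).dualAnnihilator ≤ Nat.card X := by
  have hex : ∀ g : G, ∃ v, φ v = Pi.single g 1 - Pi.single 1 1 := by
    intro g
    have : (Pi.single g 1 - Pi.single 1 1 : G → F) ∈ LinearMap.range φ := by
      rw [hr]
      simp [aug]
    exact this
  choose a0 ha0 using hex
  obtain ⟨a, ha, ha1⟩ : ∃ a : G → V, (∀ g, φ (a g) = Pi.single g 1 - Pi.single 1 1) ∧ a 1 = 0 :=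
    ⟨fun g => a0 g - a0 1, fun g => by simp [ha0], sub_self _⟩
  let s : (G → F) →ₗ[F] V := Fintype.linearCombination F a
  have hs : ∀ g, s (Pi.single g 1) = a g := fun g => by simp [s]
  have hφs : ∀ v, φ (s (φ v)) = φ v := by
    intro v
    have h0 : ∑ x, φ v x = 0 := by
      rw [← aug_apply]
      have : φ v ∈ LinearMap.ker (aug G) := hr ▸ LinearMap.mem_range_self φ v
      exact this
    simp only [s, Fintype.linearCombination_apply, map_sum, map_smul, ha, smul_sub,
      Finset.sum_sub_distrib, ← Finset.sum_smul, h0, zero_smul, sub_zero]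
    exact (pi_eq_sum_univ' _).symm
  let π : V →ₗ[F] LinearMap.ker φ :=
    (LinearMap.id - s ∘ₗ φ).codRestrict _ fun v => by simp [hφs]
  have hπ : ∀ v, (π v).1 = v - s (φ v) := fun _ => rfl
  have hπR : ∀ v : LinearMap.ker φ, π v.1 = v := by
    intro v
    apply Subtype.ext
    rw [hπ, LinearMap.mem_ker.mp v.2, map_zero, sub_zero]
  have hπa : ∀ g h, (π (ρ g (a h))).1 = ρ g (a h) - a (g * h) + a g := by
    intro g h
    rw [hπ, hφ, ha, map_sub, rg_single, rg_single, map_sub, hs, hs, mul_one]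
    abel
  have hπ0 : ∀ h, π (a h) = 0 := by
    intro h
    apply Subtype.ext
    have := hπa 1 h
    simpa [ha1] using this
  let ε : Dual F (LinearMap.ker φ) → G → G → F := fun f g h => f (π (ρ g (a h)))
  have hinv : ∀ f ∈ (J (ρ.subrepresentation _ hR) ⊤).dualAnnihilator, ∀ (g : G)
      (v : LinearMap.ker φ), f (π (ρ g v.1)) = f v := by
    intro f hf g v
    rw [← (mem_ann _ f).mp hf g v, ← hπR (ρ.subrepresentation _ hR g v)]
    rfl
  have hcoc : ∀ f ∈ (J (ρ.subrepresentation _ hR) ⊤).dualAnnihilator, IsCoc (ε f) := by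
    intro f hf
    refine ⟨fun g => by simp [ε, hπ0], fun g => by simp [ε, ha1], fun g h k => ?_⟩
    have h1 := hinv f hf g (π (ρ h (a k)))
    rw [hπa] at h1
    simp only [map_add, map_sub] at h1
    simp only [ε, map_mul, Module.End.mul_apply]
    linear_combination h1
  refine Nat.card_le_card_of_injective (fun f => κ (ε f.1)) fun f f' h => ?_
  obtain ⟨η, hη⟩ := hκ _ _ (hcoc _ f.2) (hcoc _ f'.2) h
  have h2 : ∀ x : F, x + x = 0 := by decide
  have hη1 : η 1 = 0 := by
    have := hη 1 1
    rw [(hcoc _ f.2).1, (hcoc _ f'.2).1, mul_one, h2, h2, zero_add] at this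
    exact this.symm
  have hf2 := Submodule.add_mem _ f.2 f'.2
  let Φ : Dual F V := (f.1 + f'.1) ∘ₗ π + Fintype.linearCombination F η ∘ₗ φ
  have hΦ : ∀ v, Φ v = (f.1 + f'.1) (π v) + Fintype.linearCombination F η (φ v) := fun _ => rfl
  have hΦa : ∀ g h, Φ (ρ g (a h)) = η h := by
    intro g h
    rw [hΦ, hφ, ha, map_sub, rg_single, rg_single, map_sub, mul_one]
    simp only [Fintype.linearCombination_apply_single, one_smul, LinearMap.add_apply]
    have := hη g h
    simp only [ε] at this
    rw [this]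
    linear_combination h2 (η (g * h))
  have hΦinv : ∀ g v, Φ (ρ g v) = Φ v := by
    intro g v
    have e : v = (π v).1 + ∑ x, φ v x • a x := by
      rw [hπ, ← Fintype.linearCombination_apply]
      simp [s]
    have h1 : ∀ w : LinearMap.ker φ, Φ (ρ g w.1) = Φ w.1 := by
      intro w
      rw [hΦ, hΦ, hinv _ hf2, hπR, hφ, LinearMap.mem_ker.mp w.2, map_zero]
    have h3 : ∀ x, Φ (a x) = η x := fun x => by simpa using hΦa 1 x
    rw [e]
    simp only [map_add, map_sum, map_smul, h1, hΦa, h3]
  apply Subtype.ext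
  ext v
  have h1 := (Submodule.mem_dualAnnihilator _).mp ((mem_ann ρ Φ).mpr hΦinv) _ (hk v.2)
  rw [hΦ, hπR, LinearMap.mem_ker.mp v.2, map_zero, add_zero, LinearMap.add_apply] at h1
  linear_combination h1 - h2 (f'.1 v)

lemma rank_map {V W : Type} [AddCommGroup V] [Module F V] [Finite V] [AddCommGroup W] [Module F W]
    (θ : V →ₗ[F] W) (M : Submodule F V) :
    finrank F (M.map θ) + finrank F (M ⊓ LinearMap.ker θ : Submodule F V) = finrank F M := by
  have h := LinearMap.finrank_range_add_finrank_ker (θ.domRestrict M)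
  rw [LinearMap.range_domRestrict, LinearMap.ker_domRestrict] at h
  rw [← h, ← Submodule.finrank_map_subtype_eq M, Submodule.map_comap_subtype]

lemma numeric {c : ℕ → ℝ} {N : ℕ} {l : ℝ} (hl : 1 ≤ l) (h0 : c 0 = 0) (h1 : c 1 = 1)
    (hc : ∀ n, 0 ≤ c n ∧ c n ≤ N)
    (h : ∀ n, 2 * l * c (n + 1) ≤ c (n + 2) - 1 + l ^ 2 * c n) : False := by
  have key : ∀ n : ℕ, (n : ℝ) + 1 ≤ c (n + 1) - l * c n := by
    intro n
    induction n with
    | zero => simp [h0, h1]
    | succ n ih =>
      have h2 := h n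
      have h3 : (0 : ℝ) ≤ n := Nat.cast_nonneg n
      have h4 : 0 ≤ (l - 1) * (c (n + 1) - l * c n) := mul_nonneg (by linarith) (by linarith)
      push_cast
      nlinarith
  have h2 := key N
  have h3 := mul_nonneg (by linarith : 0 ≤ l) (hc N).1
  linarith [(hc (N + 1)).2]

end GSAux

open GSAux Module in
theorem gs {G : Type} [Group G] [Finite G] (hG : IsPGroup 2 G) {X : Type} [Finite X]
    (κ : (G → G → ZMod 2) → X)
    (hκ : ∀ ε ε', IsCoc ε → IsCoc ε' → κ ε = κ ε' →
      ∃ η : G → ZMod 2, ∀ g h, ε g h + ε' g h = η g + η h + η (g * h))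
    {d t : ℕ} (hd : 2 ≤ d) (h1 : 2 ^ d ≤ Nat.card (G →* Multiplicative (ZMod 2)))
    (hX : Nat.card X ≤ Nat.card (G →* Multiplicative (ZMod 2)) * 2 ^ t)
    (ht : 4 * (d + t) ≤ d ^ 2) : False := by
  classical
  have := Fintype.ofFinite G
  have hI : ∀ g, LinearMap.ker (aug G) ≤ (LinearMap.ker (aug G)).comap (rg G g) := by
    intro g a ha
    have h2 : rg G g a - a ∈ LinearMap.ker (aug G) := J_rg (G := G) ▸ mem_J _ g trivial
    simpa using Submodule.add_mem _ h2 ha
  obtain ⟨d', θ, c1, e1, s1, k1⟩ := gen hG ((rg G).subrepresentation _ hI)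
  let φ : (Fin d' → G → F) →ₗ[F] G → F := (LinearMap.ker (aug G)).subtype ∘ₗ θ
  have hφ : ∀ g v, φ (fr G d' g v) = rg G g (φ v) := fun g v => congrArg Subtype.val (e1 g v)
  have hr : LinearMap.range φ = LinearMap.ker (aug G) := by
    rw [LinearMap.range_comp, LinearMap.range_eq_top.mpr s1, Submodule.map_top,
      Submodule.range_subtype]
  have hk : LinearMap.ker φ ≤ J (fr G d') ⊤ := fun v hv =>
    k1 (Subtype.ext (LinearMap.mem_ker.mp hv))
  have hR : ∀ g, LinearMap.ker φ ≤ (LinearMap.ker φ).comap (fr G d' g) := by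
    intro g v hv
    rw [Submodule.mem_comap, LinearMap.mem_ker, hφ, LinearMap.mem_ker.mp hv, map_zero]
  obtain ⟨r, θ', c2, e2, s2, -⟩ := gen hG ((fr G d').subrepresentation _ hR)
  let ψ : (Fin r → G → F) →ₗ[F] Fin d' → G → F := (LinearMap.ker φ).subtype ∘ₗ θ'
  have hψ : ∀ g v, ψ (fr G r g v) = fr G d' g (ψ v) := fun g v => congrArg Subtype.val (e2 g v)
  have hr2 : LinearMap.range ψ = LinearMap.ker φ := by
    rw [LinearMap.range_comp, LinearMap.range_eq_top.mpr s2, Submodule.map_top,
      Submodule.range_subtype]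
  have n1 := card_hom hI
  have n2 := card_rel (fr G d') φ hφ hr hk hR κ hκ
  rw [c1] at n1
  rw [c2] at n2
  have hdd : d ≤ d' := (Nat.pow_le_pow_iff_right (by norm_num)).mp (h1.trans n1)
  have hrd : r ≤ d' + t := by
    refine (Nat.pow_le_pow_iff_right (a := 2) (by norm_num)).mp (n2.trans (hX.trans ?_))
    rw [pow_add]
    exact Nat.mul_le_mul_right _ n1
  let j : ℕ → ℕ := fun n => finrank F ((J (rg G))^[n] ⊤ : Submodule F (G → F))
  have hA : finrank F (G → F) = Fintype.card G := Module.finrank_fintype_fun_eq_card F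
  have j0 : j 0 = Fintype.card G := (finrank_top F (G → F)).trans hA
  have j1 : j 1 + 1 = Fintype.card G := by
    have h2 := LinearMap.finrank_range_add_finrank_ker (aug G)
    have h3 : LinearMap.range (aug G) = ⊤ := by
      rw [eq_top_iff]
      intro x _
      exact ⟨Pi.single 1 x, by simp [aug]⟩
    rw [h3, finrank_top, finrank_self, hA, ← J_rg] at h2
    change finrank F (J (rg G) ⊤) + 1 = _
    omega
  have jle : ∀ n, j n ≤ Fintype.card G := fun n => hA ▸ Submodule.finrank_le _
  have hfr : ∀ k n, finrank F ((J (fr G k))^[n] ⊤ : Submodule F (Fin k → G → F)) = k * j n :=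
    fun k n => by rw [Jn_fr, finrank_pi']
  have step : ∀ n, j (n + 2) + r * j n + d' * j 0 ≤ d' * j (n + 1) + r * j 0 + j 1 := by
    intro n
    have a1 := rank_map φ ((J (fr G d'))^[n + 1] ⊤)
    have a2 := rank_map ψ ((J (fr G r))^[n] ⊤)
    have a3 := LinearMap.finrank_range_add_finrank_ker φ
    have a4 := LinearMap.finrank_range_add_finrank_ker ψ
    have b1 : ((J (fr G d'))^[n + 1] ⊤).map φ = (J (rg G))^[n + 2] ⊤ := by
      rw [map_Jn hφ, Submodule.map_top, hr, ← J_rg]
      rfl
    have b2 : ((J (fr G r))^[n] ⊤).map ψ ≤ (J (fr G d'))^[n + 1] ⊤ ⊓ LinearMap.ker φ := by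
      refine le_inf ?_ (hr2 ▸ LinearMap.map_le_range)
      rw [map_Jn hψ, Submodule.map_top, hr2]
      exact Jn_mono _ n hk
    have b3 := Submodule.finrank_mono b2
    have b4 := Submodule.finrank_mono
      (inf_le_right : (J (fr G r))^[n] ⊤ ⊓ LinearMap.ker ψ ≤ LinearMap.ker ψ)
    have b5 : finrank F (Fin d' → G → F) = d' * j 0 := (finrank_top F _).symm.trans (hfr d' 0)
    have b6 : finrank F (Fin r → G → F) = r * j 0 := (finrank_top F _).symm.trans (hfr r 0)
    rw [b1, hfr] at a1
    rw [hfr] at a2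
    rw [hr, ← J_rg, b5] at a3
    rw [hr2, b6] at a4
    change j (n + 2) + _ = _ at a1
    change j 1 + _ = _ at a3
    omega
  have hd2 : (2 : ℝ) ≤ d := by exact_mod_cast hd
  have hdd' : (d : ℝ) ≤ d' := by exact_mod_cast hdd
  have hrd' : (r : ℝ) ≤ d' + t := by exact_mod_cast hrd
  have ht' : 4 * ((d : ℝ) + t) ≤ d ^ 2 := by exact_mod_cast ht
  have hrl : (r : ℝ) ≤ (d' / 2) ^ 2 := by
    have : 0 ≤ ((d' : ℝ) - d) * (d' + d - 4) := mul_nonneg (by linarith) (by linarith)
    nlinarith
  have hc : ∀ n, (0 : ℝ) ≤ Fintype.card G - j n ∧ (Fintype.card G : ℝ) - j n ≤ Fintype.card G := by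
    intro n
    have h2 : (j n : ℝ) ≤ Fintype.card G := by exact_mod_cast jle n
    have h3 : (0 : ℝ) ≤ j n := Nat.cast_nonneg _
    constructor <;> linarith
  have j1' : (j 1 : ℝ) + 1 = Fintype.card G := by exact_mod_cast j1
  refine numeric (c := fun n => (Fintype.card G : ℝ) - j n) (N := Fintype.card G)
    (l := (d' : ℝ) / 2) (by linarith) (by simp [j0]) (by linarith) hc fun n => ?_
  have h2 : (j (n + 2) : ℝ) + r * j n + d' * j 0 ≤ d' * j (n + 1) + r * j 0 + j 1 := by
    exact_mod_cast step n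
  rw [j0] at h2
  have h3 := mul_le_mul_of_nonneg_right hrl (hc n).1
  nlinarith

end Pool.Agent.Lib.MP_df1788_co
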