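import Pool.Agent.Lib.MP_df1788_co.Coc1
import Pool.Agent.Lib.MP_df1788_co.GS

/-! Sign valued cocycles split in the multiplicative group of an unramified 2-extension. -/

set_option linter.unusedSectionVars false

namespace Pool.Agent.Lib.MP_df1788_co

open NumberField IsDedekindDomain Pool.Agent.Stark

variable {K L : Type} [Field K] [NumberField K] [Field L] [NumberField L] [Algebra K L]
  {ε : (L ≃ₐ[K] L) → (L ≃ₐ[K] L) → ZMod 2}

/-- The extension of the Galois group by the multiplicative group attached to a cocycle. -/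
structure Gam (hε : IsCoc ε) where
  /-- the coefficient -/
  x : L
  /-- the automorphism -/
  g : L ≃ₐ[K] L
  ne : x ≠ 0

namespace Gam

variable {hε : IsCoc ε}

theorem ext' {a b : Gam hε} (h1 : a.x = b.x) (h2 : a.g = b.g) : a = b := by
  cases a; cases b; cases h1; cases h2; rfl

instance : Mul (Gam hε) := ⟨fun a b => ⟨a.x * a.g b.x * sg L (ε a.g b.g), a.g * b.g,
  mul_ne_zero (mul_ne_zero a.ne ((map_ne_zero a.g).2 b.ne)) (sg_ne_zero _)⟩⟩

instance : One (Gam hε) := ⟨⟨1, 1, one_ne_zero⟩⟩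

instance : Inv (Gam hε) := ⟨fun a => ⟨a.g⁻¹ a.x⁻¹ * sg L (ε a.g⁻¹ a.g), a.g⁻¹,
  mul_ne_zero ((map_ne_zero _).2 (inv_ne_zero a.ne)) (sg_ne_zero _)⟩⟩

theorem mul_x (a b : Gam hε) : (a * b).x = a.x * a.g b.x * sg L (ε a.g b.g) := rfl

theorem mul_g (a b : Gam hε) : (a * b).g = a.g * b.g := rfl

theorem inv_g (a : Gam hε) : a⁻¹.g = a.g⁻¹ := rfl

theorem sg_zero : sg L 0 = 1 := if_pos rfl

instance : Group (Gam hε) := Group.ofLeftAxioms
  (fun a b c => ext' (by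
    have h := congrArg (sg L) (hε.2.2 a.g b.g c.g)
    rw [sg_add, sg_add] at h
    simp only [mul_x, mul_g, map_mul, map_sg, AlgEquiv.mul_apply]
    linear_combination a.x * a.g b.x * a.g (b.g c.x) * h) (mul_assoc _ _ _))
  (fun a => ext' (by
    change 1 * a.x * sg L (ε 1 a.g) = a.x
    rw [hε.1, sg_zero, one_mul, mul_one]) (one_mul _))
  (fun a => ext' (by
    change a.g⁻¹ a.x⁻¹ * sg L (ε a.g⁻¹ a.g) * a.g⁻¹ a.x * sg L (ε a.g⁻¹ a.g) = 1
    have h : a.g⁻¹ a.x⁻¹ * a.g⁻¹ a.x = 1 := by rw [← map_mul, inv_mul_cancel₀ a.ne, map_one]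
    linear_combination h + a.g⁻¹ a.x⁻¹ * a.g⁻¹ a.x * sg_mul_self (R := L) (ε a.g⁻¹ a.g))
    (inv_mul_cancel _))

theorem mul_x_left {a : Gam hε} (h : a.g = 1) (b : Gam hε) : (a * b).x = a.x * b.x := by
  rw [mul_x, h, hε.1, sg_zero, mul_one, AlgEquiv.one_apply]

theorem mul_x_right (a : Gam hε) {b : Gam hε} (h : b.g = 1) : (a * b).x = a.x * a.g b.x := by
  rw [mul_x, h, hε.2.1, sg_zero, mul_one]

theorem comm_iff (a : Gam hε) {b : Gam hε} (h : b.g = 1) : a * b = b * a ↔ a.g b.x = b.x := by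
  refine ⟨fun e => ?_, fun e => ext' ?_ (by rw [mul_g, mul_g, h, mul_one, one_mul])⟩
  · have h1 := congrArg x e
    rw [mul_x_right a h, mul_x_left h, mul_comm] at h1
    exact mul_right_cancel₀ a.ne h1
  · rw [mul_x_right a h, mul_x_left h, e, mul_comm]

theorem og_mul {Q : Pr L} {a : Gam hε} (h : ∀ z, og Q (a.g z) = og Q z) (b : Gam hε) :
    og Q (a * b).x = og Q a.x + og Q b.x := by
  have h1 : a.x * a.g b.x ≠ 0 := mul_ne_zero a.ne ((map_ne_zero a.g).2 b.ne)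
  rw [← h b.x, ← DualAux.og_mul Q a.ne ((map_ne_zero a.g).2 b.ne), mul_x, sg]
  split_ifs <;> simp [og]

/-- `v` is a splitting over the subgroup `N`. -/
def Spl (N : Subgroup (L ≃ₐ[K] L)) (v : (L ≃ₐ[K] L) → Gam hε) : Prop :=
  (∀ g ∈ N, (v g).g = g) ∧ ∀ g ∈ N, ∀ h ∈ N, v (g * h) = v g * v h

variable {N H : Subgroup (L ≃ₐ[K] L)} {v : (L ≃ₐ[K] L) → Gam hε}

theorem Spl.og_eq (hv : Spl N v) {Q : Pr L} {τ : L ≃ₐ[K] L} (hτ : τ ∈ N)
    (h : ∀ z, og Q (τ z) = og Q z) : og Q (v τ).x = 0 := by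
  have h1 : v 1 = 1 := by simpa using hv.2 1 N.one_mem 1 N.one_mem
  have key : ∀ n : ℕ, og Q (v (τ ^ n)).x = n * og Q (v τ).x := by
    intro n
    induction n with
    | zero =>
      rw [pow_zero, h1]
      change og Q 1 = _
      simp [og]
    | succ n ih =>
      rw [pow_succ', hv.2 _ hτ _ (N.pow_mem hτ n), og_mul (by rw [hv.1 _ hτ]; exact h), ih]
      push_cast
      ring
  have h2 := key (orderOf τ)
  rw [pow_orderOf_eq_one, ← pow_zero τ, key, Nat.cast_zero, zero_mul] at h2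
  exact (mul_eq_zero.1 h2.symm).resolve_left (by exact_mod_cast (orderOf_pos τ).ne')

theorem Spl.exists_norm (hv : Spl N v) {σ : L ≃ₐ[K] L} (hσ : ∀ n ∈ N, σ⁻¹ * n * σ ∈ N) :
    ∃ w : Gam hε, w.g = σ ∧ ∀ n ∈ N, w * v (σ⁻¹ * n * σ) = v n * w := by
  let u : Gam hε := ⟨1, σ, one_ne_zero⟩
  let d : (L ≃ₐ[K] L) → Gam hε := fun n => u * v (σ⁻¹ * n * σ) * u⁻¹ * (v n)⁻¹
  have hd : ∀ n ∈ N, (d n).g = 1 := fun n hn => by
    simp only [d, mul_g, inv_g, hv.1 _ hn, hv.1 _ (hσ n hn), u]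
    group
  obtain ⟨c, c0, hc⟩ := h90 N (fun n => (d n).x) (d 1).ne fun n hn m hm => by
    have h1 : d (n * m) * v n = d n * (v n * d m) := by
      simp only [d]
      rw [show σ⁻¹ * (n * m) * σ = (σ⁻¹ * n * σ) * (σ⁻¹ * m * σ) by group,
        hv.2 _ (hσ n hn) _ (hσ m hm), hv.2 _ hn _ hm]
      group
    have h2 := congrArg x h1
    rw [mul_x_left (hd _ (N.mul_mem hn hm)), mul_x_left (hd n hn), mul_x_right _ (hd m hm),
      hv.1 n hn] at h2
    exact mul_right_cancel₀ (v n).ne (by rw [h2]; ring)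
  let e : Gam hε := ⟨c, 1, c0⟩
  refine ⟨e⁻¹ * u, by simp [mul_g, inv_g, e, u], fun n hn => ?_⟩
  have h1 : d n * (v n * e) = e * v n := ext' (by
    rw [mul_x_left (hd n hn), mul_x_right (b := e) _ rfl, mul_x_left (a := e) rfl, hv.1 n hn]
    linear_combination (v n).x * hc n hn) (by simp [mul_g, hd n hn, e])
  calc e⁻¹ * u * v (σ⁻¹ * n * σ) = e⁻¹ * (d n * (v n * e)) * (e⁻¹ * u) := by simp only [d]; group
    _ = v n * (e⁻¹ * u) := by rw [h1]; group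

theorem Spl.extend (hv : Spl N v) (hH : ∀ a ∈ H, ∀ b ∈ H, (a * b ∈ N ↔ (a ∈ N ↔ b ∈ N)))
    (hle : N ≤ H) {σ : L ≃ₐ[K] L} (h1 : σ ∈ H) (h2 : σ ∉ N) {w : Gam hε} (hw : w.g = σ)
    (hc : ∀ n ∈ N, w * v (σ⁻¹ * n * σ) = v n * w) (hs : w * w = v (σ * σ)) :
    ∃ v' : (L ≃ₐ[K] L) → Gam hε, Spl H v' := by
  classical
  have h3 : σ⁻¹ ∉ N := fun h => h2 (N.inv_mem_iff.1 h)
  have h4 : ∀ g ∈ H, g ∉ N → g * σ⁻¹ ∈ N := fun g hg hn =>
    (hH _ hg _ (H.inv_mem h1)).2 (iff_of_false hn h3)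
  have h5 : ∀ n ∈ N, σ * n * σ⁻¹ ∈ N := fun n hn =>
    h4 _ (H.mul_mem h1 (hle hn)) fun h => h2 (((hH _ h1 _ (hle hn)).1 h).2 hn)
  have h6 : ∀ n ∈ N, w * v n = v (σ * n * σ⁻¹) * w := fun n hn => by
    rw [← hc _ (h5 n hn)]
    congr 2
    group
  have h7 : σ * σ ∈ N := (hH _ h1 _ h1).2 Iff.rfl
  refine ⟨fun g => if g ∈ N then v g else v (g * σ⁻¹) * w, fun g hg => ?_, fun g hg h hh => ?_⟩
  · by_cases hn : g ∈ N
    · simp only [if_pos hn, hv.1 g hn]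
    · simp only [if_neg hn, mul_g, hw, hv.1 _ (h4 g hg hn), inv_mul_cancel_right]
  have h8 := hH g hg h hh
  by_cases a : g ∈ N <;> by_cases b : h ∈ N
  · simp only [if_pos a, if_pos b, if_pos (N.mul_mem a b), hv.2 g a h b]
  · simp only [if_pos a, if_neg b, if_neg (show g * h ∉ N by tauto)]
    rw [mul_assoc, hv.2 g a _ (h4 h hh b), mul_assoc]
  · simp only [if_neg a, if_pos b, if_neg (show g * h ∉ N by tauto)]
    rw [mul_assoc (v _), h6 h b, ← mul_assoc, ← hv.2 _ (h4 g hg a) _ (h5 h b)]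
    congr 2
    group
  · simp only [if_neg a, if_neg b, if_pos (show g * h ∈ N by tauto)]
    have h9 := h4 h hh b
    rw [mul_assoc (v _), ← mul_assoc w, h6 _ h9, mul_assoc _ w, hs, ← hv.2 _ (h5 _ h9) _ h7,
      ← hv.2 _ (h4 g hg a) _ (N.mul_mem (h5 _ h9) h7)]
    congr 1
    group

variable [IsGalois K L] [IsTotallyReal L] (hu : ∀ Q : Pr L, eI K Q = 1)
  (h2 : ∀ Q : Pr L, og Q (2 : L) ≠ 0 → ∀ σ : L ≃ₐ[K] L, (∀ z, og Q (σ z) = og Q z) → σ = 1)

include hu h2 in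
theorem Spl.step (hv : Spl N v) (hH : ∀ a ∈ H, ∀ b ∈ H, (a * b ∈ N ↔ (a ∈ N ↔ b ∈ N)))
    (hle : N ≤ H) {σ : L ≃ₐ[K] L} (h1 : σ ∈ H) (h3 : σ ∉ N) :
    ∃ v' : (L ≃ₐ[K] L) → Gam hε, Spl H v' := by
  classical
  have h4 : σ⁻¹ ∉ N := fun h => h3 (N.inv_mem_iff.1 h)
  have h5 : ∀ n ∈ N, σ⁻¹ * n * σ ∈ N := fun n hn =>
    (hH _ (H.mul_mem (H.inv_mem h1) (hle hn)) _ h1).2
      (iff_of_false (fun h => h4 (((hH _ (H.inv_mem h1) _ (hle hn)).1 h).2 hn)) h3)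
  have h7 : σ * σ ∈ N := (hH _ h1 _ h1).2 Iff.rfl
  obtain ⟨w, hw, hc⟩ := hv.exists_norm h5
  obtain ⟨A, hA⟩ : ∃ A, w * w = A * v (σ * σ) := ⟨w * w * (v (σ * σ))⁻¹, by group⟩
  have hA1 : A.g = 1 := by
    have := congrArg g hA
    rw [mul_g, mul_g, hw, hv.1 _ h7] at this
    exact right_eq_mul.1 this
  have hA2 : ∀ n ∈ N, n A.x = A.x := fun n hn => by
    have e1 : v n * v (σ * σ) = v (σ * σ) * v (σ⁻¹ * (σ⁻¹ * n * σ) * σ) := by
      rw [← hv.2 _ hn _ h7, ← hv.2 _ h7 _ (h5 _ (h5 n hn))]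
      congr 1
      group
    have e2 : v n * A * v (σ * σ) = A * v n * v (σ * σ) := by
      rw [mul_assoc, ← hA, mul_assoc A, e1, ← mul_assoc A, ← hA, mul_assoc w, hc _ (h5 n hn),
        ← mul_assoc w, hc n hn, mul_assoc]
    have := (comm_iff _ hA1).1 (mul_right_cancel e2)
    rwa [hv.1 n hn] at this
  have hA3 : σ A.x = A.x := by
    have e1 := hc _ h7
    rw [show σ⁻¹ * (σ * σ) * σ = σ * σ by group] at e1
    have e2 : w * A * v (σ * σ) = A * w * v (σ * σ) := by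
      rw [mul_assoc, ← hA, mul_assoc A, e1, ← mul_assoc A, ← hA, mul_assoc]
    have := (comm_iff _ hA1).1 (mul_right_cancel e2)
    rwa [hw] at this
  have h8 : ∀ g ∈ H, g ∉ N → σ⁻¹ * g ∈ N := fun g hg hn =>
    (hH _ (H.inv_mem h1) _ hg).2 (iff_of_false h4 hn)
  obtain ⟨r, r0, hr⟩ := h90 H (fun g => if g ∈ N then 1 else -1) (by simp) fun g hg h hh => by
    have := hH g hg h hh
    by_cases a : g ∈ N <;> by_cases b : h ∈ N <;> simp [this, a, b]
  have hr1 : ∀ n ∈ N, n r = r := fun n hn => by simpa [hn] using hr n (hle hn)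
  have hr2 : ∀ g ∈ H, g ∉ N → g r = -r := fun g hg hn => by
    have := hr g hg
    rw [if_neg hn] at this
    linear_combination -this
  obtain ⟨x, z, hxz, hxa⟩ := norm_of hu h2 H r0
    (fun g hg => (em (g ∈ N)).imp (hr1 g) (hr2 g hg)) A.ne (fun g hg => by
      by_cases a : g ∈ N
      · exact hA2 g a
      · rw [← mul_inv_cancel_left σ g, AlgEquiv.mul_apply, hA2 _ (h8 g hg a), hA3])
    fun Q ρ hρ h9 h10 => by
      have a := h8 ρ hρ fun h => h9 (hr1 ρ h)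
      have b : ρ * ρ ∈ N := (hH _ hρ _ hρ).2 Iff.rfl
      have e1 : w * v (σ⁻¹ * ρ) * (w * v (σ⁻¹ * ρ)) = A * v (ρ * ρ) := by
        rw [mul_assoc, ← mul_assoc (v _), ← hc _ a, ← mul_assoc, ← mul_assoc, hA, mul_assoc,
          mul_assoc, ← hv.2 _ (h5 _ a) _ a, ← hv.2 _ h7 _ (N.mul_mem (h5 _ a) a)]
        congr 2
        group
      have e2 := congrArg (fun γ : Gam hε => og Q γ.x) e1
      rw [og_mul (by rw [mul_g, hw, hv.1 _ a, mul_inv_cancel_left]; exact h10),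
        og_mul (a := A) (by rw [hA1]; exact fun _ => rfl),
        hv.og_eq b fun z => by rw [AlgEquiv.mul_apply, h10, h10], add_zero] at e2
      exact ⟨_, e2.symm⟩
  have b0 : x + z * r ≠ 0 := fun h => A.ne (by rw [hxa, h, zero_mul])
  let e : Gam hε := ⟨x + z * r, 1, b0⟩
  have e1 : ∀ n ∈ N, v n * e = e * v n := fun n hn => (comm_iff _ rfl).2 (by
    rw [hv.1 n hn, map_add, map_mul, (hxz n (hle hn)).1, (hxz n (hle hn)).2, hr1 n hn])
  have e2 : A * w = e * (w * e) := ext' (by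
    rw [mul_x_left hA1, mul_x_left (a := e) rfl, mul_x_right (b := e) _ rfl, hw, map_add, map_mul, (hxz σ h1).1,
      (hxz σ h1).2, hr2 σ h1 h3, hxa]
    ring) (by simp [mul_g, hA1, e])
  refine hv.extend hH hle h1 h3 (w := e⁻¹ * w) (by simp [mul_g, inv_g, e, hw]) (fun n hn => ?_) ?_
  · calc e⁻¹ * w * v (σ⁻¹ * n * σ) = e⁻¹ * (v n * e) * (e⁻¹ * w) := by
          rw [mul_assoc, hc n hn]; group
      _ = v n * (e⁻¹ * w) := by rw [e1 n hn]; group
  · calc e⁻¹ * w * (e⁻¹ * w) = e⁻¹ * A⁻¹ * (A * w) * e⁻¹ * w := by group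
      _ = (A * e)⁻¹ * e * (w * w) := by rw [e2]; group
      _ = v (σ * σ) := by rw [← (comm_iff e hA1).2 rfl, hA]; group

end Gam

/-- Every sign valued cocycle is a coboundary in the multiplicative group. -/
theorem coc [IsGalois K L] [IsTotallyReal L] {j : ℕ} (hj : Module.finrank K L = 2 ^ j)
    (hu : ∀ Q : Pr L, eI K Q = 1)
    (h2 : ∀ Q : Pr L, og Q (2 : L) ≠ 0 → ∀ σ : L ≃ₐ[K] L, (∀ z, og Q (σ z) = og Q z) → σ = 1)
    (hε : IsCoc ε) : ∃ β : (L ≃ₐ[K] L) → L, (∀ g, β g ≠ 0) ∧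
      ∀ g h, β g * g (β h) = sg L (ε g h) * β (g * h) := by
  have hG : Nat.card (L ≃ₐ[K] L) = 2 ^ j := (IsGalois.card_aut_eq_finrank K L).trans hj
  have key : ∀ n ≤ j, ∃ H : Subgroup (L ≃ₐ[K] L), Nat.card H = 2 ^ n ∧
      ∃ v : (L ≃ₐ[K] L) → Gam hε, Gam.Spl H v := by
    intro n
    induction n with
    | zero =>
      refine fun _ => ⟨⊥, by simp, fun _ => 1, fun g hg => ?_, fun _ _ _ _ => (mul_one _).symm⟩
      exact (Subgroup.mem_bot.1 hg).symm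
    | succ n ih =>
      intro hn
      obtain ⟨N, hN, v, hv⟩ := ih (by omega)
      obtain ⟨H, hH, hle⟩ := Sylow.exists_subgroup_card_pow_succ (hG ▸ pow_dvd_pow 2 hn) hN
      have h1 : (N.subgroupOf H).index = 2 := by
        have := (N.subgroupOf H).card_mul_index
        rw [Nat.card_congr (Subgroup.subgroupOfEquivOfLe hle).toEquiv, hN, hH, pow_succ] at this
        exact Nat.eq_of_mul_eq_mul_left (by positivity) this
      obtain ⟨σ, h3, h4⟩ := SetLike.exists_of_lt (lt_of_le_of_ne hle fun h => by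
        rw [h, hH] at hN
        exact absurd (Nat.pow_right_injective le_rfl hN) (by omega))
      exact ⟨H, hH, hv.step hu h2 (fun a ha b hb =>
        Subgroup.mul_mem_iff_of_index_two h1 (a := ⟨a, ha⟩) (b := ⟨b, hb⟩)) hle h3 h4⟩
  obtain ⟨H, hH, v, hv⟩ := key j le_rfl
  obtain rfl : H = ⊤ := Subgroup.eq_top_of_card_eq H (hH.trans hG.symm)
  refine ⟨fun g => (v g).x, fun g => (v g).ne, fun g h => ?_⟩
  beta_reduce
  rw [hv.2 g trivial h trivial, Gam.mul_x, hv.1 g trivial, hv.1 h trivial]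
  linear_combination -((v g).x * g (v h).x) * sg_mul_self (R := L) (ε g h)

end Pool.Agent.Lib.MP_df1788_co
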