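import Pool.Agent.Lib.MP_df1788_co.Defs

/-! Hilbert 90 and the local-global principle for norms inside an unramified extension. -/

set_option linter.unusedSectionVars false

namespace Pool.Agent.Lib.MP_df1788_co

open NumberField IsDedekindDomain Pool.Agent.Stark

variable {K L : Type} [Field K] [NumberField K] [Field L] [NumberField L] [Algebra K L]

theorem h90 (N : Subgroup (L ≃ₐ[K] L)) (f : (L ≃ₐ[K] L) → L) (h0 : f 1 ≠ 0)
    (hf : ∀ g ∈ N, ∀ h ∈ N, f (g * h) = f g * g (f h)) :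
    ∃ c : L, c ≠ 0 ∧ ∀ g ∈ N, f g * g c = c := by
  classical
  have hli : LinearIndependent L (fun h : N => fun z : L => (h : L ≃ₐ[K] L) z) :=
    (linearIndependent_monoidHom L L).comp (fun h : N => ((h : L ≃ₐ[K] L) : L →* L))
      fun a b h => Subtype.ext (AlgEquiv.ext fun z => DFunLike.congr_fun h z)
  obtain ⟨z, hz⟩ : ∃ z : L, ∑ h : N, f h * (h : L ≃ₐ[K] L) z ≠ 0 := by
    by_contra hc
    push Not at hc
    exact h0 (Fintype.linearIndependent_iff.1 hli (fun h => f h)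
      (funext fun z => by simpa using hc z) 1)
  refine ⟨_, hz, fun g hg => ?_⟩
  rw [map_sum, Finset.mul_sum]
  refine Fintype.sum_equiv (Equiv.mulLeft (⟨g, hg⟩ : N)) _ _ fun h => ?_
  rw [Equiv.coe_mulLeft, Subgroup.coe_mul, hf g hg h h.2, map_mul, AlgEquiv.mul_apply, mul_assoc]

theorem exists_real_ext [IsTotallyReal L] (φ : K →+* ℝ) :
    ∃ ψ : L →+* ℝ, ∀ x, ψ (algebraMap K L x) = φ x := by
  have h := IsTotallyReal.complexEmbedding_isReal
    (ComplexEmbedding.lift L (Complex.ofRealHom.comp φ))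
  refine ⟨h.embedding, fun x => Complex.ofReal_injective ?_⟩
  rw [h.coe_embedding_apply, ComplexEmbedding.lift_algebraMap_apply]
  rfl

theorem exists_frob [IsGalois K L] (hu : ∀ Q : Pr L, eI K Q = 1) {m : K} (hm : m ≠ 0) {r : L}
    (hr : r ^ 2 = algebraMap K L m) (q : Pr K) (hq : ¬ LSq q m) :
    ∃ (Q : Pr L) (ρ : L ≃ₐ[K] L), below K Q = q ∧ ρ r ≠ r ∧ ∀ z, og Q (ρ z) = og Q z := by
  have h1 := isFrob_frob (L := L) q
  have h2 := frob_sqrt hm hr q (fun Q _ => hu Q) h1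
  obtain ⟨Q0, hQ0, hover, hfr⟩ := h1
  let Q : Pr L := ⟨Q0, hQ0, Ideal.ne_bot_of_liesOver_of_ne_bot q.ne_bot Q0⟩
  refine ⟨Q, _, HeightOneSpectrum.ext hover.over.symm, fun h => hq (h2.1 h), fun z => ?_⟩
  have h3 : act (StarkStmt.frob K L q.asIdeal).toRingEquiv Q = Q := by
    refine HeightOneSpectrum.ext (Ideal.ext fun x => ?_)
    have h4 := FrobAux.two_le_absNorm q
    have h5 : StarkStmt.frob K L q.asIdeal • x ∈ Q0 ↔ x ^ Ideal.absNorm q.asIdeal ∈ Q0 :=
      ⟨fun h => by simpa using sub_mem h (hfr x), fun h => by simpa using add_mem (hfr x) h⟩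
    exact h5.trans (hQ0.pow_mem_iff_mem _ (by omega))
  have h6 := og_act (StarkStmt.frob K L q.asIdeal).toRingEquiv Q z
  rw [h3] at h6
  exact h6.symm

theorem norm_of [IsGalois K L] [IsTotallyReal L] (hu : ∀ Q : Pr L, eI K Q = 1)
    (h2 : ∀ Q : Pr L, og Q (2 : L) ≠ 0 → ∀ σ : L ≃ₐ[K] L, (∀ z, og Q (σ z) = og Q z) → σ = 1)
    (H : Subgroup (L ≃ₐ[K] L)) {r : L} (hr0 : r ≠ 0) (hr : ∀ g ∈ H, g r = r ∨ g r = -r) {a : L}
    (ha0 : a ≠ 0) (ha : ∀ g ∈ H, g a = a)
    (hv : ∀ Q : Pr L, ∀ ρ ∈ H, ρ r ≠ r → (∀ z, og Q (ρ z) = og Q z) → Even (og Q a)) :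
    ∃ x z : L, (∀ g ∈ H, g x = x ∧ g z = z) ∧ a = (x + z * r) * (x - z * r) := by
  let F := IntermediateField.fixedField H
  let a' : F := ⟨a, (IntermediateField.mem_fixedField_iff H a).2 ha⟩
  let m : F := ⟨r ^ 2, (IntermediateField.mem_fixedField_iff H _).2 fun g hg => by
    rw [map_pow]
    rcases hr g hg with h | h <;> rw [h]
    exact neg_sq r⟩
  have hm : m ≠ 0 := fun h => pow_ne_zero 2 hr0 (congrArg Subtype.val h)
  have ha' : a' ≠ 0 := fun h => ha0 (congrArg Subtype.val h)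
  have hrm : r ^ 2 = algebraMap F L m := rfl
  have hu' : ∀ Q : Pr L, eI F Q = 1 := fun Q =>
    Nat.eq_one_of_mul_eq_one_right ((eI_tower (M := F) Q).2.symm.trans (hu Q))
  have key : hs m a' = 0 := by
    refine hasse_norm hm ha' (fun φ => ?_) fun q => ?_
    · obtain ⟨ψ, hψ⟩ := exists_real_ext (L := L) φ
      refine DualAux.hs_pos ?_ _
      rw [← hψ, ← hrm, map_pow]
      exact sq_pos_of_ne_zero ((map_ne_zero ψ).2 hr0)
    by_cases hq : LSq q m
    · exact hs_of_isSquare_left (isLoc_wv q).two (DualAux.emb_ne q hm) hq _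
    obtain ⟨Q, ρ, hQ, h3, h4⟩ := exists_frob hu' hm hrm q hq
    have hρ : ρ.restrictScalars K ∈ H := by
      rw [← IntermediateField.fixingSubgroup_fixedField H,
        IntermediateField.mem_fixingSubgroup_iff]
      exact fun x hx => ρ.commutes ⟨x, hx⟩
    have h5 : ∀ t : F, og Q (algebraMap F L t) = og q t := fun t => by
      rw [og_algebraMap, hu' Q, hQ, Nat.cast_one, one_mul]
    refine hq_eq_zero q ?_ hm ha' ?_ ?_
    · by_contra h6
      rw [← h5, map_ofNat] at h6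
      exact h3 (AlgEquiv.congr_fun (h2 Q h6 (ρ.restrictScalars K) h4) r)
    · rw [← h5, ← hrm, SUnitAux.og_sq]
      exact even_two_mul _
    · rw [← h5]
      exact hv Q _ hρ h3 h4
  obtain ⟨x, z, h⟩ := hs_eq_zero.1 key
  refine ⟨x, z, fun g hg => ⟨(IntermediateField.mem_fixedField_iff H _).1 x.2 g hg,
    (IntermediateField.mem_fixedField_iff H _).1 z.2 g hg⟩, ?_⟩
  have h1 : a = (x : L) ^ 2 - r ^ 2 * (z : L) ^ 2 := congrArg Subtype.val h
  rw [h1]
  ring

end Pool.Agent.Lib.MP_df1788_co
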