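import Pool.Agent.Lib.MP_df1788_co.Loc
import Pool.Agent.Lib.MP_ca56d1_nt.Dual
import Pool.Agent.Lib.MP_ca56d1_nt.Kum

/-! Definitions for the tower of unramified extensions with split primes. -/

namespace Pool.Agent.Lib.MP_df1788_co

open NumberField Pool.Agent.Stark

variable {K : Type} [Field K] [NumberField K]

/-- `x` is nonzero, totally positive, a local square on `T`, of even valuation outside `T`. -/
def Tst (T : Finset (Pr K)) (x : K) : Prop :=
  x ≠ 0 ∧ (∀ q ∉ T, Even (og q x)) ∧ (∀ q ∈ T, LSq q x) ∧ ∀ φ : K →+* ℝ, 0 < φ x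

/-- The square classes of the elements with property `Tst`. -/
def Vs (T : Finset (Pr K)) : Set (SqCl K) := {c | ∃ x, Tst T x ∧ cl x = c}

variable (K) in
/-- `L / K` is Galois of degree `2 ^ j`, totally real, unramified, and split on `T`. -/
structure Tow (L : Type) [Field L] [NumberField L] [Algebra K L] (T : Finset (Pr K)) (j : ℕ) :
    Prop where
  gal : IsGalois K L
  deg : Module.finrank K L = 2 ^ j
  real : IsTotallyReal L
  unr : ∀ Q : Pr L, eI K Q = 1
  spl : ∀ q ∈ T, Nonempty (L →ₐ[K] Kc q)

end Pool.Agent.Lib.MP_df1788_co
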