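import Pool.Agent.Lib.MP_ca56d1_nt.Poisson

/-! Integers of a totally real field in boxes, with constants exponential in the degree. -/

namespace Pool.Agent.Lib.MP_df1788_co

open NumberField

namespace LatAux

open Pool.Agent.Stark Matrix Real Module

variable {ι : Type} [Fintype ι] [DecidableEq ι]

/-- geometric majorant of the Gaussian on unit intervals -/
noncomputable def gm : ℤ → ℝ := Int.rec (fun n => (1 / 3) ^ n) fun n => (1 / 3) ^ n

theorem gm_sum : HasSum gm 3 := by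
  have h : HasSum (fun n : ℕ => (1 / 3 : ℝ) ^ n) (1 - 1 / 3)⁻¹ :=
    hasSum_geometric_of_lt_one (by norm_num) (by norm_num)
  have h2 : HasSum gm _ := h.int_rec h
  norm_num at h2
  exact h2

theorem gm_nonneg (n : ℤ) : 0 ≤ gm n := by
  rcases n with n | n <;> simp only [gm] <;> positivity

theorem exp_le_third {t : ℝ} {n : ℕ} (h : (n : ℝ) ≤ |t|) : rexp (-π * t ^ 2) ≤ (1 / 3) ^ n := by
  have h1 : rexp (-π) ≤ 1 / 3 := by
    rw [Real.exp_neg, one_div]
    refine inv_anti₀ (by norm_num) ?_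
    linarith [Real.add_one_le_exp π, Real.pi_gt_three]
  have h2 : (n : ℝ) ≤ t ^ 2 := by
    have e1 : (n : ℝ) ≤ (n : ℝ) ^ 2 := by exact_mod_cast Nat.le_self_pow two_ne_zero n
    rw [← sq_abs]
    exact e1.trans (pow_le_pow_left₀ (Nat.cast_nonneg n) h 2)
  calc rexp (-π * t ^ 2) ≤ rexp (n * -π) := Real.exp_le_exp.2 (by nlinarith [Real.pi_pos])
    _ = rexp (-π) ^ n := Real.exp_nat_mul _ _
    _ ≤ (1 / 3) ^ n := pow_le_pow_left₀ (Real.exp_pos _).le h1 n

theorem exp_le_gm (t : ℝ) : rexp (-π * t ^ 2) ≤ gm ⌊t⌋ := by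
  have h1 := Int.floor_le t
  have h2 := Int.lt_floor_add_one t
  generalize ⌊t⌋ = m at *
  rcases m with n | n
  · refine exp_le_third (le_trans ?_ (le_abs_self t))
    simpa using h1
  · refine exp_le_third (le_trans ?_ (neg_le_abs t))
    rw [Int.cast_negSucc] at h2
    push_cast at h2
    linarith

theorem tile {J : Type} (p : J → ι → ℝ) (N : ℝ)
    (H : ∀ (k : ι → ℤ) (A : Finset J), (∀ j ∈ A, ∀ i, ⌊p j i⌋ = k i) → (A.card : ℝ) ≤ N) :
    ∑' j, rexp (-π * ∑ i, p j i ^ 2) ≤ N * 3 ^ Fintype.card ι := by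
  classical
  have hN : 0 ≤ N := by simpa using H 0 ∅ (by simp)
  refine Real.tsum_le_of_sum_le (fun j => (Real.exp_pos _).le) fun A => ?_
  let fl : J → ι → ℤ := fun j i => ⌊p j i⌋
  let t : Finset ℤ := (A.image fl).biUnion fun k => Finset.univ.image k
  have hsub : A.image fl ⊆ Fintype.piFinset fun _ : ι => t := by
    intro k hk
    rw [Fintype.mem_piFinset]
    intro j
    exact Finset.mem_biUnion.2 ⟨k, hk, Finset.mem_image_of_mem k (Finset.mem_univ j)⟩
  have hp : ∀ k : ι → ℤ, 0 ≤ ∏ i, gm (k i) := fun k => Finset.prod_nonneg fun i _ => gm_nonneg _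
  calc ∑ j ∈ A, rexp (-π * ∑ i, p j i ^ 2) ≤ ∑ j ∈ A, ∏ i, gm (fl j i) := by
        refine Finset.sum_le_sum fun j _ => ?_
        rw [Finset.mul_sum, Real.exp_sum]
        exact Finset.prod_le_prod (fun i _ => (Real.exp_pos _).le) fun i _ => exp_le_gm _
    _ = ∑ k ∈ A.image fl, (A.filter fun j => fl j = k).card • ∏ i, gm (k i) :=
        Finset.sum_comp (fun k : ι → ℤ => ∏ i, gm (k i)) fl
    _ ≤ ∑ k ∈ A.image fl, N * ∏ i, gm (k i) := by
        refine Finset.sum_le_sum fun k _ => ?_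
        rw [nsmul_eq_mul]
        exact mul_le_mul_of_nonneg_right
          (H k _ fun j hj i => congrFun (Finset.mem_filter.1 hj).2 i) (hp k)
    _ ≤ N * 3 ^ Fintype.card ι := by
        rw [← Finset.mul_sum]
        refine mul_le_mul_of_nonneg_left ?_ hN
        calc ∑ k ∈ A.image fl, ∏ i, gm (k i)
            ≤ ∑ k ∈ Fintype.piFinset fun _ : ι => t, ∏ i, gm (k i) :=
              Finset.sum_le_sum_of_subset_of_nonneg hsub fun k _ _ => hp k
          _ = ∏ _i : ι, ∑ n ∈ t, gm n := (Finset.prod_univ_sum _ _).symm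
          _ ≤ ∏ _i : ι, (3 : ℝ) :=
              Finset.prod_le_prod (fun _ _ => Finset.sum_nonneg fun n _ => gm_nonneg n)
                fun _ _ => sum_le_hasSum t (fun n _ => gm_nonneg n) gm_sum
          _ = 3 ^ Fintype.card ι := by simp

omit [DecidableEq ι] in
theorem cexp_eq (r : ℝ) (y : ι → ℝ) :
    Complex.exp (-π * ∑ i, ((r ^ 2 : ℝ) : ℂ) * ((y i : ℝ) : ℂ) ^ 2)
      = ((rexp (-π * ∑ i, (r * y i) ^ 2) : ℝ) : ℂ) := by
  push_cast
  simp only [mul_pow]

theorem summ (B : Matrix ι ι ℝ) (hB : B.det ≠ 0) {r : ℝ} (hr : 0 < r) (c : ι → ℝ) :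
    Summable fun k : ι → ℤ => rexp (-π * ∑ i, (r * (lpt B k i + c i)) ^ 2) := by
  refine (summable_gauss B hB (fun _ => ((r ^ 2 : ℝ) : ℂ))
    (fun _ => by rw [Complex.ofReal_re]; positivity) c).congr fun k => ?_
  rw [cexp_eq, Complex.norm_real, Real.norm_of_nonneg (Real.exp_pos _).le]

theorem det_dual (B : Matrix ι ι ℝ) : (B⁻¹)ᵀ.det = B.det⁻¹ := by
  rw [Matrix.det_transpose, Matrix.det_nonsing_inv, Ring.inverse_eq_inv']

theorem theta_le (B : Matrix ι ι ℝ) (hB : B.det ≠ 0) {r : ℝ} (hr : 0 < r) (c : ι → ℝ) :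
    ∑' k : ι → ℤ, rexp (-π * ∑ i, (r * (lpt B k i + c i)) ^ 2) ≤
      (r⁻¹ ^ Fintype.card ι / |B.det|) *
        ∑' k : ι → ℤ, rexp (-π * ∑ i, (r⁻¹ * lpt (B⁻¹)ᵀ k i) ^ 2) := by
  have h := poisson_gauss B hB (fun _ => ((r ^ 2 : ℝ) : ℂ))
    (fun _ => by rw [Complex.ofReal_re]; positivity) c
  simp only [cexp_eq] at h
  rw [← Complex.ofReal_tsum] at h
  have hB' : (B⁻¹)ᵀ.det ≠ 0 := by rw [det_dual]; exact inv_ne_zero hB
  have hs := summ _ hB' (inv_pos.2 hr) 0
  simp only [Pi.zero_apply, add_zero] at hs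
  have e1 : ‖(((r ^ 2 : ℝ) : ℂ)) ^ (1 / 2 : ℂ)‖ = r := by
    have e0 : (1 / 2 : ℂ).re = 1 / 2 := by norm_num
    rw [Complex.norm_cpow_eq_rpow_re_of_pos (by positivity), e0, ← Real.sqrt_eq_rpow,
      Real.sqrt_sq hr.le]
  refine (le_abs_self _).trans ?_
  rw [← Real.norm_eq_abs, ← Complex.norm_real, h, norm_mul, norm_mul, norm_prod]
  simp only [norm_div, e1, norm_one, Complex.norm_real, Real.norm_eq_abs, abs_abs,
    Finset.prod_const, Finset.card_univ]
  refine mul_le_mul (le_of_eq (by rw [one_div r]; ring)) ?_ (norm_nonneg _) (by positivity)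
  refine tsum_of_norm_bounded hs.hasSum fun k => le_of_eq ?_
  have e : (2 * π * Complex.I * ((∑ i, lpt (B⁻¹)ᵀ k i * c i : ℝ) : ℂ)) =
      ((2 * π * ∑ i, lpt (B⁻¹)ᵀ k i * c i : ℝ) : ℂ) * Complex.I := by push_cast; ring
  have e2 : ∀ i, ((lpt (B⁻¹)ᵀ k i : ℝ) : ℂ) ^ 2 / ((r ^ 2 : ℝ) : ℂ)
      = ((r⁻¹ ^ 2 : ℝ) : ℂ) * ((lpt (B⁻¹)ᵀ k i : ℝ) : ℂ) ^ 2 := fun i => by
    push_cast
    ring
  rw [Complex.exp_add, norm_mul, e, Complex.norm_exp_ofReal_mul_I, mul_one]
  simp only [e2]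
  rw [cexp_eq, Complex.norm_real, Real.norm_of_nonneg (Real.exp_pos _).le]

theorem theta_ge (B : Matrix ι ι ℝ) (hB : B.det ≠ 0) {R : ℝ} (hR : 0 < R) :
    R ^ Fintype.card ι / |B.det| ≤ ∑' k : ι → ℤ, rexp (-π * ∑ i, (R⁻¹ * lpt B k i) ^ 2) := by
  have hB' : (B⁻¹)ᵀ.det ≠ 0 := by rw [det_dual]; exact inv_ne_zero hB
  have h := theta_le _ hB' hR 0
  have e : (((B⁻¹)ᵀ)⁻¹)ᵀ = B := by
    rw [← Matrix.transpose_nonsing_inv, Matrix.transpose_transpose,
      Matrix.nonsing_inv_nonsing_inv B (isUnit_iff_ne_zero.2 hB)]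
  have h1 := (summ _ hB' hR 0).le_tsum 0 fun k _ => (Real.exp_pos _).le
  have e0 : lpt (B⁻¹)ᵀ 0 = 0 := by
    funext i
    simp [lpt, Matrix.mulVec, dotProduct]
  simp only [e0, Pi.zero_apply, add_zero, mul_zero] at h1 h
  rw [e, det_dual, abs_inv] at h
  have h2 := h1.trans h
  have ha : 0 < |B.det| := abs_pos.2 hB
  have hp : 0 < R ^ Fintype.card ι := by positivity
  rw [div_le_iff₀ ha]
  simp only [ne_eq, OfNat.ofNat_ne_zero, not_false_eq_true, zero_pow, Finset.sum_const_zero,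
    mul_zero, Real.exp_zero, inv_pow, div_inv_eq_mul] at h2
  rw [mul_assoc, ← div_eq_inv_mul, one_le_div hp] at h2
  linarith

variable {L : Type} [Field L] [NumberField L]

/-- the matrix of the real embeddings on a basis -/
noncomputable def mat (b : Basis (L →+* ℝ) ℤ (𝓞 L)) : Matrix (L →+* ℝ) (L →+* ℝ) ℝ :=
  Matrix.of fun φ j => φ (b j : L)

theorem lpt_mat [DecidableEq (L →+* ℝ)] (b : Basis (L →+* ℝ) ℤ (𝓞 L)) (x : 𝓞 L) (φ : L →+* ℝ) :
    lpt (mat b) (b.equivFun x) φ = φ (x : L) := by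
  conv_rhs => rw [← b.sum_equivFun x]
  simp [lpt, mat, Matrix.mulVec, dotProduct, mul_comm]

theorem exists_basis [IsTotallyReal L] [DecidableEq (L →+* ℝ)] :
    Fintype.card (L →+* ℝ) = finrank ℚ L ∧
      ∃ b : Basis (L →+* ℝ) ℤ (𝓞 L), (mat b).det ^ 2 = discr L := by
  classical
  let e : (L →+* ℝ) ≃ (L →ₐ[ℚ] ℂ) :=
    { toFun := fun φ => (Complex.ofRealHom.comp φ).toRatAlgHom
      invFun := fun σ => (IsTotallyReal.complexEmbedding_isReal (σ : L →+* ℂ)).embedding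
      left_inv := fun φ => by
        ext x
        apply Complex.ofReal_injective
        rw [ComplexEmbedding.IsReal.coe_embedding_apply]
        rfl
      right_inv := fun σ => by
        ext x
        exact ComplexEmbedding.IsReal.coe_embedding_apply
          (IsTotallyReal.complexEmbedding_isReal (σ : L →+* ℂ)) x }
  have hc : Fintype.card (L →+* ℝ) = finrank ℚ L := by
    rw [Fintype.card_congr e, AlgHom.card]
  refine ⟨hc, ?_⟩
  let f : Free.ChooseBasisIndex ℤ (𝓞 L) ≃ (L →+* ℝ) := Fintype.equivOfCardEq (by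
    rw [hc, ← finrank_eq_card_chooseBasisIndex, RingOfIntegers.rank])
  refine ⟨(RingOfIntegers.basis L).reindex f, ?_⟩
  have h := Algebra.discr_eq_det_embeddingsMatrixReindex_pow_two ℚ ℂ
    (integralBasis L ∘ f.symm) e
  rw [Algebra.discr_reindex, ← coe_discr] at h
  apply Complex.ofReal_injective
  have e1 : Algebra.embeddingsMatrixReindex ℚ ℂ (integralBasis L ∘ f.symm) e
      = (Complex.ofRealHom.mapMatrix (mat ((RingOfIntegers.basis L).reindex f)))ᵀ := by
    ext i j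
    simp [Algebra.embeddingsMatrixReindex, mat, e]
  rw [e1, Matrix.det_transpose, ← RingHom.map_det] at h
  simpa using h.symm

theorem dual_prod [DecidableEq (L →+* ℝ)] (b : Basis (L →+* ℝ) ℤ (𝓞 L)) (hB : (mat b).det ≠ 0)
    (k : (L →+* ℝ) → ℤ) (hk : k ≠ 0) :
    1 ≤ (∏ φ, |lpt ((mat b)⁻¹)ᵀ k φ|) * (mat b).det ^ 2 := by
  obtain ⟨y, hy⟩ : ∃ y, y = lpt ((mat b)⁻¹)ᵀ k := ⟨_, rfl⟩
  rw [← hy]
  have h1 : (mat b)ᵀ.mulVec y = fun j => (k j : ℝ) := by
    rw [hy, lpt, Matrix.mulVec_mulVec, ← Matrix.transpose_mul,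
      Matrix.nonsing_inv_mul _ (isUnit_iff_ne_zero.2 hB), Matrix.transpose_one, Matrix.one_mulVec]
  let lam : 𝓞 L →ₗ[ℤ] ℤ := b.constr ℤ k
  have h2 : ∀ x : 𝓞 L, (lam x : ℝ) = ∑ φ, y φ * φ (x : L) := by
    intro x
    simp only [← lpt_mat b x]
    have := Matrix.dotProduct_mulVec y (mat b) fun j => (b.equivFun x j : ℝ)
    rw [← Matrix.mulVec_transpose, h1] at this
    refine Eq.trans ?_ this.symm
    simp only [lam, Basis.constr_apply_fintype, dotProduct, smul_eq_mul]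
    push_cast
    exact Finset.sum_congr rfl fun j _ => mul_comm _ _
  let M : Matrix (L →+* ℝ) (L →+* ℝ) ℤ := Matrix.of fun i j => lam (b i * b j)
  have h3 : (Int.castRingHom ℝ).mapMatrix M = (mat b)ᵀ * Matrix.diagonal y * mat b := by
    ext i j
    rw [Matrix.mul_apply]
    simp only [Matrix.mul_diagonal]
    simp only [RingHom.mapMatrix_apply, Matrix.map_apply, M, Matrix.of_apply, eq_intCast, h2, mat,
      Matrix.transpose_apply]
    refine Finset.sum_congr rfl fun φ _ => ?_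
    push_cast
    rw [map_mul]
    ring
  have h4 : M.det ≠ 0 := by
    intro h
    obtain ⟨v, hv, hMv⟩ := Matrix.exists_mulVec_eq_zero_iff.2 h
    have hx : b.equivFun.symm v ≠ 0 := fun h => hv (b.equivFun.symm.map_eq_zero_iff.1 h)
    obtain ⟨n, hn, z, hz⟩ := (Algebra.IsAlgebraic.isAlgebraic (R := ℤ) _).exists_nonzero_dvd
      (mem_nonZeroDivisors_of_ne_zero hx)
    have h5 : lam ∘ₗ LinearMap.mulRight ℤ (b.equivFun.symm v) = 0 := by
      refine b.ext fun i => ?_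
      have := congrFun hMv i
      simp only [Matrix.mulVec, dotProduct, M, Matrix.of_apply, Pi.zero_apply] at this
      simp only [LinearMap.comp_apply, LinearMap.mulRight_apply, Basis.equivFun_symm_apply,
        Finset.mul_sum, mul_smul_comm, map_sum, map_smul, smul_eq_mul, LinearMap.zero_apply]
      rw [← this]
      exact Finset.sum_congr rfl fun j _ => mul_comm _ _
    refine hk (funext fun l => ?_)
    have h6 := LinearMap.congr_fun h5 (b l * z)
    rw [LinearMap.comp_apply, LinearMap.mulRight_apply, mul_assoc, mul_comm z, ← hz, mul_comm,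
      ← Algebra.smul_def, map_smul] at h6
    simpa [lam, hn] using h6
  have h5 : (M.det : ℝ) = (∏ φ, y φ) * (mat b).det ^ 2 := by
    have := congrArg Matrix.det h3
    rw [← RingHom.map_det, Matrix.det_mul, Matrix.det_mul, Matrix.det_transpose,
      Matrix.det_diagonal] at this
    rw [eq_intCast] at this
    rw [this]
    ring
  have h6 : (1 : ℝ) ≤ |(M.det : ℝ)| := by exact_mod_cast Int.one_le_abs h4
  rwa [h5, abs_mul, Finset.abs_prod, abs_of_nonneg (sq_nonneg _)] at h6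

theorem abs_det {D : ℕ} {ρ x d : ℝ} (hρ : 0 < ρ) (hd : ρ ^ (2 * D) = |d|) (hx : x ^ 2 = d) :
    |x| = ρ ^ D := by
  rw [← hx, abs_of_nonneg (sq_nonneg _), pow_mul', ← sq_abs x] at hd
  exact ((pow_left_inj₀ (by positivity) (abs_nonneg _) two_ne_zero).1 hd).symm

end LatAux

open LatAux Pool.Agent.Stark Matrix Real

variable {L : Type} [Field L] [NumberField L] [IsTotallyReal L]

theorem lat_lower {ρ : ℝ} (hρ : 0 < ρ) (hd : ρ ^ (2 * Module.finrank ℚ L) = |(discr L : ℝ)|)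
    {R : ℝ} (hR : 0 < R) :
    ∃ (c : (L →+* ℝ) → ℝ) (A : Finset (𝓞 L)), (R / (3 * ρ)) ^ Module.finrank ℚ L ≤ A.card ∧
      ∀ x ∈ A, ∀ φ : L →+* ℝ, c φ ≤ φ (x : L) ∧ φ (x : L) ≤ c φ + R := by
  classical
  obtain ⟨hc, b, hb⟩ := exists_basis (L := L)
  have ha := abs_det hρ hd hb
  have hB : (mat b).det ≠ 0 := abs_pos.1 (by rw [ha]; positivity)
  by_contra hcon
  push Not at hcon
  obtain ⟨X, hX⟩ : ∃ X, X = (R / (3 * ρ)) ^ Module.finrank ℚ L := ⟨_, rfl⟩
  have hX0 : 0 ≤ X := by rw [hX]; positivity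
  have h1 := tile (fun k i => R⁻¹ * lpt (mat b) k i) ((⌈X⌉₊ : ℝ) - 1) fun k A hA => by
    have hlt : ((A.map b.equivFun.symm.toEquiv.toEmbedding).card : ℝ) < X := by
      by_contra hle
      obtain ⟨x, hx, φ, hφ⟩ := hcon (fun φ => k φ * R) _ (hX ▸ not_lt.1 hle)
      obtain ⟨j, hj, rfl⟩ := Finset.mem_map.1 hx
      have e := lpt_mat b (b.equivFun.symm j) φ
      rw [LinearEquiv.apply_symm_apply] at e
      have h := Int.floor_eq_iff.1 (hA j hj φ)
      rw [e, ← div_eq_inv_mul, le_div_iff₀ hR, div_lt_iff₀ hR] at h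
      have := hφ h.1
      simp only [Equiv.coe_toEmbedding, LinearEquiv.coe_toEquiv] at this
      linarith [h.2]
    rw [Finset.card_map] at hlt
    have : A.card + 1 ≤ ⌈X⌉₊ := Nat.lt_ceil.2 hlt
    have : (A.card : ℝ) + 1 ≤ ⌈X⌉₊ := by exact_mod_cast this
    linarith
  have h2 := theta_ge (mat b) hB hR
  have h3 := Nat.ceil_lt_add_one hX0
  rw [hc] at h1 h2
  have h4 : X * 3 ^ Module.finrank ℚ L = R ^ Module.finrank ℚ L / |(mat b).det| := by
    rw [hX, ha, div_pow, mul_pow]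
    field_simp
  have h5 : ((⌈X⌉₊ : ℝ) - 1) * 3 ^ Module.finrank ℚ L < X * 3 ^ Module.finrank ℚ L :=
    mul_lt_mul_of_pos_right (by linarith) (by positivity)
  linarith

theorem lat_upper {ρ : ℝ} (hρ : 0 < ρ) (hd : ρ ^ (2 * Module.finrank ℚ L) = |(discr L : ℝ)|)
    {s : ℝ} (hs : ρ ^ 2 ≤ s) (c : (L →+* ℝ) → ℝ) (A : Finset (𝓞 L))
    (hA : ∀ x ∈ A, ∀ φ : L →+* ℝ, c φ ≤ φ (x : L) ∧ φ (x : L) ≤ c φ + s) :
    (A.card : ℝ) ≤ (7 * s / ρ) ^ Module.finrank ℚ L := by
  classical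
  obtain ⟨hc, b, hb⟩ := exists_basis (L := L)
  have ha := abs_det hρ hd hb
  have hB : (mat b).det ≠ 0 := abs_pos.1 (by rw [ha]; positivity)
  have hs0 : 0 < s := lt_of_lt_of_le (by positivity) hs
  have hne : (Finset.univ : Finset (L →+* ℝ)).Nonempty := by
    rw [← Finset.card_pos, Finset.card_univ, hc]
    exact Module.finrank_pos
  have h1 := tile (fun k i => s * lpt ((mat b)⁻¹)ᵀ k i) 1 fun k A hA => by
    have : A.card ≤ 1 := by
      refine Finset.card_le_one.2 fun j hj j' hj' => ?_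
      by_contra hjj
      have h := dual_prod b hB (j - j') (sub_ne_zero.2 hjj)
      have e : ∀ φ, s * |lpt ((mat b)⁻¹)ᵀ (j - j') φ| < 1 := fun φ => by
        have := Int.abs_sub_lt_one_of_floor_eq_floor ((hA j hj φ).trans (hA j' hj' φ).symm)
        rw [← mul_sub, abs_mul, abs_of_pos hs0] at this
        refine lt_of_eq_of_lt ?_ this
        simp [lpt, Matrix.mulVec, dotProduct, mul_sub]
      have e2 : (mat b).det ^ 2 ≤ ∏ _φ : L →+* ℝ, s := by
        rw [← sq_abs, ha, Finset.prod_const, Finset.card_univ, hc, ← pow_mul, pow_mul']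
        exact pow_le_pow_left₀ (by positivity) hs _
      have e3 : ∏ φ, s * |lpt ((mat b)⁻¹)ᵀ (j - j') φ| < 1 := by
        obtain ⟨φ, hφ⟩ := hne
        rw [← Finset.mul_prod_erase _ _ hφ]
        exact mul_lt_one_of_nonneg_of_lt_one_left (by positivity) (e φ)
          (Finset.prod_le_one (fun _ _ => by positivity) fun ψ _ => (e ψ).le)
      rw [Finset.prod_mul_distrib, mul_comm] at e3
      have e4 := mul_le_mul_of_nonneg_left e2
        (Finset.prod_nonneg fun φ (_ : φ ∈ Finset.univ) =>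
          abs_nonneg (lpt ((mat b)⁻¹)ᵀ (j - j') φ))
      linarith
    exact_mod_cast this
  have h2 := theta_le (mat b) hB (inv_pos.2 hs0) fun φ => -(c φ + s / 2)
  have h3 := (summ (mat b) hB (inv_pos.2 hs0) fun φ => -(c φ + s / 2)).sum_le_tsum
    (A.map b.equivFun.toEquiv.toEmbedding) fun k _ => (Real.exp_pos _).le
  have h4 : (A.card : ℝ) * rexp (-π / 4) ^ Module.finrank ℚ L ≤
      ∑ k ∈ A.map b.equivFun.toEquiv.toEmbedding,
        rexp (-π * ∑ i, (s⁻¹ * (lpt (mat b) k i + -(c i + s / 2))) ^ 2) := by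
    rw [Finset.sum_map, ← nsmul_eq_mul]
    refine Finset.card_nsmul_le_sum _ _ _ fun x hx => ?_
    rw [Finset.mul_sum, Real.exp_sum, ← hc, ← Finset.card_univ, ← Finset.prod_const]
    refine Finset.prod_le_prod (fun _ _ => (Real.exp_pos _).le) fun φ _ => Real.exp_le_exp.2 ?_
    have e := lpt_mat b x φ
    simp only [Equiv.coe_toEmbedding, LinearEquiv.coe_toEquiv, e]
    obtain ⟨p1, p2⟩ := hA x hx φ
    have q : (s⁻¹ * (φ (x : L) + -(c φ + s / 2))) ^ 2 ≤ (1 / 2) ^ 2 := by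
      refine sq_le_sq' ?_ ?_
      · rw [← div_eq_inv_mul, le_div_iff₀ hs0]
        linarith
      · rw [← div_eq_inv_mul, div_le_iff₀ hs0]
        linarith
    nlinarith [Real.pi_pos]
  rw [inv_inv, hc, ha] at h2
  rw [hc, one_mul] at h1
  have h5 : (A.card : ℝ) * rexp (-π / 4) ^ Module.finrank ℚ L
      ≤ (3 * s / ρ) ^ Module.finrank ℚ L := by
    refine (h4.trans (h3.trans h2)).trans
      ((mul_le_mul_of_nonneg_left h1 (by positivity)).trans (le_of_eq ?_))
    rw [div_pow, mul_pow]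
    ring
  have h6 : 3 / 7 ≤ rexp (-π / 4) := by
    have t1 : rexp (-(4 / 5)) ≤ rexp (-π / 4) := Real.exp_le_exp.2 (by linarith [Real.pi_lt_d2])
    have t2 : 1 - 1 / 10 ≤ rexp (-(1 / 10)) := Real.one_sub_le_exp_neg _
    have t3 : rexp (-(4 / 5)) = rexp (-(1 / 10)) ^ 8 := by
      rw [← Real.exp_nat_mul]
      norm_num
    have t4 := pow_le_pow_left₀ (by norm_num) t2 8
    have t5 : (3 / 7 : ℝ) ≤ (1 - 1 / 10) ^ 8 := by norm_num
    linarith
  have h7 : (A.card : ℝ) * (3 / 7) ^ Module.finrank ℚ L ≤ (3 * s / ρ) ^ Module.finrank ℚ L :=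
    (mul_le_mul_of_nonneg_left (pow_le_pow_left₀ (by norm_num) h6 _) (Nat.cast_nonneg _)).trans h5
  rw [← le_div_iff₀ (by positivity), ← div_pow] at h7
  refine h7.trans (le_of_eq ?_)
  congr 1
  ring

end Pool.Agent.Lib.MP_df1788_co
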