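import Mathlib

/-! Squares modulo a product of primes with many prime factors. -/

namespace Pool.Agent.Lib.MP_df1788_co

open NumberField

namespace SqAux

open Finset

/-- Fibre counting for a surjective additive map of finite groups. -/
theorem card_pre {A B : Type*} [AddCommGroup A] [AddCommGroup B] [Fintype A] [Fintype B]
    [DecidableEq B] (f : A →+ B) (hf : Function.Surjective f) (T : Finset B) :
    (univ.filter fun a => f a ∈ T).card * Fintype.card B = Fintype.card A * T.card := by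
  classical
  set k := (univ.filter fun a => f a = 0).card with hk
  have hfib : ∀ b : B, (univ.filter fun a => f a = b).card = k := by
    intro b
    exact AddMonoidHom.card_fiber_eq_of_mem_range f (hf b) (hf 0)
  have h1 : ∀ U : Finset B, (univ.filter fun a => f a ∈ U).card = U.card * k := by
    intro U
    rw [card_eq_sum_card_fiberwise (f := f) (t := U) (s := univ.filter fun a => f a ∈ U)
      (fun a ha => by simpa using ha)]
    rw [← smul_eq_mul, ← sum_const]
    refine sum_congr rfl fun b hb => ?_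
    rw [← hfib b]
    congr 1
    ext a
    simp only [mem_filter, mem_univ, true_and]
    constructor
    · exact fun h => h.2
    · exact fun h => ⟨h ▸ hb, h⟩
  have h2 : Fintype.card A = Fintype.card B * k := by
    have := h1 univ
    simpa using this
  rw [h1, h2]
  ring

/-- The number of squares in a finite field of odd characteristic. -/
theorem card_squares {F : Type*} [Field F] [Fintype F] [DecidableEq F] (hF : ringChar F ≠ 2) :
    2 * (univ.filter fun a : F => IsSquare a).card = Fintype.card F + 1 := by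
  classical
  have h0 := quadraticChar_sum_zero (F := F) hF
  have h1 : ∀ a : F, (2 * (if IsSquare a then 1 else 0) : ℤ) =
      quadraticChar F a + 1 + (if a = 0 then 1 else 0) := by
    intro a
    by_cases ha : a = 0
    · subst ha
      simp
    · by_cases hs : IsSquare a
      · rw [(quadraticChar_one_iff_isSquare ha).2 hs]
        simp [ha, hs]
      · rw [quadraticChar_neg_one_iff_not_isSquare.2 hs]
        simp [ha, hs]
  have h2 := sum_congr (rfl : (univ : Finset F) = univ) (fun a _ => h1 a)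
  rw [← mul_sum, sum_add_distrib, sum_add_distrib, h0, sum_ite_eq', if_pos (mem_univ _)] at h2
  simp only [sum_boole, sum_const, card_univ, nsmul_eq_mul, mul_one, zero_add] at h2
  exact_mod_cast h2

/-- The proportion of squares in a finite field of odd characteristic `l`. -/
theorem card_squares_le {F : Type*} [Field F] [Fintype F] [DecidableEq F] {l : ℕ} (hl : l.Prime)
    (h2 : l ≠ 2) (h0 : (l : F) = 0) :
    ((univ.filter fun a : F => IsSquare a).card : ℝ) ≤
      (Fintype.card F : ℝ) * (((l : ℝ) + 1) / (2 * l)) := by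
  haveI : Fact l.Prime := ⟨hl⟩
  haveI : CharP F l := (CharP.charP_iff_prime_eq_zero hl).2 h0
  have hr : ringChar F ≠ 2 := by
    rw [ringChar.eq F l]
    exact h2
  have h1 := card_squares hr
  obtain ⟨n, -, hn⟩ := FiniteField.card F l
  have hq : l ≤ Fintype.card F := by
    rw [hn]
    exact Nat.le_self_pow n.ne_zero l
  have hq' : (l : ℝ) ≤ Fintype.card F := by exact_mod_cast hq
  have hl0 : (0 : ℝ) < l := by exact_mod_cast hl.pos
  have h1' : 2 * ((univ.filter fun a : F => IsSquare a).card : ℝ) = Fintype.card F + 1 := by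
    exact_mod_cast h1
  rw [← mul_div_assoc, le_div_iff₀ (by positivity)]
  nlinarith

end SqAux

variable {L : Type} [Field L] [NumberField L]

open Finset in
theorem card_sq (P : Finset ℕ) (hP : ∀ l ∈ P, l.Prime ∧ l ≠ 2) (g : ℕ)
    (hg : ∀ l ∈ P, ∃ S : Finset (Ideal (𝓞 L)), S.card = g ∧
      ∀ Q ∈ S, Q.IsMaximal ∧ (l : 𝓞 L) ∈ Q) :
    ∃ C : Finset (𝓞 L), (C.card : ℝ) ≤ ((∏ l ∈ P, l : ℕ) : ℝ) ^ Module.finrank ℚ L *
        (∏ l ∈ P, (((l : ℝ) + 1) / (2 * l))) ^ g ∧
      ∀ z : 𝓞 L, ∃ c ∈ C, ∃ w : 𝓞 L, z ^ 2 = c + ((∏ l ∈ P, l : ℕ) : 𝓞 L) * w := by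
  classical
  choose S hS hSQ using hg
  set M : ℕ := ∏ l ∈ P, l with hM
  have hM0 : M ≠ 0 := prod_ne_zero_iff.2 fun l hl => (hP l hl).1.ne_zero
  let ι := (l : P) × (S l.1 l.2)
  let J : ι → Ideal (𝓞 L) := fun i => i.2.1
  have hmax : ∀ i, (J i).IsMaximal := fun i => (hSQ i.1.1 i.1.2 i.2.1 i.2.2).1
  have hmem : ∀ i : ι, ((i.1.1 : ℕ) : 𝓞 L) ∈ J i := fun i => (hSQ i.1.1 i.1.2 i.2.1 i.2.2).2
  have hco : Pairwise (Function.onFun IsCoprime J) := by
    intro i j hij
    have hne : J i ≠ J j := by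
      intro he
      obtain ⟨⟨l, hl⟩, ⟨Q, hQ⟩⟩ := i
      obtain ⟨⟨l', hl'⟩, ⟨Q', hQ'⟩⟩ := j
      by_cases hll : l = l'
      · subst hll
        apply hij
        have : Q = Q' := he
        subst this
        rfl
      · have h1 := hmem ⟨⟨l, hl⟩, ⟨Q, hQ⟩⟩
        have h2 := hmem ⟨⟨l', hl'⟩, ⟨Q', hQ'⟩⟩
        rw [he] at h1
        have hc : Nat.Coprime l l' := (Nat.coprime_primes (hP l hl).1 (hP l' hl').1).2 hll
        have hc' : IsCoprime (l : 𝓞 L) (l' : 𝓞 L) := Nat.Coprime.cast hc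
        obtain ⟨a, b, hab⟩ := hc'
        apply (hmax ⟨⟨l', hl'⟩, ⟨Q', hQ'⟩⟩).ne_top
        rw [Ideal.eq_top_iff_one, ← hab]
        exact Ideal.add_mem _ (Ideal.mul_mem_left _ _ h1) (Ideal.mul_mem_left _ _ h2)
    exact (Ideal.isCoprime_iff_sup_eq).2 ((hmax i).coprime_of_ne (hmax j) hne)
  have hMJ : ∀ i, ((M : ℕ) : 𝓞 L) ∈ J i := by
    intro i
    obtain ⟨k, hk⟩ : (i.1.1 : ℕ) ∣ M := dvd_prod_of_mem _ i.1.2
    rw [hk, Nat.cast_mul]
    exact Ideal.mul_mem_right _ _ (hmem i)
  set I : Ideal (𝓞 L) := Ideal.span {((M : ℕ) : 𝓞 L)} with hI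
  have hcardI : Nat.card (𝓞 L ⧸ I) = M ^ Module.finrank ℚ L := by
    rw [← Submodule.cardQuot_apply, ← Ideal.absNorm_apply, hI, Ideal.absNorm_span_natCast,
      RingOfIntegers.rank]
  haveI : Finite (𝓞 L ⧸ I) := Nat.finite_of_card_ne_zero (by rw [hcardI]; exact pow_ne_zero _ hM0)
  have hle : ∀ i, I ≤ J i := fun i => (Ideal.span_singleton_le_iff_mem _).2 (hMJ i)
  let f : (𝓞 L ⧸ I) →+* ((i : ι) → 𝓞 L ⧸ J i) :=
    Pi.ringHom fun i => Ideal.Quotient.factor (hle i)
  have hf : Function.Surjective f := by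
    intro x
    obtain ⟨r, hr⟩ := Ideal.pi_quotient_surjective hco x
    exact ⟨Ideal.Quotient.mk I r, funext fun i => hr i⟩
  haveI : ∀ i, Finite (𝓞 L ⧸ J i) := fun i =>
    Finite.of_surjective _ (Ideal.Quotient.factor_surjective (hle i))
  letI : Fintype (𝓞 L ⧸ I) := Fintype.ofFinite _
  letI : ∀ i, Fintype (𝓞 L ⧸ J i) := fun i => Fintype.ofFinite _
  let T : Finset ((i : ι) → 𝓞 L ⧸ J i) :=
    Fintype.piFinset fun i => univ.filter fun a : 𝓞 L ⧸ J i => IsSquare a
  let U : Finset (𝓞 L ⧸ I) := univ.filter fun a => f a ∈ T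
  have hU : U.card * Fintype.card ((i : ι) → 𝓞 L ⧸ J i) = Fintype.card (𝓞 L ⧸ I) * T.card :=
    SqAux.card_pre f.toAddMonoidHom hf T
  have hT : (T.card : ℝ) ≤ (Fintype.card ((i : ι) → 𝓞 L ⧸ J i) : ℝ) *
      (∏ l ∈ P, (((l : ℝ) + 1) / (2 * l))) ^ g := by
    have e1 : (∏ l ∈ P, (((l : ℝ) + 1) / (2 * l))) ^ g =
        ∏ i : ι, ((((i.1.1 : ℕ) : ℝ) + 1) / (2 * ((i.1.1 : ℕ) : ℝ))) := by
      rw [Fintype.prod_sigma, ← prod_pow, ← prod_coe_sort P]
      refine prod_congr rfl fun l _ => ?_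
      dsimp only
      rw [prod_const, card_univ, Fintype.card_coe, hS]
    rw [e1, Fintype.card_piFinset, Fintype.card_pi, Nat.cast_prod, Nat.cast_prod,
      ← prod_mul_distrib]
    refine prod_le_prod (fun i _ => Nat.cast_nonneg _) fun i _ => ?_
    haveI := hmax i
    letI : Field (𝓞 L ⧸ J i) := Ideal.Quotient.field (J i)
    refine SqAux.card_squares_le (hP i.1.1 i.1.2).1 (hP i.1.1 i.1.2).2 ?_
    have := Ideal.Quotient.eq_zero_iff_mem.2 (hmem i)
    rwa [map_natCast] at this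
  choose s hs using Ideal.Quotient.mk_surjective (I := I)
  refine ⟨U.image s, ?_, fun z => ?_⟩
  · have hpos : (0 : ℝ) < (Fintype.card ((i : ι) → 𝓞 L ⧸ J i) : ℝ) := by
      exact_mod_cast Fintype.card_pos
    have h1 : ((U.image s).card : ℝ) ≤ U.card := by exact_mod_cast card_image_le
    refine h1.trans (le_of_mul_le_mul_right ?_ hpos)
    have hU' : (U.card : ℝ) * (Fintype.card ((i : ι) → 𝓞 L ⧸ J i) : ℝ) =
        ((M : ℕ) : ℝ) ^ Module.finrank ℚ L * T.card := by
      rw [← Nat.card_eq_fintype_card (α := 𝓞 L ⧸ I), hcardI] at hU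
      exact_mod_cast hU
    rw [hU', mul_assoc, mul_comm _ (Fintype.card ((i : ι) → 𝓞 L ⧸ J i) : ℝ)]
    exact mul_le_mul_of_nonneg_left hT (by positivity)
  · refine ⟨s (Ideal.Quotient.mk I (z ^ 2)), mem_image_of_mem _ ?_, ?_⟩
    · simp only [U, T, mem_filter, mem_univ, true_and, Fintype.mem_piFinset]
      intro i
      refine ⟨f (Ideal.Quotient.mk I z) i, ?_⟩
      rw [map_pow, map_pow, sq]
      rfl
    · have h := (Ideal.Quotient.eq (I := I)).1 (hs (Ideal.Quotient.mk I (z ^ 2))).symm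
      obtain ⟨w, hw⟩ := Ideal.mem_span_singleton'.1 h
      exact ⟨w, by rw [mul_comm, hw]; ring⟩

end Pool.Agent.Lib.MP_df1788_co
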