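import Pool.Agent.Lib.MP_df1788_co.Num
import Pool.Agent.Lib.MP_df1788_co.Lat
import Pool.Agent.Lib.MP_df1788_co.Sq

/-! From the tower to point sets with few distances. -/

namespace Pool.Agent.Lib.MP_df1788_co

open NumberField

open scoped Classical in
theorem geo {L : Type} [Field L] [NumberField L] [IsTotallyReal L] {ρ y : ℝ} (hρ : 1 ≤ ρ)
    (hd : ρ ^ (2 * Module.finrank ℚ L) = |(discr L : ℝ)|) {n M : ℕ} (hM : 0 < M)
    (hy : (M : ℝ) ≤ y) (hn : y ^ Module.finrank ℚ L = n) (C : Finset (𝓞 L))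
    (hC : ∀ z : 𝓞 L, ∃ c ∈ C, ∃ w : 𝓞 L, z ^ 2 = c + (M : 𝓞 L) * w) :
    ∃ P₁ P₂ : Finset (EuclideanSpace ℝ (Fin 2)),
      P₁.card = n ∧ P₂.card = n ∧ (∀ p ∈ P₁, p 1 ^ 2 = p 0) ∧ (∀ q ∈ P₂, q 1 = 0) ∧
      (((P₁ ×ˢ P₂).image fun pq => dist pq.1 pq.2).card : ℝ) ≤
        C.card * (126 * ρ * y ^ 2 / M) ^ Module.finrank ℚ L := by
  have hM1 : (1 : ℝ) ≤ M := by exact_mod_cast hM
  have hρ0 : 0 < ρ := by linarith
  obtain ⟨R, hR⟩ : ∃ R, R = 3 * ρ * y := ⟨_, rfl⟩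
  have hRy : y ≤ R := by nlinarith
  obtain ⟨c, A0, h1, h2⟩ := lat_lower hρ0 hd (R := R) (by linarith)
  rw [hR, mul_div_cancel_left₀ _ (by positivity), hn, Nat.cast_le] at h1
  obtain ⟨A, hA, rfl⟩ := Finset.exists_subset_card_eq h1
  replace h2 := fun x hx => h2 x (hA hx)
  let φ : L →+* ℝ := (IsTotallyReal.complexEmbedding_isReal (Classical.arbitrary _)).embedding
  let u : 𝓞 L → ℝ := fun x => (φ x - c φ) / M
  have hu : Function.Injective u := fun x x' h => RingOfIntegers.ext (φ.injective (by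
    have := (div_left_inj' (by positivity)).1 h
    linarith))
  have hu0 : ∀ x ∈ A, 0 ≤ u x := fun x hx => div_nonneg (sub_nonneg.2 (h2 x hx φ).1) (by positivity)
  let Z : Finset (𝓞 L) := (A ×ˢ A).image fun x => (x.1 - x.2) ^ 2 + M * x.1
  refine ⟨A.image fun x => !₂[u x, √(u x)], A.image fun x => !₂[u x, 0],
    Finset.card_image_of_injective _ fun x x' h => hu (congrArg (· 0) h),
    Finset.card_image_of_injective _ fun x x' h => hu (congrArg (· 0) h), ?_, ?_, ?_⟩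
  · intro p hp
    obtain ⟨x, hx, rfl⟩ := Finset.mem_image.1 hp
    exact Real.sq_sqrt (hu0 x hx)
  · intro p hp
    obtain ⟨x, hx, rfl⟩ := Finset.mem_image.1 hp
    rfl
  refine le_trans (b := (Z.card : ℝ)) (Nat.cast_le.2 ((Finset.card_le_card ?_).trans
    (Finset.card_image_le (f := fun z : 𝓞 L => √((φ z - M * c φ) / M ^ 2))))) ?_
  · intro r hr
    obtain ⟨⟨p, q⟩, hpq, rfl⟩ := Finset.mem_image.1 hr
    obtain ⟨hp, hq⟩ := Finset.mem_product.1 hpq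
    obtain ⟨x, hx, rfl⟩ := Finset.mem_image.1 hp
    obtain ⟨x', hx', rfl⟩ := Finset.mem_image.1 hq
    refine Finset.mem_image.2 ⟨_, Finset.mem_image.2 ⟨(x, x'), Finset.mem_product.2 ⟨hx, hx'⟩,
      rfl⟩, ?_⟩
    rw [EuclideanSpace.dist_eq, Fin.sum_univ_two]
    congr 1
    change _ = dist (u x) (u x') ^ 2 + dist √(u x) 0 ^ 2
    rw [Real.dist_eq, Real.dist_eq, sq_abs, sq_abs, sub_zero, Real.sq_sqrt (hu0 x hx)]
    simp only [u, map_add, map_pow, map_sub, map_mul, map_natCast]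
    field_simp
    ring
  have h3 : ∀ z ∈ Z, ∃ a ∈ C, ∃ w : 𝓞 L, z = a + M * w ∧
      ∀ ψ : L →+* ℝ, M * c ψ ≤ ψ z ∧ ψ z ≤ M * c ψ + 2 * R ^ 2 := by
    intro z hz
    obtain ⟨⟨x, x'⟩, hx, rfl⟩ := Finset.mem_image.1 hz
    obtain ⟨hx, hx'⟩ := Finset.mem_product.1 hx
    obtain ⟨a, ha, w, hw⟩ := hC (x - x')
    refine ⟨a, ha, w + x, by rw [hw]; ring, fun ψ => ?_⟩
    obtain ⟨e1, e2⟩ := h2 x hx ψ
    obtain ⟨e3, e4⟩ := h2 x' hx' ψ
    simp only [map_add, map_pow, map_sub, map_mul, map_natCast]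
    have e5 : (ψ x - ψ x') ^ 2 ≤ R ^ 2 := sq_le_sq' (by linarith) (by linarith)
    constructor <;> nlinarith [sq_nonneg (ψ x - ψ x')]
  choose! a ha w hw hb using h3
  rw [Finset.card_eq_sum_card_fiberwise ha, Nat.cast_sum, ← nsmul_eq_mul]
  refine Finset.sum_le_card_nsmul _ _ _ fun a0 _ => ?_
  rw [← Finset.card_image_of_injOn (f := w) fun z hz z' hz' h => by
    rw [Finset.coe_filter] at hz hz'
    rw [hw z hz.1, hw z' hz'.1, hz.2, hz'.2, h]]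
  refine (lat_upper hρ0 hd (s := 2 * R ^ 2 / M) ?_ (fun ψ => (M * c ψ - ψ a0) / M) _
    fun v hv ψ => ?_).trans (le_of_eq ?_)
  · rw [le_div_iff₀ (by positivity), hR]
    have : M ≤ y ^ 2 := by nlinarith
    nlinarith [sq_nonneg ρ, sq_nonneg (ρ * y)]
  · obtain ⟨z, hz', rfl⟩ := Finset.mem_image.1 hv
    obtain ⟨hz, rfl⟩ := Finset.mem_filter.1 hz'
    obtain ⟨e1, e2⟩ := hb z hz ψ
    have e3 : ψ z = ψ (a z) + M * ψ (w z) := by
      conv_lhs => rw [hw z hz]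
      simp only [map_add, map_mul, map_natCast]
    rw [← add_div, div_le_iff₀ (by positivity), le_div_iff₀ (by positivity)]
    constructor <;> linarith
  · congr 1
    rw [hR]
    field_simp
    ring

theorem exists_j {b n : ℕ} (hb : 2 ≤ b) (hn : b ^ 2 ≤ n) :
    ∃ j, b ^ 2 ^ (j + 1) ≤ n ∧ n < (b ^ 2) ^ 2 ^ (j + 1) := by
  have h : ∃ j, n < b ^ 2 ^ (j + 2) := ⟨n, (Nat.lt_pow_self hb).trans_le (Nat.pow_le_pow_right
    (by omega) ((Nat.lt_two_pow_self).le.trans (Nat.pow_le_pow_right two_pos (by omega))))⟩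
  refine ⟨Nat.find h, ?_, by rw [← pow_mul, ← pow_succ']; exact Nat.find_spec h⟩
  rcases e : Nat.find h with _ | j
  · exact hn
  · exact not_lt.1 (Nat.find_min h (m := j) (by omega))

theorem exists_stage (f : ℕ → ℝ) {y : ℝ} (h1 : f 17250 ≤ y) (h2 : y ≤ f 34760) :
    ∃ p ∈ stages, f p.1 ≤ y ∧ y ≤ f p.2.2 := by
  simp only [stages, List.mem_cons, List.not_mem_nil, or_false, exists_eq_or_imp, exists_eq_left]
  have := le_total y (f 18460)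
  have := le_total y (f 20120)
  have := le_total y (f 22380)
  have := le_total y (f 25420)
  have := le_total y (f 29460)
  tauto

theorem numer {w κ t : ℝ} {s a e : ℕ} (hw : 0 ≤ w) (hκ : 0 ≤ κ) (h1 : w * 2 ^ s ≤ 2)
    (h2 : κ ≤ 2 ^ e) (h3 : t ^ 40 ≤ 2 ^ a) (h4 : a + (20 + e * 40) ≤ 20 * s) :
    w * (κ * t ^ 80) ^ 2 ≤ t ^ 158 := by
  have e1 : (w * κ ^ 2 * t ^ 2) ^ 20 * 2 ^ (20 * s) ≤ 1 * 2 ^ (20 * s) :=
    calc (w * κ ^ 2 * t ^ 2) ^ 20 * 2 ^ (20 * s) = t ^ 40 * ((w * 2 ^ s) ^ 20 * κ ^ 40) := by ring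
      _ ≤ 2 ^ a * (2 ^ 20 * (2 ^ e) ^ 40) := by gcongr
      _ ≤ 1 * 2 ^ (20 * s) := by
        rw [← pow_mul, ← pow_add, ← pow_add, one_mul]
        exact pow_le_pow_right₀ one_le_two h4
  have e2 : w * κ ^ 2 * t ^ 2 ≤ 1 :=
    (pow_le_one_iff_of_nonneg (by positivity) (by norm_num)).1
      (le_of_mul_le_mul_right e1 (by positivity))
  calc w * (κ * t ^ 80) ^ 2 = w * κ ^ 2 * t ^ 2 * (t ^ 79) ^ 2 := by ring
    _ ≤ 1 * (t ^ 79) ^ 2 := by gcongr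
    _ = t ^ 158 := by ring

open scoped Classical in
theorem final2 (H : ∀ j : ℕ, ∃ (L : Type) (_ : Field L) (_ : NumberField L) (_ : IsTotallyReal L),
      Module.finrank ℚ L = 2 ^ (j + 1) ∧ (discr L).natAbs ≤ 2 ^ (740 * 2 ^ j) ∧
      ∀ l ∈ pl, ∃ S : Finset (Ideal (𝓞 L)), S.card = 2 ^ j ∧
        ∀ Q ∈ S, Q.IsMaximal ∧ (l : 𝓞 L) ∈ Q) :
    ∃ N : ℕ, ∀ n ≥ N, ∃ P₁ P₂ : Finset (EuclideanSpace ℝ (Fin 2)),
      P₁.card = n ∧ P₂.card = n ∧ (∀ p ∈ P₁, p 1 ^ 2 = p 0) ∧ (∀ q ∈ P₂, q 1 = 0) ∧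
      (((P₁ ×ˢ P₂).image fun pq => dist pq.1 pq.2).card : ℝ) ≤ (n : ℝ) ^ (2 - 1 / 40 : ℝ) := by
  obtain ⟨f, hf⟩ : ∃ f : ℕ → ℕ, ∀ a, f a = 2 ^ a := ⟨_, fun _ => rfl⟩
  have hf' : ∀ a, (f a : ℝ) = 2 ^ a := fun a => by rw [hf, Nat.cast_pow, Nat.cast_ofNat]
  have hm : ∀ a b, a ≤ b → f a ≤ f b := fun a b h => by
    rw [hf, hf]
    exact Nat.pow_le_pow_right two_pos h
  have hp : ∀ a b, f a ^ b = f (a * b) := fun a b => by rw [hf, hf, pow_mul]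
  refine ⟨f 17250 ^ 2, fun n hn => ?_⟩
  have h0 : 2 ≤ f 17250 := (hf 1).ge.trans (hm 1 _ (by norm_num))
  obtain ⟨j, j1, j2⟩ := exists_j h0 hn
  obtain ⟨L, _, _, _, hD, hd, hS⟩ := H j
  have hD0 : Module.finrank ℚ L ≠ 0 := Module.finrank_pos.ne'
  have n0 : (0 : ℝ) < n := by exact_mod_cast lt_of_lt_of_le (by positivity) j1
  obtain ⟨t, t0, ht⟩ : ∃ t : ℝ, 0 < t ∧ (t ^ 40) ^ Module.finrank ℚ L = n :=
    ⟨n ^ ((40 * Module.finrank ℚ L : ℕ) : ℝ)⁻¹, by positivity, by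
      rw [← pow_mul]
      exact Real.rpow_inv_natCast_pow n0.le (by omega)⟩
  obtain ⟨ρ, ρ0, hρ⟩ : ∃ ρ : ℝ, 0 ≤ ρ ∧ ρ ^ (2 * Module.finrank ℚ L) = |(discr L : ℝ)| :=
    ⟨_ ^ ((2 * Module.finrank ℚ L : ℕ) : ℝ)⁻¹, by positivity,
      Real.rpow_inv_natCast_pow (abs_nonneg _) (by omega)⟩
  have ρ1 : 1 ≤ ρ := by
    rw [← one_le_pow_iff_of_nonneg ρ0 (show 2 * Module.finrank ℚ L ≠ 0 by omega), hρ]
    exact_mod_cast Int.one_le_abs (discr_ne_zero L)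
  have ρ2 : ρ ≤ f 185 := by
    rw [← pow_le_pow_iff_left₀ ρ0 (by positivity) (show 2 * Module.finrank ℚ L ≠ 0 by omega), hρ,
      ← Int.cast_abs, ← Nat.cast_natAbs, ← Nat.cast_pow, Nat.cast_le, hp, hf, hD]
    exact hd.trans (le_of_eq (by congr 1; ring))
  obtain ⟨⟨a, s, a'⟩, hst, y1, y2⟩ := exists_stage (fun a => f a) (y := t ^ 40) (by
      rw [← pow_le_pow_iff_left₀ (by positivity) (by positivity) hD0, ht, hD]
      exact_mod_cast j1) (by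
      refine le_trans ?_ (Nat.cast_le.2 (hm (17250 * 2) _ (by norm_num)))
      rw [← pow_le_pow_iff_left₀ (by positivity) (by positivity) hD0, ht, hD, ← hp]
      exact_mod_cast j2.le)
  have hs := List.all_eq_true.1 stages_all _ hst
  simp only [Bool.and_eq_true, decide_eq_true_eq] at hs
  obtain ⟨⟨⟨s1, s2⟩, s3⟩, s4⟩ := hs
  have hnd : (pl.take s).Nodup := pl_nodup.sublist (List.take_sublist _ _)
  have hP : ∀ l ∈ (pl.take s).toFinset, l ∈ pl := fun l hl =>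
    List.mem_of_mem_take (List.mem_toFinset.1 hl)
  have hc : (pl.take s).toFinset.card = s := by
    rw [List.toFinset_card_of_nodup hnd, List.length_take, pl_length, min_eq_left s4]
  rw [← List.prod_toFinset _ hnd] at s2
  rw [← List.map_id (pl.take s), ← List.prod_toFinset _ hnd] at s1
  rw [← List.map_id (pl.take s), ← List.prod_toFinset _ hnd, List.map_id] at s2
  generalize (pl.take s).toFinset = P at hP hc s1 s2
  obtain ⟨C, c1, c2⟩ := card_sq (L := L) P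
    (fun l hl => ⟨(pl_prime (hP l hl)).1, (pl_prime (hP l hl)).2.1⟩) _ fun l hl => hS l (hP l hl)
  have M0 : 0 < ∏ l ∈ P, l := Finset.prod_pos fun l hl => (pl_prime (hP l hl)).1.pos
  obtain ⟨P₁, P₂, p1, p2, p3, p4, p5⟩ := geo ρ1 hρ M0
    (le_trans (Nat.cast_le.2 (s1.trans (hf a).ge)) y1) ht C c2
  refine ⟨P₁, P₂, p1, p2, p3, p4, p5.trans ?_⟩
  have w1 : (∏ l ∈ P, (((l : ℝ) + 1) / (2 * l))) * 2 ^ s ≤ 2 := by
    rw [Finset.prod_div_distrib, Finset.prod_mul_distrib, Finset.prod_const, hc,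
      ← Nat.cast_prod, div_mul_eq_mul_div, mul_comm _ ((2 : ℝ) ^ s),
      mul_div_mul_left _ _ (by positivity), div_le_iff₀ (by positivity)]
    exact_mod_cast s2
  have w0 : 0 ≤ ∏ l ∈ P, (((l : ℝ) + 1) / (2 * l)) := Finset.prod_nonneg fun _ _ => by positivity
  have key := numer (κ := 126 * ρ) (e := 7 + 185) w0 (by positivity) w1
    (by rw [pow_add, ← hf' 185]; gcongr; norm_num) (y2.trans (hf' a').le) s3
  generalize ∏ l ∈ P, (((l : ℝ) + 1) / (2 * l)) = w at c1 w0 key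
  generalize ∏ l ∈ P, l = M at c1 M0
  calc _ ≤ (M : ℝ) ^ Module.finrank ℚ L * w ^ 2 ^ j *
        (126 * ρ * (t ^ 40) ^ 2 / M) ^ Module.finrank ℚ L := by gcongr
    _ = (w * (126 * ρ * t ^ 80) ^ 2) ^ 2 ^ j := by
      rw [mul_right_comm, ← mul_pow, mul_div_cancel₀ _ (by positivity), hD, pow_succ' 2 j,
        pow_mul, ← mul_pow, ← pow_mul t, mul_comm]
    _ ≤ (t ^ 158) ^ 2 ^ j := by gcongr
    _ = _ := by
      rw [← ht, ← pow_mul, ← pow_mul, ← Real.rpow_natCast, ← Real.rpow_natCast,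
        ← Real.rpow_mul t0.le, hD]
      congr 1
      push_cast
      ring

end Pool.Agent.Lib.MP_df1788_co
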