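import Pool.Agent.Lib.MP_ca56d1_nt.Frob

/-! Galois action on primes and completely split primes. -/

set_option linter.unusedSectionVars false

namespace Pool.Agent.Lib.MP_df1788_co

open NumberField IsDedekindDomain Pool.Agent.Stark Pool.Agent.Stark.ComplAux

variable {K L : Type*} [Field K] [NumberField K] [Field L] [NumberField L] [Algebra K L]

/-- The conjugate prime. -/
noncomputable def act (σ : L ≃+* L) (Q : Pr L) : Pr L :=
  HeightOneSpectrum.comap (RingOfIntegers.mapRingEquiv σ).toRingHom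
    (RingOfIntegers.mapRingEquiv σ).surjective Q

theorem mem_act {σ : L ≃+* L} {Q : Pr L} {x : 𝓞 L} :
    x ∈ (act σ Q).asIdeal ↔ RingOfIntegers.mapRingEquiv σ x ∈ Q.asIdeal := Iff.rfl

theorem mem_act_pow {σ : L ≃+* L} {Q : Pr L} {x : 𝓞 L} (n : ℕ) :
    x ∈ (act σ Q).asIdeal ^ n ↔ RingOfIntegers.mapRingEquiv σ x ∈ Q.asIdeal ^ n := by
  have h : (act σ Q).asIdeal = Q.asIdeal.map (RingOfIntegers.mapRingEquiv σ).symm :=
    (Ideal.map_symm (RingOfIntegers.mapRingEquiv σ)).symm
  rw [h, ← Ideal.map_pow, Ideal.map_symm]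
  rfl

theorem og_act_int (σ : L ≃+* L) (Q : Pr L) (x : 𝓞 L) :
    og (act σ Q) (x : L) = og Q (σ x) := by
  by_cases hx : x = 0
  · simp [hx, og]
  have hx' : RingOfIntegers.mapRingEquiv σ x ≠ 0 := by simpa using hx
  have h : ∀ n : ℕ, (n : ℤ) ≤ og (act σ Q) (x : L) ↔ (n : ℤ) ≤ og Q (σ x) := fun n => by
    rw [le_og_iff _ hx, mem_act_pow, ← le_og_iff _ hx']
    rfl
  have h1 := og_nonneg (act σ Q) x
  have h2 : 0 ≤ og Q (σ x) := og_nonneg Q (RingOfIntegers.mapRingEquiv σ x)
  have h3 := (h (og (act σ Q) (x : L)).toNat).1 (by omega)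
  have h4 := (h (og Q (σ x)).toNat).2 (by omega)
  omega

theorem og_act (σ : L ≃+* L) (Q : Pr L) (z : L) : og (act σ Q) z = og Q (σ z) := by
  obtain ⟨x, y, hy, rfl⟩ := IsFractionRing.div_surjective (A := 𝓞 L) z
  by_cases hx : x = 0
  · simp [hx, og]
  have hx' : (x : L) ≠ 0 := by simpa using hx
  have hy' : (y : L) ≠ 0 := by simpa using nonZeroDivisors.ne_zero hy
  have h1 := og_act_int σ Q x
  have h2 := og_act_int σ Q y
  change og (act σ Q) ((x : L) / (y : L)) = og Q (σ ((x : L) / (y : L)))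
  rw [og, og] at h1 h2
  rw [map_div₀, og, og, ord_div hx' hy', ord_div (by simpa using hx') (by simpa using hy'), h1, h2]

theorem below_act (σ : L ≃ₐ[K] L) (Q : Pr L) : below K (act σ.toRingEquiv Q) = below K Q := by
  ext x
  change RingOfIntegers.mapRingEquiv σ.toRingEquiv (algebraMap (𝓞 K) (𝓞 L) x) ∈ Q.asIdeal ↔
    algebraMap (𝓞 K) (𝓞 L) x ∈ Q.asIdeal
  rw [show RingOfIntegers.mapRingEquiv σ.toRingEquiv (algebraMap (𝓞 K) (𝓞 L) x) =
    algebraMap (𝓞 K) (𝓞 L) x from RingOfIntegers.ext (σ.commutes (x : K))]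

theorem exists_act [IsGalois K L] {Q Q' : Pr L} (h : below K Q' = below K Q) :
    ∃ σ : L ≃ₐ[K] L, Q' = act σ.toRingEquiv Q := by
  have := SplitAux.lies (F := K) Q
  have := SplitAux.lies_of h
  obtain ⟨σ, hσ⟩ := Ideal.exists_smul_eq_of_isGaloisGroup (below K Q).asIdeal Q.asIdeal
    Q'.asIdeal Gal(L/K)
  refine ⟨σ⁻¹, HeightOneSpectrum.ext (Ideal.ext fun x => ?_)⟩
  rw [← hσ, Ideal.mem_pointwise_smul_iff_inv_smul_mem, mem_act]
  rfl

theorem eq_of_og {Q Q' : Pr L} (h : ∀ z : L, og Q z = og Q' z) : Q = Q' := by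
  refine HeightOneSpectrum.ext (Ideal.ext fun x => ?_)
  by_cases hx : x = 0
  · simp [hx]
  rw [← og_pos_iff Q hx, ← og_pos_iff Q' hx, h]

theorem exists_unif (q : Pr K) : ∃ t : 𝓞 K, t ≠ 0 ∧ og q (t : K) = 1 := by
  obtain ⟨t, ht⟩ := q.intValuation_exists_uniformizer
  have h : q.valuation K (t : K) = q.intValuation t := q.valuation_of_algebraMap t
  refine ⟨t, ?_, ?_⟩
  · rintro rfl
    rw [map_zero] at ht
    exact WithZero.exp_ne_zero ht.symm
  · rw [og, ord, h, ht]
    simp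

theorem eI_tower {M : Type*} [Field M] [NumberField M] [Algebra K M] [Algebra M L]
    [IsScalarTower K M L] (Q : Pr L) :
    below K (below M Q) = below K Q ∧ eI K Q = eI M Q * eI K (below M Q) := by
  have h0 : below K (below M Q) = below K Q :=
    HeightOneSpectrum.ext (Ideal.under_under Q.asIdeal)
  obtain ⟨t, -, ht⟩ := exists_unif (below K Q)
  have h3 := og_algebraMap (F := K) Q (t : K)
  rw [ht, IsScalarTower.algebraMap_apply K M L, og_algebraMap (F := M) Q,
    og_algebraMap (F := K) (below M Q), h0, ht, mul_one, mul_one] at h3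
  exact ⟨h0, by exact_mod_cast h3.symm⟩

section Emb

variable {q : Pr K} (ι : L →ₐ[K] Kc q)

theorem ord_int (x : 𝓞 L) : 0 ≤ ord (wv q) (ι x) := by
  refine mem_pw_zero.1 ?_
  obtain ⟨p, hp, h⟩ := RingOfIntegers.isIntegral_coe x
  have h2 : IsIntegral (wv q).integer (ι (x : L)) := by
    refine ⟨p.map (Int.castRingHom _), hp.map _, ?_⟩
    have h1 := congrArg ι.toRingHom h
    rw [Polynomial.hom_eval₂, map_zero] at h1
    rw [Polynomial.eval₂_map, RingHom.ext_int (RingHom.comp _ _)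
      (ι.toRingHom.comp (algebraMap ℤ L))]
    exact h1
  have h3 := (Valuation.integer.integers (wv q)).mem_of_integral h2
  simpa [mem_pw, Valuation.mem_integer_iff] using h3

theorem emb_ne {z : L} (hz : z ≠ 0) : ι z ≠ 0 := (map_ne_zero ι).2 hz

/-- The prime attached to an embedding into a completion. -/
noncomputable def prm : Pr L where
  asIdeal :=
    { carrier := {x | ι x ∈ pw (wv q) 1}
      add_mem' := fun {a b} ha hb => by
        have ha' : ι a ∈ pw (wv q) 1 := ha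
        have hb' : ι b ∈ pw (wv q) 1 := hb
        change ι ((a + b : 𝓞 L) : L) ∈ pw (wv q) 1
        rw [show ((a + b : 𝓞 L) : L) = a + b from map_add (algebraMap _ _) _ _, map_add]
        exact add_mem ha' hb'
      zero_mem' := by simp
      smul_mem' := fun c x hx => by
        by_cases hc : c = 0
        · simp [hc]
        by_cases h0 : x = 0
        · simp [h0]
        have hc' : ι c ≠ 0 := emb_ne ι (by simpa using hc)
        have hx' : ι x ≠ 0 := emb_ne ι (by simpa using h0)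
        have h1 := (mem_pw_iff.1 hx).resolve_left hx'
        have h2 := ord_int ι c
        change ι ((c * x : 𝓞 L) : L) ∈ pw (wv q) 1
        rw [mem_pw_iff, show ((c * x : 𝓞 L) : L) = c * x from map_mul (algebraMap _ _) _ _,
          map_mul, ord_mul hc' hx']
        exact Or.inr (by omega) }
  isPrime := by
    refine ⟨fun h => ?_, fun {a b} h => ?_⟩
    · have h1 : ι ((1 : 𝓞 L) : L) ∈ pw (wv q) 1 := (Ideal.eq_top_iff_one _).1 h
      rw [mem_pw_iff] at h1
      simp at h1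
    · by_cases ha : a = 0
      · exact Or.inl (by simp [ha])
      by_cases hb : b = 0
      · exact Or.inr (by simp [hb])
      have ha' : ι a ≠ 0 := emb_ne ι (by simpa using ha)
      have hb' : ι b ≠ 0 := emb_ne ι (by simpa using hb)
      have h1 : ι ((a * b : 𝓞 L) : L) ∈ pw (wv q) 1 := h
      rw [mem_pw_iff, show ((a * b : 𝓞 L) : L) = a * b from map_mul (algebraMap _ _) _ _,
        map_mul, ord_mul ha' hb'] at h1
      have h2 := h1.resolve_left (mul_ne_zero ha' hb')
      have h3 := ord_int ι a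
      have h4 := ord_int ι b
      rcases le_or_gt 1 (ord (wv q) (ι a)) with h5 | h5
      · exact Or.inl (mem_pw_iff.2 (Or.inr h5))
      · exact Or.inr (mem_pw_iff.2 (Or.inr (by omega)))
  ne_bot := by
    obtain ⟨t, h0, ht⟩ := exists_unif q
    intro h
    have h1 : algebraMap (𝓞 K) (𝓞 L) t ∈ (⊥ : Ideal (𝓞 L)) := by
      rw [← h]
      change ι (algebraMap K L (t : K)) ∈ pw (wv q) 1
      rw [ι.commutes, mem_pw_iff, ord_emb, ht]
      exact Or.inr le_rfl
    exact h0 (FaithfulSMul.algebraMap_injective (𝓞 K) (𝓞 L) (by simpa using h1))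

theorem mem_prm {x : 𝓞 L} : x ∈ (prm ι).asIdeal ↔ ι x ∈ pw (wv q) 1 := Iff.rfl

theorem below_prm : below K (prm ι) = q := by
  ext x
  change ι (algebraMap K L (x : K)) ∈ pw (wv q) 1 ↔ _
  rw [ι.commutes]
  exact ((emb_mem_pw q (x : K) 1).trans (int_mem_pw q x 1)).trans (by simp)

theorem ord_of_og {u : L} (h0 : u ≠ 0) (hu : 0 ≤ og (prm ι) u) : 0 ≤ ord (wv q) (ι u) := by
  obtain ⟨n, d, h⟩ := (prm ι).exists_primeCompl_mul_eq_of_integer u
    (by simpa [mem_pw] using mem_pw_zero.2 hu)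
  have hd : ι (d.1 : L) ∉ pw (wv q) 1 := d.2
  rw [mem_pw_iff, not_or] at hd
  have h1 := ord_int ι n
  have h2 : ι (n : L) = ι u * ι (d.1 : L) := by rw [← map_mul]; exact congrArg ι h.symm
  rw [h2, ord_mul (emb_ne ι h0) hd.1] at h1
  have h3 := ord_int ι d.1
  omega

theorem og_prm (z : L) : eI K (prm ι) = 1 ∧ og (prm ι) z = ord (wv q) (ι z) := by
  obtain ⟨p, p0, hp⟩ := exists_unif (prm ι)
  have p1 : (p : L) ≠ 0 := by simpa using p0
  have key : ∀ z : L, z ≠ 0 → ord (wv q) (ι z) = ord (wv q) (ι p) * og (prm ι) z := by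
    intro z hz
    have hk : (p : L) ^ og (prm ι) z ≠ 0 := zpow_ne_zero _ p1
    have h1 : og (prm ι) (z / (p : L) ^ og (prm ι) z) = 0 := by
      rw [og] at hp
      rw [og, ord_div hz hk, ord_zpow, hp, og]
      simp
    have h2 := ord_of_og ι (div_ne_zero hz hk) h1.ge
    have h3 := ord_of_og ι (inv_ne_zero (div_ne_zero hz hk)) (by rw [og, ord_inv, ← og, h1]; simp)
    rw [map_inv₀, ord_inv] at h3
    rw [map_div₀, ord_div (emb_ne ι hz) (emb_ne ι hk), map_zpow₀, ord_zpow] at h2 h3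
    linarith
  obtain ⟨t, t0, ht⟩ := exists_unif q
  have h1 := key (algebraMap K L (t : K)) ((map_ne_zero _).2 (by simpa using t0))
  rw [ι.commutes, ord_emb, og_algebraMap, below_prm, ht, mul_one] at h1
  have h2 : 0 ≤ ord (wv q) (ι p) := ord_int ι p
  have h3 := Int.eq_one_of_mul_eq_one_right h2 h1.symm
  rw [h3, one_mul] at h1
  refine ⟨by exact_mod_cast h1.symm, ?_⟩
  by_cases hz : z = 0
  · simp [hz, og]
  · rw [key z hz, h3, one_mul]

/-- Two embeddings with the same valuation coincide. -/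
theorem emb_eq (ι' : L →ₐ[K] Kc q) (h : ∀ z, ord (wv q) (ι z) = ord (wv q) (ι' z)) : ι = ι' := by
  refine AlgHom.ext fun z => ?_
  by_contra hne
  have h0 : ι z - ι' z ≠ 0 := sub_ne_zero.2 hne
  obtain ⟨j, hj⟩ : ∃ j, j = ord (wv q) (ι z - ι' z) + 1 := ⟨_, rfl⟩
  obtain ⟨y, hy⟩ := exists_approx q (ι z) j
  have h1 : ι (algebraMap K L y - z) ∈ pw (wv q) j := by
    rw [map_sub, ι.commutes]; exact hy
  have h2 : ι' (algebraMap K L y - z) ∈ pw (wv q) j := by
    rw [mem_pw_iff] at h1 ⊢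
    rcases h1 with h1 | h1
    · exact Or.inl (by rw [(map_eq_zero ι).1 h1, map_zero])
    · exact Or.inr (by rw [← h]; exact h1)
  have h3 := sub_mem h2 h1
  rw [map_sub, map_sub, ι.commutes, ι'.commutes, sub_sub_sub_cancel_left, mem_pw_iff] at h3
  have := h3.resolve_left h0
  omega

variable [IsGalois K L]

include ι in
theorem exists_emb {Q : Pr L} (hQ : below K Q = q) :
    ∃ ι' : L →ₐ[K] Kc q, Q = prm ι' := by
  obtain ⟨σ, rfl⟩ := exists_act (hQ.trans (below_prm ι).symm)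
  refine ⟨ι.comp σ.toAlgHom, eq_of_og fun z => ?_⟩
  rw [og_act, (og_prm _ _).2, (og_prm _ _).2]
  rfl

include ι in
theorem eI_split {Q : Pr L} (hQ : below K Q = q) : eI K Q = 1 := by
  obtain ⟨ι', rfl⟩ := exists_emb ι hQ
  exact (og_prm ι' 0).1

include ι in
theorem stab_split {Q : Pr L} (hQ : below K Q = q) (σ : L ≃ₐ[K] L)
    (h : ∀ z, og Q (σ z) = og Q z) : σ = 1 := by
  obtain ⟨ι', rfl⟩ := exists_emb ι hQ
  have h1 := emb_eq (ι'.comp σ.toAlgHom) ι' fun z => by
    rw [← (og_prm ι' z).2, ← h z, (og_prm ι' _).2]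
    rfl
  exact AlgEquiv.ext fun z => ι'.injective (AlgHom.congr_fun h1 z)

include ι in
theorem exists_primes : ∃ S : Finset (Pr L), S.card = Module.finrank K L ∧
    ∀ Q ∈ S, below K Q = q := by
  classical
  refine ⟨Finset.univ.image fun σ : L ≃ₐ[K] L => prm (ι.comp σ.toAlgHom), ?_, ?_⟩
  · rw [Finset.card_image_of_injective, Finset.card_univ, ← Nat.card_eq_fintype_card,
      IsGalois.card_aut_eq_finrank]
    intro σ τ h
    have h1 := emb_eq (ι.comp σ.toAlgHom) (ι.comp τ.toAlgHom) fun z => by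
      rw [← (og_prm _ z).2, ← (og_prm _ z).2]
      exact congrArg (fun Q => og Q z) h
    exact AlgEquiv.ext fun z => ι.injective (AlgHom.congr_fun h1 z)
  · intro Q hQ
    obtain ⟨σ, -, rfl⟩ := Finset.mem_image.1 hQ
    exact below_prm _

end Emb

end Pool.Agent.Lib.MP_df1788_co
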